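import Pool.Agent.WK7.Fin
import Pool.Agent.WK2.Reg

/-!
# MP_7d2497_an, squad WK7: the polynomial weights
-/

set_option autoImplicit false

namespace Pool.Agent.WK7

open MeasureTheory Filter Topology Complex
open Pool.Agent.H78E Pool.Agent.WK Pool.Agent.WK2
open Pool.Agent.WK3 (QC Lin IsSpec)

noncomputable section

theorem wp_qc {a b : ℝ} (ha : 0 ≤ a) (ha1 : a ≤ 1) : QC (wp a b) := by
  refine ⟨1, one_pos, fun s t hs hst => ?_⟩
  have ht : 0 < t := hs.trans_le hst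
  rw [wp_of_nonneg a b hs.le, wp_of_nonneg a b ht.le]
  refine ⟨?_, ?_⟩
  · rw [one_mul]
    exact Real.rpow_le_rpow (by linarith) (by linarith) ha
  · rw [one_mul]
    have h1 : 0 < 1 + s := by linarith
    have h2 : 0 < 1 + t := by linarith
    have h3 : (1 + t) / (1 + s) ≤ t / s := by
      rw [div_le_div_iff₀ h1 hs]
      nlinarith
    have h4 : 1 ≤ (1 + t) / (1 + s) := by
      rw [le_div_iff₀ h1]
      linarith
    have h5 : ((1 + t) / (1 + s)) ^ a ≤ (1 + t) / (1 + s) := by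
      calc ((1 + t) / (1 + s)) ^ a ≤ ((1 + t) / (1 + s)) ^ (1 : ℝ) :=
            Real.rpow_le_rpow_of_exponent_le h4 ha1
        _ = (1 + t) / (1 + s) := Real.rpow_one _
    rw [Real.div_rpow h2.le h1.le] at h5
    have h6 : (1 + t) ^ a / (1 + s) ^ a ≤ t / s := h5.trans h3
    have h7 : 0 < (1 + s) ^ a := Real.rpow_pos_of_pos h1 a
    rw [div_le_div_iff₀ h7 hs] at h6
    linarith

theorem wp_sml (a b : ℝ) : Pool.Agent.WK6.Sml (wp a b) := by
  have h1 : Tendsto (fun t : ℝ => b * (Real.log (1 + t) / Real.sqrt t)) atTop (𝓝 0) := by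
    have h2 : Tendsto (fun t : ℝ => Real.log (1 + t) / Real.sqrt t) atTop (𝓝 0) := by
      have h3 : (fun t : ℝ => Real.log t) =o[atTop] fun t : ℝ => t ^ (1 / 2 : ℝ) :=
        isLittleO_log_rpow_atTop (by norm_num)
      have h4 : Tendsto (fun t : ℝ => 1 + t) atTop atTop := tendsto_atTop_add_const_left _ 1 tendsto_id
      have h5 : (fun t : ℝ => Real.log (1 + t)) =o[atTop] fun t : ℝ => (1 + t) ^ (1 / 2 : ℝ) :=
        h3.comp_tendsto h4
      have h6 : (fun t : ℝ => (1 + t) ^ (1 / 2 : ℝ)) =O[atTop] fun t : ℝ => Real.sqrt t := by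
        refine Asymptotics.IsBigO.of_bound 2 ?_
        filter_upwards [eventually_ge_atTop 1] with t ht
        rw [← Real.sqrt_eq_rpow, Real.norm_of_nonneg (Real.sqrt_nonneg _),
          Real.norm_of_nonneg (Real.sqrt_nonneg _)]
        have : Real.sqrt (1 + t) ≤ Real.sqrt (4 * t) := Real.sqrt_le_sqrt (by linarith)
        rw [Real.sqrt_mul (by norm_num)] at this
        have h8 : Real.sqrt 4 = 2 := by
          rw [show (4 : ℝ) = 2 ^ 2 by norm_num]
          exact Real.sqrt_sq (by norm_num)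
        rwa [h8] at this
      exact (h5.trans_isBigO h6).tendsto_div_nhds_zero
    simpa using h2.const_mul b
  refine h1.congr' ?_
  filter_upwards [eventually_ge_atTop 1] with t ht
  rw [wp_of_nonpos a b (by linarith : -t ≤ 0), neg_neg, Real.log_rpow (by linarith)]
  ring

/-- The polynomial weights. -/
theorem thz_wp (a b : ℝ) (ha : 0 ≤ a) (hb : 0 ≤ b) : IsWeight (wp a b) ∧
    ∀ L : Set ℝ, (PropertyE (wp a b) L ↔ FarI (wp a b) L ∧
      (1 ≤ a ∨ ((∀ K ⊆ L, IsClosed K → K.Countable) ∧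
        ∀ p ∈ L, Pool.Agent.WK4.NearI (wp a b) L p))) := by
  have hw : IsWeight (wp a b) := isWeight_wp ha hb
  refine ⟨hw, fun L => ?_⟩
  by_cases h1 : 1 ≤ a
  · have hL : Lin (wp a b) := ⟨1, fun t ht => wp_linear h1 ht⟩
    rw [Pool.Agent.WK6.xfp (wp a b) hw (Or.inr ⟨hL, reg_wp reg ha hb⟩) L]
    constructor
    · rintro ⟨h2, _⟩
      exact ⟨h2, Or.inl h1⟩
    · rintro ⟨h2, _⟩
      exact ⟨h2, Or.inl hL⟩
  · have h2 : a < 1 := not_le.1 h1
    have hL : ¬ Lin (wp a b) := wp_unbounded ha h2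
    rw [Pool.Agent.WK6.xfp (wp a b) hw (Or.inl ⟨wp_qc ha h2.le, wp_sml a b⟩) L]
    constructor
    · rintro ⟨h3, h4⟩
      exact ⟨h3, Or.inr (h4.resolve_left hL)⟩
    · rintro ⟨h3, h4⟩
      exact ⟨h3, Or.inr (h4.resolve_left h1)⟩

end

end Pool.Agent.WK7
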