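import Pool.Agent.WK5.Vpw
import Pool.Agent.WK5.Lg4
import Pool.Agent.Helper34_E.Fact2

/-!
# MP_7d2497_an, squad WK7: the factors on the space with weight `1 + |t|`
-/

set_option autoImplicit false

namespace Pool.Agent.WK7

open MeasureTheory Filter Topology Complex
open Pool.Agent.H78E Pool.Agent.WKS Pool.Agent.WK5
open Pool.Agent.H78E.H34 (F add_ne norm_v_le)

noncomputable section

namespace Fc2

section General

variable {R : Type} [NormedRing R] [NormedAlgebra ℂ R] [CompleteSpace R]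

theorem gterm {b : ℕ → ℂ} {S : R} {K : ℝ} (hS : ∀ n : ℕ, ‖S ^ n‖ ≤ K * ((n : ℝ) + 1)) (n : ℕ) :
    ‖b n • S ^ n‖ ≤ K * (((n : ℝ) + 1) * ‖b n‖) := by
  rw [norm_smul]
  calc ‖b n‖ * ‖S ^ n‖ ≤ ‖b n‖ * (K * ((n : ℝ) + 1)) :=
        mul_le_mul_of_nonneg_left (hS n) (norm_nonneg _)
    _ = _ := by ring

theorem gsum {b : ℕ → ℂ} (hb : Summable fun n : ℕ => ((n : ℝ) + 1) * ‖b n‖) {S : R} {K : ℝ}
    (hS : ∀ n : ℕ, ‖S ^ n‖ ≤ K * ((n : ℝ) + 1)) : Summable fun n => b n • S ^ n :=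
  Summable.of_norm_bounded (hb.mul_left K) (gterm hS)

theorem gle {b : ℕ → ℂ} (hb : Summable fun n : ℕ => ((n : ℝ) + 1) * ‖b n‖) {S : R} {K : ℝ}
    (hS : ∀ n : ℕ, ‖S ^ n‖ ≤ K * ((n : ℝ) + 1)) :
    ‖F b S‖ ≤ K * ∑' n : ℕ, ((n : ℝ) + 1) * ‖b n‖ := by
  unfold F
  rw [← tsum_mul_left]
  exact tsum_of_norm_bounded (hb.mul_left K).hasSum (gterm hS)

theorem gcont {b : ℕ → ℂ} (hb : Summable fun n : ℕ => ((n : ℝ) + 1) * ‖b n‖) {S : ℝ → R} {K : ℝ}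
    (hS : ∀ (x : ℝ) (n : ℕ), ‖S x ^ n‖ ≤ K * ((n : ℝ) + 1)) (hc : Continuous S) :
    Continuous fun x => F b (S x) := by
  unfold F
  exact continuous_tsum (fun n => (hc.pow n).const_smul (b n)) (hb.mul_left K)
    (fun n x => gterm (hS x) n)

theorem gsplit {b : ℕ → ℂ} (hb : Summable fun n : ℕ => ((n : ℝ) + 1) * ‖b n‖) (hb0 : b 0 = 1)
    {S : R} {K : ℝ} (hS : ∀ n : ℕ, ‖S ^ n‖ ≤ K * ((n : ℝ) + 1))
    (hb' : Summable fun n : ℕ => ((n : ℝ) + 1) * ‖b (n + 1)‖) :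
    F b S = 1 + F (fun n => b (n + 1)) S * S := by
  have h2 := gsum hb hS
  have h3 := gsum (b := fun n => b (n + 1)) hb' hS
  unfold F
  rw [h2.tsum_eq_zero_add, ← h3.tsum_mul_right, hb0, pow_zero, one_smul]
  congr 1
  refine tsum_congr fun n => ?_
  rw [smul_mul_assoc, pow_succ]

theorem gclose {b : ℕ → ℂ} (hb : Summable fun n : ℕ => ((n : ℝ) + 1) * ‖b n‖) {S : ℝ → R}
    {K C : ℝ} (hS : ∀ (x : ℝ) (n : ℕ), ‖S x ^ n‖ ≤ K * ((n : ℝ) + 1))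
    (hC : ∀ x x' : ℝ, ‖S x' - S x‖ ≤ |x' - x| * C) (x : ℝ) {η : ℝ} (hη : 0 < η) :
    ∃ δ : ℝ, 0 < δ ∧ ∀ x' : ℝ, |x' - x| ≤ δ →
      ‖F b (S x') * (1 - S x') ^ 2 - F b (S x) * (1 - S x) ^ 2‖ ≤ η := by
  have hc : Continuous S := by
    rw [continuous_iff_continuousAt]
    intro x
    rw [ContinuousAt, tendsto_iff_norm_sub_tendsto_zero]
    have h1 : Tendsto (fun x' : ℝ => |x' - x| * C) (𝓝 x) (𝓝 0) := by
      have h2 : Continuous fun x' : ℝ => |x' - x| * C := by fun_prop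
      have h3 := h2.tendsto x
      simpa using h3
    exact squeeze_zero (fun _ => norm_nonneg _) (fun x' => hC x x') h1
  have h1 : Continuous fun x => F b (S x) * (1 - S x) ^ 2 :=
    (gcont hb hS hc).mul ((continuous_const.sub hc).pow 2)
  obtain ⟨δ, hδ, h2⟩ := Metric.continuous_iff.1 h1 x η hη
  refine ⟨δ / 2, by positivity, fun x' hx' => ?_⟩
  have h3 := h2 x' (by rw [Real.dist_eq]; linarith)
  rw [dist_eq_norm] at h3
  exact h3.le

/-- The polynomial `(1 - X) r(X)` of the closeness estimate. -/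
def PP (S : R) : R :=
  (-21 : ℂ) • (1 : R) + (56 : ℂ) • S ^ 1 + (-70 : ℂ) • S ^ 2 + (56 : ℂ) • S ^ 3 +
    (-28 : ℂ) • S ^ 4 + (8 : ℂ) • S ^ 5 + (-1 : ℂ) • S ^ 6

theorem PP_le {S : R} {B : ℝ} (h0 : ‖(1 : R)‖ ≤ B) (hS : ∀ n : ℕ, n ≤ 6 → ‖S ^ n‖ ≤ B) :
    ‖PP S‖ ≤ 240 * B := by
  have h : ∀ (c : ℂ) (n : ℕ) (r : ℝ), n ≤ 6 → ‖c‖ = r → ‖c • S ^ n‖ ≤ r * B := by
    intro c n r hn hc
    rw [norm_smul, hc]
    exact mul_le_mul_of_nonneg_left (hS n hn) (hc ▸ norm_nonneg _)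
  have a0 : ‖(-21 : ℂ) • (1 : R)‖ ≤ 21 * B := by
    rw [norm_smul]
    have : ‖(-21 : ℂ)‖ = 21 := by rw [norm_neg]; norm_num
    rw [this]
    exact mul_le_mul_of_nonneg_left h0 (by norm_num)
  have a1 := h 56 1 56 (by norm_num) (by norm_num)
  have a2 := h (-70) 2 70 (by norm_num) (by rw [norm_neg]; norm_num)
  have a3 := h 56 3 56 (by norm_num) (by norm_num)
  have a4 := h (-28) 4 28 (by norm_num) (by rw [norm_neg]; norm_num)
  have a5 := h 8 5 8 (by norm_num) (by norm_num)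
  have a6 := h (-1) 6 1 (by norm_num) (by rw [norm_neg]; norm_num)
  unfold PP
  refine (norm_add_le _ _).trans ((add_le_add ((norm_add_le _ _).trans (add_le_add
    ((norm_add_le _ _).trans (add_le_add ((norm_add_le _ _).trans (add_le_add
    ((norm_add_le _ _).trans (add_le_add ((norm_add_le _ _).trans (add_le_add a0 a1)) a2)) a3))
    a4)) a5)) a6).trans (le_of_eq ?_))
  ring

theorem two_le (c d : ℂ) (X1 X2 P : R) {B : ℝ} (hP : ‖P‖ ≤ B) :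
    ‖c • X1 + d • (X2 * P)‖ ≤ ‖c‖ * ‖X1‖ + ‖d‖ * (‖X2‖ * B) := by
  refine (norm_add_le _ _).trans (add_le_add ?_ ?_)
  · rw [norm_smul]
  · rw [norm_smul]
    refine mul_le_mul_of_nonneg_left ((norm_mul_le _ _).trans ?_) (norm_nonneg _)
    exact mul_le_mul_of_nonneg_left hP (norm_nonneg _)

theorem diff_le {S T : R} {c : ℂ} (h : S - T = c • (S * T)) {B r : ℝ} (hS : ‖S‖ ≤ B)
    (hT : ‖T‖ ≤ B) (hc : ‖c‖ ≤ r) : ‖S - T‖ ≤ r * (B * B) := by
  have hB : 0 ≤ B := (norm_nonneg _).trans hS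
  rw [h, norm_smul]
  refine mul_le_mul hc ((norm_mul_le _ _).trans ?_) (norm_nonneg _) ((norm_nonneg _).trans hc)
  exact mul_le_mul hS hT (norm_nonneg _) hB

end General

abbrev Op := Y →L[ℂ] Y

theorem re_a (x : ℝ) (e : ℝ) : ((e : ℂ) - Complex.I * (x : ℂ)).re = e := by
  simp

theorem chiW_En {z a : ℂ} (hz : z.im ≤ 0) (ha : 0 < a.re) (G : Y) :
    chiW w1 z ((WS isWeight_w1).En a G) = 1 / (a + Complex.I * z) * chiW w1 z G := by
  unfold GSemi.En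
  rw [chiW_pi isWeight_w1 hz G (GI.exp isWeight_w1 ha)]
  congr 1
  have h1 : ∀ t ∈ Set.Ioi (0 : ℝ), Complex.exp (-(a * (t : ℂ))) *
      Complex.exp (-(Complex.I * (t : ℂ) * z)) = Complex.exp (-((a + Complex.I * z) * (t : ℂ))) := by
    intro t _
    rw [← Complex.exp_add]
    congr 1
    ring
  rw [setIntegral_congr_fun measurableSet_Ioi h1, integral_exp_im]
  simp only [Complex.add_re, Complex.mul_re, Complex.I_re, Complex.I_im, zero_mul, one_mul]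
  linarith

theorem chiW_VW {z : ℂ} (hz : z.im ≤ 0) (x : ℝ) {e : ℝ} (he : 0 < e) (G : Y) :
    chiW w1 z (VW x e G) = (e : ℂ) / ((e : ℂ) + Complex.I * (z - x)) * chiW w1 z G := by
  unfold VW
  rw [smul_apply, map_smul, chiW_En hz (by rw [re_a]; exact he), smul_eq_mul, ← mul_assoc,
    mul_one_div]
  congr 2
  ring

/-- An operator with a multiplier. -/
def Mlt (x : ℝ) (T : Y →L[ℂ] Y) (μ : ℂ → ℂ) : Prop :=
  ∀ z : ℂ, z.im ≤ 0 → z ≠ (x : ℂ) → ∀ G : Y, chiW w1 z (T G) = μ z * chiW w1 z G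

variable {x : ℝ} {T S : Y →L[ℂ] Y} {μ ν : ℂ → ℂ}

theorem Mlt.mul (h1 : Mlt x T μ) (h2 : Mlt x S ν) : Mlt x (T * S) (fun z => μ z * ν z) := by
  intro z hz hx G
  have e : (T * S) G = T (S G) := rfl
  rw [e, h1 z hz hx, h2 z hz hx, mul_assoc]

theorem Mlt.one : Mlt x 1 (fun _ => 1) := by
  intro z _ _ G
  have e : (1 : Y →L[ℂ] Y) G = G := rfl
  rw [e, one_mul]

theorem Mlt.add (h1 : Mlt x T μ) (h2 : Mlt x S ν) : Mlt x (T + S) (fun z => μ z + ν z) := by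
  intro z hz hx G
  rw [add_apply, map_add, h1 z hz hx, h2 z hz hx, add_mul]

theorem Mlt.sub (h1 : Mlt x T μ) (h2 : Mlt x S ν) : Mlt x (T - S) (fun z => μ z - ν z) := by
  intro z hz hx G
  rw [sub_apply, map_sub, h1 z hz hx, h2 z hz hx, sub_mul]

theorem Mlt.smul (c : ℂ) (h1 : Mlt x T μ) : Mlt x (c • T) (fun z => c * μ z) := by
  intro z hz hx G
  rw [smul_apply, map_smul, h1 z hz hx, smul_eq_mul, mul_assoc]

theorem Mlt.pow (h1 : Mlt x T μ) (n : ℕ) : Mlt x (T ^ n) (fun z => μ z ^ n) := by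
  induction n with
  | zero =>
    simp only [pow_zero]
    exact Mlt.one
  | succ n ih =>
    simp only [pow_succ]
    exact ih.mul h1

theorem Mlt.uniq (h1 : Mlt x T μ) (h2 : Mlt x S ν) (h : ∀ z : ℂ, z.im < 0 → μ z = ν z) : T = S := by
  ext1 G
  rw [← sub_eq_zero]
  apply lapuW isWeight_w1
  intro z hz
  have hx : z ≠ (x : ℂ) := by
    intro h
    rw [h] at hz
    simp at hz
  rw [map_sub, h1 z hz.le hx, h2 z hz.le hx, h z hz, sub_self]

theorem VW_pow_le (x : ℝ) {e : ℝ} (he : 0 < e) (n : ℕ) :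
    ‖VW x e ^ n‖ ≤ (1 + 1 / e) * ((n : ℝ) + 1) := by
  refine (vpw x e he n).trans ?_
  have h1 : (0 : ℝ) ≤ (n : ℝ) := Nat.cast_nonneg n
  have h2 : 0 < 1 / e := by positivity
  have h3 : (n : ℝ) / e = (1 / e) * n := by ring
  rw [h3]
  nlinarith

theorem VW_le (x : ℝ) {e : ℝ} (he : 0 < e) : ‖VW x e‖ ≤ 1 + 1 / e := by
  have h := vpw x e he 1
  rw [pow_one, Nat.cast_one] at h
  exact h

variable {b : ℕ → ℂ}

theorem F_sum (hb : Summable fun n : ℕ => ((n : ℝ) + 1) * ‖b n‖) (x : ℝ) {e : ℝ} (he : 0 < e) :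
    Summable fun n => b n • VW x e ^ n :=
  gsum (R := Op) hb (VW_pow_le x he)

theorem F_le (hb : Summable fun n : ℕ => ((n : ℝ) + 1) * ‖b n‖) (x : ℝ) {e : ℝ} (he : 0 < e) :
    ‖F b (VW x e)‖ ≤ (1 + 1 / e) * ∑' n : ℕ, ((n : ℝ) + 1) * ‖b n‖ :=
  gle (R := Op) hb (VW_pow_le x he)

theorem Mlt.F (hb : Summable fun n : ℕ => ((n : ℝ) + 1) * ‖b n‖) (x : ℝ) {e : ℝ} (he : 0 < e)
    {g : ℂ → ℂ} (hg : ∀ v : ℂ, ‖v‖ ≤ 1 → v ≠ 1 → ∑' n, b n * v ^ n = g v) :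
    Mlt x (H34.F b (VW x e)) (fun z => g ((e : ℂ) / ((e : ℂ) + Complex.I * (z - x)))) := by
  intro z hz hx G
  obtain ⟨v, hv⟩ : ∃ v : ℂ, v = (e : ℂ) / ((e : ℂ) + Complex.I * (z - x)) := ⟨_, rfl⟩
  have hv1 : ‖v‖ ≤ 1 := by
    rw [hv]
    exact norm_v_le hz x he
  have hv2 : v ≠ 1 := by
    intro h
    rw [hv, div_eq_one_iff_eq (add_ne hz x he)] at h
    have h2 : Complex.I * (z - x) = 0 := by linear_combination -h
    rcases mul_eq_zero.1 h2 with h3 | h3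
    · exact Complex.I_ne_zero h3
    · exact hx (sub_eq_zero.1 h3)
  have hpow : ∀ n : ℕ, chiW w1 z ((VW x e ^ n) G) = v ^ n * chiW w1 z G := by
    intro n
    induction n with
    | zero =>
      have e0 : (VW x e ^ 0) G = G := by
        rw [pow_zero]
        rfl
      rw [e0, pow_zero, one_mul]
    | succ n ih =>
      have e1 : (VW x e ^ (n + 1)) G = VW x e ((VW x e ^ n) G) := by
        rw [pow_succ']
        rfl
      rw [e1, chiW_VW hz x he, ih, ← hv, pow_succ]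
      ring
  have hs := F_sum hb x he
  have h1 : HasSum (fun n => b n • VW x e ^ n) (H34.F b (VW x e)) := hs.hasSum
  have h2 : HasSum (fun n => (b n • VW x e ^ n) G) (H34.F b (VW x e) G) :=
    h1.mapL (ContinuousLinearMap.apply ℂ Y G)
  have h3 : HasSum (fun n => chiW w1 z ((b n • VW x e ^ n) G)) (chiW w1 z (H34.F b (VW x e) G)) :=
    h2.mapL (chiW w1 z)
  have h4 : ∀ n, chiW w1 z ((b n • VW x e ^ n) G) = (b n * v ^ n) * chiW w1 z G := by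
    intro n
    rw [smul_apply, map_smul, hpow, smul_eq_mul]
    ring
  simp only [h4] at h3
  rw [← h3.tsum_eq, tsum_mul_right, hg v hv1 hv2, hv]

theorem mVW (y x : ℝ) {e : ℝ} (he : 0 < e) :
    Mlt y (VW x e) (fun z => (e : ℂ) / ((e : ℂ) + Complex.I * (z - x))) :=
  fun _ hz _ G => chiW_VW hz x he G

theorem VW_sub (x x' : ℝ) {e : ℝ} (he : 0 < e) :
    ‖VW x' e - VW x e‖ ≤ |x' - x| / e * ((1 + 1 / e) * (1 + 1 / e)) := by
  have h : VW x' e - VW x e = (Complex.I * ((x' : ℂ) - x) / e) • (VW x' e * VW x e) := by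
    refine Mlt.uniq (x := x) ((mVW x x' he).sub (mVW x x he))
      (((mVW x x' he).mul (mVW x x he)).smul _) ?_
    intro z hz
    have h1 := add_ne hz.le x he
    have h2 := add_ne hz.le x' he
    have h3 : (e : ℂ) ≠ 0 := by exact_mod_cast he.ne'
    field_simp
    ring
  refine diff_le (R := Op) h (VW_le x' he) (VW_le x he) ?_
  rw [norm_div, norm_mul, Complex.norm_I, one_mul, Complex.norm_real, Real.norm_of_nonneg he.le,
    ← Complex.ofReal_sub, Complex.norm_real, Real.norm_eq_abs]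

/-- The factor. -/
def AA (a : ℝ → ℕ → ℂ) (x m e : ℝ) : Y →L[ℂ] Y :=
  F (a (3 * m / e)) (VW x e) * (1 - VW x e) ^ 2

variable {a : ℝ → ℕ → ℂ}

theorem AA_mlt (ha1 : ∀ c : ℝ, 0 < c → Summable fun n : ℕ => ((n : ℝ) + 1) * ‖a c n‖)
    (ha2 : ∀ c : ℝ, 0 < c → ∀ v : ℂ, ‖v‖ ≤ 1 → v ≠ 1 →
      ∑' n, a c n * v ^ n = (1 - v) ^ 4 * Complex.exp (-((c : ℂ) * v / (1 - v))))
    (y x : ℝ) {m e : ℝ} (hm : 0 < m) (he : 0 < e) (hy : y = x) :
    Mlt y (AA a x m e) (fun z => (1 - (e : ℂ) / ((e : ℂ) + Complex.I * (z - x))) ^ 4 *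
      Complex.exp (-(((3 * m / e : ℝ) : ℂ) * ((e : ℂ) / ((e : ℂ) + Complex.I * (z - x))) /
        (1 - (e : ℂ) / ((e : ℂ) + Complex.I * (z - x))))) *
      (1 - (e : ℂ) / ((e : ℂ) + Complex.I * (z - x))) ^ 2) := by
  subst hy
  have hc : 0 < 3 * m / e := by positivity
  unfold AA
  exact (Mlt.F (ha1 _ hc) y he (ha2 _ hc)).mul ((Mlt.one.sub (mVW y y he)).pow 2)

theorem one_sub_v {z : ℂ} (hz : z.im ≤ 0) (x : ℝ) {e : ℝ} (he : 0 < e) :
    1 - (e : ℂ) / ((e : ℂ) + Complex.I * (z - x)) =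
      Complex.I * (z - x) / ((e : ℂ) + Complex.I * (z - x)) := by
  have h1 := add_ne hz x he
  field_simp
  ring

theorem expo {z : ℂ} (hz : z.im ≤ 0) {x : ℝ} (hx : z ≠ (x : ℂ)) (m : ℝ) {e : ℝ} (he : 0 < e) :
    ((3 * m / e : ℝ) : ℂ) * ((e : ℂ) / ((e : ℂ) + Complex.I * (z - x))) /
        (1 - (e : ℂ) / ((e : ℂ) + Complex.I * (z - x))) = 3 * ((m : ℂ) / (Complex.I * (z - x))) := by
  rw [one_sub_v hz x he]
  have h1 := add_ne hz x he
  have h2 : z - (x : ℂ) ≠ 0 := sub_ne_zero.mpr hx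
  have h3 : (e : ℂ) ≠ 0 := by exact_mod_cast he.ne'
  have h4 := Complex.I_ne_zero
  push_cast
  field_simp

theorem AA_mult (ha1 : ∀ c : ℝ, 0 < c → Summable fun n : ℕ => ((n : ℝ) + 1) * ‖a c n‖)
    (ha2 : ∀ c : ℝ, 0 < c → ∀ v : ℂ, ‖v‖ ≤ 1 → v ≠ 1 →
      ∑' n, a c n * v ^ n = (1 - v) ^ 4 * Complex.exp (-((c : ℂ) * v / (1 - v))))
    {x m e : ℝ} (hm : 0 < m) (he : 0 < e) {z : ℂ} (hz : z.im ≤ 0) (hx : z ≠ (x : ℂ)) (G : Y) :
    chiW w1 z (AA a x m e G) = mult x m e z ^ 3 * chiW w1 z G := by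
  rw [AA_mlt ha1 ha2 x x hm he rfl z hz hx G]
  congr 1
  simp only []
  rw [expo hz hx m he, one_sub_v hz x he]
  unfold mult
  have h1 : Complex.exp (-(3 * ((m : ℂ) / (Complex.I * (z - x))))) =
      Complex.exp (-((m : ℂ) / (Complex.I * (z - x)))) ^ 3 := by
    rw [← Complex.exp_nat_mul]
    congr 1
    push_cast
    ring
  rw [h1]
  ring

theorem AA_close1 (ha1 : ∀ c : ℝ, 0 < c → Summable fun n : ℕ => ((n : ℝ) + 1) * ‖a c n‖)
    (ha2 : ∀ c : ℝ, 0 < c → ∀ v : ℂ, ‖v‖ ≤ 1 → v ≠ 1 →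
      ∑' n, a c n * v ^ n = (1 - v) ^ 4 * Complex.exp (-((c : ℂ) * v / (1 - v))))
    (x : ℝ) {m e : ℝ} (hm : 0 < m) (he : 0 < e) {η : ℝ} (hη : 0 < η) :
    ∃ e0 : ℝ, 0 < e0 ∧ ∀ e' : ℝ, 0 < e' → e' ≤ e0 →
      ‖AA a x m e - (AA a x (m / 2) e) * (AA a x (m / 2) e')‖ ≤ η := by
  obtain ⟨S4, hS4⟩ : ∃ S4 : Op, S4 = F (a (3 * m / e)) (VW x e) := ⟨_, rfl⟩
  obtain ⟨X1, hX1⟩ : ∃ X1 : Op, X1 = VW x e * S4 * (1 - VW x e) := ⟨_, rfl⟩
  obtain ⟨X2, hX2⟩ : ∃ X2 : Op, X2 = VW x e ^ 2 * S4 := ⟨_, rfl⟩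
  set B : ℝ := 6 / e * ‖X1‖ + 1680 / e ^ 2 * ‖X2‖ with hB
  have hB0 : 0 ≤ B := by positivity
  refine ⟨min 1 (η / (B + 1)), lt_min one_pos (by positivity), fun e' he' hle => ?_⟩
  have hm2 : 0 < m / 2 := by positivity
  have hc : 0 < 3 * m / e := by positivity
  have key : AA a x m e - (AA a x (m / 2) e) * (AA a x (m / 2) e') =
      (6 * (e' : ℂ) / e) • X1 + (((e' : ℂ) / e) ^ 2) • (X2 * PP (VW x e')) := by
    have hv' := mVW x x he'
    have mP : Mlt x (PP (VW x e')) (fun z => -21 * 1 +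
        56 * ((e' : ℂ) / ((e' : ℂ) + Complex.I * (z - x))) ^ 1 +
        -70 * ((e' : ℂ) / ((e' : ℂ) + Complex.I * (z - x))) ^ 2 +
        56 * ((e' : ℂ) / ((e' : ℂ) + Complex.I * (z - x))) ^ 3 +
        -28 * ((e' : ℂ) / ((e' : ℂ) + Complex.I * (z - x))) ^ 4 +
        8 * ((e' : ℂ) / ((e' : ℂ) + Complex.I * (z - x))) ^ 5 +
        -1 * ((e' : ℂ) / ((e' : ℂ) + Complex.I * (z - x))) ^ 6) := by
      unfold PP
      exact ((((((Mlt.one.smul _).add ((hv'.pow 1).smul _)).add ((hv'.pow 2).smul _)).add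
        ((hv'.pow 3).smul _)).add ((hv'.pow 4).smul _)).add ((hv'.pow 5).smul _)).add
        ((hv'.pow 6).smul _)
    have mS : Mlt x S4 (fun z => (1 - (e : ℂ) / ((e : ℂ) + Complex.I * (z - x))) ^ 4 *
        Complex.exp (-(((3 * m / e : ℝ) : ℂ) * ((e : ℂ) / ((e : ℂ) + Complex.I * (z - x))) /
        (1 - (e : ℂ) / ((e : ℂ) + Complex.I * (z - x)))))) := by
      rw [hS4]
      exact Mlt.F (ha1 _ hc) x he (ha2 _ hc)
    have mv := mVW x x he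
    have mX1 := (mv.mul mS).mul (Mlt.one.sub mv)
    rw [← hX1] at mX1
    have mX2 := (mv.pow 2).mul mS
    rw [← hX2] at mX2
    refine Mlt.uniq (x := x) ((AA_mlt ha1 ha2 x x hm he rfl).sub
      ((AA_mlt ha1 ha2 x x hm2 he rfl).mul (AA_mlt ha1 ha2 x x hm2 he' rfl)))
      ((mX1.smul _).add ((mX2.mul mP).smul _)) ?_
    intro z hz
    have hx : z ≠ (x : ℂ) := by
      intro h
      rw [h] at hz
      simp at hz
    rw [expo hz.le hx m he, expo hz.le hx (m / 2) he, expo hz.le hx (m / 2) he']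
    obtain ⟨E2, hE2⟩ : ∃ E2 : ℂ, E2 =
      Complex.exp (-(3 * (((m / 2 : ℝ) : ℂ) / (Complex.I * (z - x))))) := ⟨_, rfl⟩
    have hE : Complex.exp (-(3 * ((m : ℂ) / (Complex.I * (z - x))))) = E2 * E2 := by
      rw [hE2, ← Complex.exp_add]
      congr 1
      push_cast
      ring
    rw [hE, ← hE2]
    have h1 := add_ne hz.le x he
    have h2 := add_ne hz.le x he'
    have h3 : (e : ℂ) ≠ 0 := by exact_mod_cast he.ne'
    have h5 : (1 - (e : ℂ) / ((e : ℂ) + Complex.I * (z - x))) *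
        ((e' : ℂ) / ((e' : ℂ) + Complex.I * (z - x))) =
        ((e' : ℂ) / e) * ((e : ℂ) / ((e : ℂ) + Complex.I * (z - x))) *
          (1 - (e' : ℂ) / ((e' : ℂ) + Complex.I * (z - x))) := by
      rw [one_sub_v hz.le x he, one_sub_v hz.le x he']
      field_simp
    generalize (e : ℂ) / ((e : ℂ) + Complex.I * (z - x)) = v at h5 ⊢
    generalize (e' : ℂ) / ((e' : ℂ) + Complex.I * (z - x)) = u at h5 ⊢
    have h6 : 6 * (e' : ℂ) / e = 6 * ((e' : ℂ) / e) := by ring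
    rw [h6]
    generalize (e' : ℂ) / e = r at h5 ⊢
    linear_combination ((1 - v) ^ 4 * (E2 * E2) * ((1 - v) *
      (6 - 15 * u + 20 * u ^ 2 - 15 * u ^ 3 + 6 * u ^ 4 - u ^ 5) +
      r * v * (-21 + 35 * u - 35 * u ^ 2 + 21 * u ^ 3 - 7 * u ^ 4 + u ^ 5))) * h5
  rw [key]
  have he'1 : e' ≤ 1 := hle.trans (min_le_left _ _)
  have hP : ‖PP (VW x e')‖ ≤ 240 * (1 + 6 / e') := by
    refine PP_le (R := Op) ?_ ?_
    · refine (H34.op_one).trans ?_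
      have : 0 < 6 / e' := by positivity
      linarith
    · intro n hn
      refine (vpw x e' he' n).trans ?_
      have h1 : (n : ℝ) ≤ 6 := by exact_mod_cast hn
      have h2 : (n : ℝ) / e' ≤ 6 / e' := div_le_div_of_nonneg_right h1 he'.le
      linarith
  refine (two_le (R := Op) _ _ X1 X2 _ hP).trans ?_
  have n1 : ‖6 * (e' : ℂ) / e‖ = 6 * e' / e := by
    have : 6 * (e' : ℂ) / e = ((6 * e' / e : ℝ) : ℂ) := by push_cast; ring
    rw [this, Complex.norm_real, Real.norm_of_nonneg (by positivity)]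
  have n2 : ‖((e' : ℂ) / e) ^ 2‖ = e' ^ 2 / e ^ 2 := by
    have : ((e' : ℂ) / e) ^ 2 = ((e' ^ 2 / e ^ 2 : ℝ) : ℂ) := by push_cast; ring
    rw [this, Complex.norm_real, Real.norm_of_nonneg (by positivity)]
  rw [n1, n2]
  have h7 : e' ^ 2 / e ^ 2 * (‖X2‖ * (240 * (1 + 6 / e'))) ≤ 1680 / e ^ 2 * ‖X2‖ * e' := by
    have h8 : e' ^ 2 * (1 + 6 / e') ≤ 7 * e' := by
      have h9 : e' ^ 2 * (1 + 6 / e') = e' ^ 2 + 6 * e' := by
        field_simp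
      rw [h9]
      nlinarith
    calc e' ^ 2 / e ^ 2 * (‖X2‖ * (240 * (1 + 6 / e')))
        = 240 / e ^ 2 * ‖X2‖ * (e' ^ 2 * (1 + 6 / e')) := by ring
      _ ≤ 240 / e ^ 2 * ‖X2‖ * (7 * e') := mul_le_mul_of_nonneg_left h8 (by positivity)
      _ = _ := by ring
  have h10 : e' * (B + 1) ≤ η := by
    have h11 := hle.trans (min_le_right _ _)
    rwa [le_div_iff₀ (by positivity)] at h11
  calc 6 * e' / e * ‖X1‖ + e' ^ 2 / e ^ 2 * (‖X2‖ * (240 * (1 + 6 / e')))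
      ≤ 6 * e' / e * ‖X1‖ + 1680 / e ^ 2 * ‖X2‖ * e' := add_le_add le_rfl h7
    _ = B * e' := by rw [hB]; ring
    _ ≤ e' * (B + 1) := by nlinarith
    _ ≤ η := h10

theorem AA_close2 (ha1 : ∀ c : ℝ, 0 < c → Summable fun n : ℕ => ((n : ℝ) + 1) * ‖a c n‖)
    (x : ℝ) {m e : ℝ} (hm : 0 < m) (he : 0 < e) {η : ℝ} (hη : 0 < η) :
    ∃ δ : ℝ, 0 < δ ∧ ∀ x' : ℝ, |x' - x| ≤ δ → ‖AA a x' m e - AA a x m e‖ ≤ η := by
  have hc : 0 < 3 * m / e := by positivity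
  exact gclose (R := Op) (ha1 _ hc) (fun x n => VW_pow_le x he n)
    (C := (1 / e) * ((1 + 1 / e) * (1 + 1 / e)))
    (fun x x' => (VW_sub x x' he).trans (le_of_eq (by ring))) x hη

end Fc2

open Fc2 in
/-- FCW of WK5. -/
theorem fcw0 (hlg : Lg4Stmt) : FcwStmt := by
  unfold Lg4Stmt at hlg
  choose! a ha1 ha2 using hlg
  refine ⟨AA a, ?_, ?_⟩
  · intro x m e hm he
    exact ⟨fun η hη => AA_close1 ha1 ha2 x hm he hη, fun η hη => AA_close2 ha1 x hm he hη⟩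
  · intro x m e hm he z hz hx G
    exact AA_mult ha1 ha2 hm he hz hx G

namespace Fc2

theorem En_T {w : ℝ → ℝ} {E : Type} [NormedAddCommGroup E] [NormedSpace ℂ E] [CompleteSpace E]
    (S : GSemi w E) (a : ℂ) {v : ℝ} (hv : 0 ≤ v) (x : E) : S.T v (S.En a x) = S.En a (S.T v x) := by
  unfold GSemi.En
  apply S.pi_commute S (S.T v)
  intro t ht y
  rw [← S.add v t hv ht, ← S.add t v ht hv, add_comm]

/-- The range of the resolvent is dense. -/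
theorem range_denseW {w : ℝ → ℝ} (hw : IsWeight w) {E : Type} [NormedAddCommGroup E]
    [NormedSpace ℂ E] [CompleteSpace E] (S : GSemi w E) (p : E) {η : ℝ} (hη : 0 < η) :
    ∃ u : E, ‖S.En 1 u - p‖ ≤ η := by
  have h1 : (0 : ℝ) < (1 : ℂ).re := by simp
  have hc : Continuous fun s : ℝ => Complex.exp (-((1 : ℂ) * (s : ℂ))) • S.T (max s 0) p := by
    have h9 : Continuous fun s : ℝ => Complex.exp (-((1 : ℂ) * (s : ℂ))) := by fun_prop
    exact h9.smul (S.cont p)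
  have hd : HasDerivAt (fun v : ℝ => ∫ s in (0 : ℝ)..v,
      Complex.exp (-((1 : ℂ) * (s : ℂ))) • S.T (max s 0) p)
      (Complex.exp (-((1 : ℂ) * ((0 : ℝ) : ℂ))) • S.T (max 0 0) p) 0 :=
    (hc.integral_hasStrictDerivAt 0 0).hasDerivAt
  have hv0 : Complex.exp (-((1 : ℂ) * ((0 : ℝ) : ℂ))) • S.T (max 0 0) p = p := by
    rw [max_self, S.zero]
    simp
  rw [hv0] at hd
  have hs := hasDerivAt_iff_tendsto_slope.1 hd
  have hs2 : Tendsto (slope (fun v : ℝ => ∫ s in (0 : ℝ)..v,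
      Complex.exp (-((1 : ℂ) * (s : ℂ))) • S.T (max s 0) p) 0) (𝓝[>] 0) (𝓝 p) :=
    hs.mono_left (nhdsWithin_mono _ fun x hx => ne_of_gt hx)
  have hev := hs2.eventually (Metric.ball_mem_nhds p hη)
  obtain ⟨v, hv1, hv2⟩ := (hev.and self_mem_nhdsWithin).exists
  have hv : (0 : ℝ) < v := hv2
  refine ⟨((v : ℂ))⁻¹ • (p - Complex.exp (-((1 : ℂ) * (v : ℂ))) • S.T v p), ?_⟩
  have h2 := S.T_En hw h1 p hv.le
  rw [En_T S 1 hv.le p] at h2
  have h3 : S.En 1 (((v : ℂ))⁻¹ • (p - Complex.exp (-((1 : ℂ) * (v : ℂ))) • S.T v p)) =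
      slope (fun v : ℝ => ∫ s in (0 : ℝ)..v,
      Complex.exp (-((1 : ℂ) * (s : ℂ))) • S.T (max s 0) p) 0 v := by
    rw [slope_def_module, sub_zero, intervalIntegral.integral_same, sub_zero,
      map_smul, map_sub, map_smul, h2, ← Complex.coe_smul, Complex.ofReal_inv]
    congr 1
    abel
  rw [h3, ← dist_eq_norm]
  exact (Metric.mem_ball.1 hv1).le

theorem En1_le (x : ℝ) {m : ℝ} (hm : 1 ≤ m) (u : Y) :
    ‖(WS isWeight_w1).En ((m : ℂ) - Complex.I * (x : ℂ)) u‖ ≤ 2 * ‖u‖ := by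
  have hm0 : 0 < m := by linarith
  have h1 : VW x m u = (m : ℂ) • (WS isWeight_w1).En ((m : ℂ) - Complex.I * (x : ℂ)) u := rfl
  have h2 : ‖VW x m u‖ ≤ 2 * ‖u‖ := by
    refine (ContinuousLinearMap.le_opNorm _ _).trans ?_
    apply mul_le_mul_of_nonneg_right _ (norm_nonneg _)
    refine (VW_le x hm0).trans ?_
    have : 1 / m ≤ 1 := by
      rw [div_le_one hm0]
      exact hm
    linarith
  rw [h1, norm_smul, Complex.norm_real, Real.norm_of_nonneg hm0.le] at h2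
  have h3 := norm_nonneg ((WS isWeight_w1).En ((m : ℂ) - Complex.I * (x : ℂ)) u)
  nlinarith

theorem VW_range (u : Y) {x m : ℝ} (hm : 1 ≤ m) (hx : x ≠ 0) :
    ‖VW x m ((WS isWeight_w1).En 1 u)‖ ≤ 4 * m / |x| * ‖u‖ := by
  have hm0 : 0 < m := by linarith
  have h := (WS isWeight_w1).resid isWeight_w1 (a := (m : ℂ) - Complex.I * (x : ℂ)) (b := 1)
    (by rw [re_a]; exact hm0) (by simp) u
  have hne : |x| ≤ ‖(1 : ℂ) - ((m : ℂ) - Complex.I * (x : ℂ))‖ := by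
    have : ((1 : ℂ) - ((m : ℂ) - Complex.I * (x : ℂ))).im = x := by simp
    calc |x| = |((1 : ℂ) - ((m : ℂ) - Complex.I * (x : ℂ))).im| := by rw [this]
      _ ≤ _ := Complex.abs_im_le_norm _
  have hx0 : 0 < |x| := abs_pos.2 hx
  have h1 : ‖(WS isWeight_w1).En ((m : ℂ) - Complex.I * (x : ℂ)) u - (WS isWeight_w1).En 1 u‖ ≤
      4 * ‖u‖ := by
    refine (norm_sub_le _ _).trans ?_
    have a1 := En1_le x hm u
    have a2 : ‖(WS isWeight_w1).En 1 u‖ ≤ 2 * ‖u‖ := by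
      have h3 := En1_le 0 (le_refl 1) u
      have h4 : (((1 : ℝ) : ℂ) - Complex.I * ((0 : ℝ) : ℂ)) = 1 := by simp
      rwa [h4] at h3
    linarith
  have h2 : |x| * ‖(WS isWeight_w1).En ((m : ℂ) - Complex.I * (x : ℂ))
      ((WS isWeight_w1).En 1 u)‖ ≤ 4 * ‖u‖ := by
    rw [h, norm_smul] at h1
    exact (mul_le_mul_of_nonneg_right hne (norm_nonneg _)).trans h1
  unfold VW
  rw [smul_apply, norm_smul, Complex.norm_real, Real.norm_of_nonneg hm0.le]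
  rw [div_mul_eq_mul_div, le_div_iff₀ hx0]
  calc m * ‖(WS isWeight_w1).En ((m : ℂ) - Complex.I * (x : ℂ)) ((WS isWeight_w1).En 1 u)‖ * |x|
      = m * (|x| * ‖(WS isWeight_w1).En ((m : ℂ) - Complex.I * (x : ℂ))
        ((WS isWeight_w1).En 1 u)‖) := by ring
    _ ≤ m * (4 * ‖u‖) := by gcongr
    _ = 4 * m * ‖u‖ := by ring

theorem far_le {R : Type} [NormedRing R] [NormedAlgebra ℂ R] [CompleteSpace R] {b : ℕ → ℂ}
    (hb : Summable fun n : ℕ => ((n : ℝ) + 1) * ‖b n‖) (hb0 : b 0 = 1)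
    (hb' : Summable fun n : ℕ => ((n : ℝ) + 1) * ‖b (n + 1)‖) {S : R}
    {K : ℝ} (hS : ∀ n : ℕ, ‖S ^ n‖ ≤ K * ((n : ℝ) + 1)) (h1 : ‖(1 : R)‖ ≤ 1) (hS2 : ‖S‖ ≤ 2) :
    ∃ T : R, F b S * (1 - S) ^ 2 = 1 + T * S ∧
      ‖T‖ ≤ 4 + 9 * (K * ∑' n : ℕ, ((n : ℝ) + 1) * ‖b (n + 1)‖) := by
  refine ⟨(S - (1 + 1)) + F (fun n => b (n + 1)) S * (1 - S) ^ 2, ?_, ?_⟩
  · rw [gsplit hb hb0 hS hb']
    generalize F (fun n => b (n + 1)) S = G
    noncomm_ring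
  · have h2 := gle (b := fun n => b (n + 1)) hb' hS
    have h3 : ‖(1 : R) - S‖ ≤ 3 := (norm_sub_le _ _).trans (by linarith)
    have h4 : ‖(1 - S) ^ 2‖ ≤ 9 := by
      rw [pow_two]
      refine (norm_mul_le _ _).trans ?_
      have := norm_nonneg ((1 : R) - S)
      nlinarith
    have h5 : ‖S - (1 + 1)‖ ≤ 4 := by
      refine (norm_sub_le _ _).trans ?_
      have := norm_add_le (1 : R) 1
      linarith
    refine (norm_add_le _ _).trans (add_le_add h5 ((norm_mul_le _ _).trans ?_))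
    have h6 : 0 ≤ ‖F (fun n => b (n + 1)) S‖ := norm_nonneg _
    have h7 : 0 ≤ ‖(1 - S) ^ 2‖ := norm_nonneg _
    calc ‖F (fun n => b (n + 1)) S‖ * ‖(1 - S) ^ 2‖
        ≤ (K * ∑' n : ℕ, ((n : ℝ) + 1) * ‖b (n + 1)‖) * 9 :=
          mul_le_mul h2 h4 h7 (h6.trans h2)
      _ = _ := by ring

theorem AA_far {a : ℝ → ℕ → ℂ}
    (ha1 : ∀ c : ℝ, 0 < c → Summable fun n : ℕ => ((n : ℝ) + 1) * ‖a c n‖)
    (ha2 : ∀ c : ℝ, 0 < c → ∀ v : ℂ, ‖v‖ ≤ 1 → v ≠ 1 →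
      ∑' n, a c n * v ^ n = (1 - v) ^ 4 * Complex.exp (-((c : ℂ) * v / (1 - v))))
    (p : Y) {η : ℝ} (hη : 0 < η) : ∃ δ : ℝ, 0 < δ ∧ ∀ x m : ℝ, 1 ≤ m → m ≤ δ * |x| →
      ‖AA a x m m p - p‖ ≤ η := by
  have h10 : a 3 0 = 1 := by
    have h := ha2 3 (by norm_num) 0 (by simp) (by simp)
    rw [tsum_eq_single 0 (by
      intro n hn
      rw [zero_pow hn, mul_zero])] at h
    simpa using h
  have hb : Summable fun n : ℕ => ((n : ℝ) + 1) * ‖a 3 n‖ := ha1 3 (by norm_num)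
  have hb' : Summable fun n : ℕ => ((n : ℝ) + 1) * ‖a 3 (n + 1)‖ := by
    refine Summable.of_nonneg_of_le (fun n => by positivity) (fun n => ?_)
      ((summable_nat_add_iff 1).2 hb)
    apply mul_le_mul_of_nonneg_right _ (norm_nonneg _)
    push_cast
    linarith
  set C : ℝ := 4 + 9 * (2 * ∑' n : ℕ, ((n : ℝ) + 1) * ‖a 3 (n + 1)‖) with hC
  have hC0 : 0 ≤ C := by
    have : 0 ≤ ∑' n : ℕ, ((n : ℝ) + 1) * ‖a 3 (n + 1)‖ := tsum_nonneg fun n => by positivity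
    positivity
  obtain ⟨u, hu⟩ := range_denseW isWeight_w1 (WS isWeight_w1) p (η := η / (4 * (C + 1)))
    (by positivity)
  refine ⟨η / (8 * (C + 1) * (‖u‖ + 1)), by positivity, fun x m hm hmx => ?_⟩
  have hm0 : 0 < m := by linarith
  have hx : x ≠ 0 := by
    rintro rfl
    rw [abs_zero, mul_zero] at hmx
    linarith
  have hx0 : 0 < |x| := abs_pos.2 hx
  have h1m : 1 / m ≤ 1 := by
    rw [div_le_one hm0]
    exact hm
  have hV2 : ‖VW x m‖ ≤ 2 := (VW_le x hm0).trans (by linarith)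
  have hVp : ∀ n : ℕ, ‖VW x m ^ n‖ ≤ 2 * ((n : ℝ) + 1) := by
    intro n
    refine (VW_pow_le x hm0 n).trans ?_
    apply mul_le_mul_of_nonneg_right (by linarith)
    positivity
  obtain ⟨T, hT1, hT2⟩ := far_le (R := Op) hb h10 hb' hVp H34.op_one hV2
  have e1 : AA a x m m = 1 + T * VW x m := by
    unfold AA
    have e2 : 3 * m / m = 3 := by field_simp
    rw [e2]
    exact hT1
  have e3 : AA a x m m p - p = T (VW x m p) := by
    rw [e1]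
    have : (1 + T * VW x m : Op) p = p + T (VW x m p) := rfl
    rw [this, add_sub_cancel_left]
  have h3 : ‖VW x m p‖ ≤ η / (2 * (C + 1)) + 4 * m / |x| * ‖u‖ := by
    have e : VW x m p = VW x m ((WS isWeight_w1).En 1 u) -
        VW x m ((WS isWeight_w1).En 1 u - p) := by
      rw [map_sub]
      abel
    rw [e]
    refine (norm_sub_le _ _).trans ?_
    have h4 : ‖VW x m ((WS isWeight_w1).En 1 u - p)‖ ≤ η / (2 * (C + 1)) := by
      refine (ContinuousLinearMap.le_opNorm _ _).trans ?_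
      calc ‖VW x m‖ * ‖(WS isWeight_w1).En 1 u - p‖ ≤ 2 * (η / (4 * (C + 1))) := by
            gcongr
        _ = _ := by
            field_simp
            ring
    have h5 := VW_range u hm hx
    linarith
  have h6 : 4 * m / |x| * ‖u‖ ≤ η / (2 * (C + 1)) := by
    have h7 : m / |x| ≤ η / (8 * (C + 1) * (‖u‖ + 1)) := by
      rw [div_le_iff₀ hx0]
      exact hmx
    calc 4 * m / |x| * ‖u‖ = 4 * (m / |x|) * ‖u‖ := by ring
      _ ≤ 4 * (η / (8 * (C + 1) * (‖u‖ + 1))) * (‖u‖ + 1) := by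
        gcongr
        linarith
      _ = η / (2 * (C + 1)) := by
        field_simp
        ring
  rw [e3]
  calc ‖T (VW x m p)‖ ≤ ‖T‖ * ‖VW x m p‖ := T.le_opNorm _
    _ ≤ C * (η / (2 * (C + 1)) + η / (2 * (C + 1))) := by
        gcongr
        linarith
    _ = C / (C + 1) * η := by
        field_simp
        ring
    _ ≤ 1 * η := by
        gcongr
        rw [div_le_one (by positivity)]
        linarith
    _ = η := one_mul _

end Fc2

/-- The factors on the weighted space, with the closeness property far out. -/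
def Fc2Stmt : Prop :=
  ∃ A : ℝ → ℝ → ℝ → (Y →L[ℂ] Y), FClose A ∧ (∀ x m e : ℝ, 0 < m → 0 < e →
    ∀ z : ℂ, z.im ≤ 0 → z ≠ (x : ℂ) → ∀ F : Y,
      chiW w1 z (A x m e F) = mult x m e z ^ 3 * chiW w1 z F) ∧
    ∀ (p : Y) (η : ℝ), 0 < η → ∃ δ : ℝ, 0 < δ ∧ ∀ x m : ℝ, 1 ≤ m → m ≤ δ * |x| →
      ‖A x m m p - p‖ ≤ η

open Fc2 in
theorem fc2 : Fc2Stmt := by
  have hlg : Lg4Stmt := lg4
  unfold Lg4Stmt at hlg
  choose! a ha1 ha2 using hlg
  refine ⟨AA a, ?_, ?_, fun p η hη => AA_far ha1 ha2 p hη⟩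
  · intro x m e hm he
    exact ⟨fun η hη => AA_close1 ha1 ha2 x hm he hη, fun η hη => AA_close2 ha1 x hm he hη⟩
  · intro x m e hm he z hz hx G
    exact AA_mult ha1 ha2 hm he hz hx G

end

end Pool.Agent.WK7
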