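import Pool.Agent.WK7.Stmts
import Pool.Agent.WK5.Ca3
import Pool.Agent.Helper92_E.Ca2

/-!
# CA4: as CA2, with a weaker bound above the real line
-/

set_option autoImplicit false

namespace Pool.Agent.WK7

open MeasureTheory Filter Topology Complex Metric
open Pool.Agent.H78E.H92

theorem ca4 : CA4Stmt := by
  intro ψ x0 M hd hup hax hlo hinf
  have hop : IsOpen {z : ℂ | z ≠ (x0 : ℂ)} := isOpen_ne
  have hdz : ∀ z : ℂ, |x0| < ‖z‖ → DifferentiableAt ℂ ψ z := by
    intro z hz
    refine hd.differentiableAt (hop.mem_nhds ?_)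
    rintro rfl
    rw [Complex.norm_real, Real.norm_eq_abs] at hz
    exact lt_irrefl _ hz
  have hM : 0 ≤ M := by
    have := (norm_nonneg _).trans (hup Complex.I (by simp))
    rw [Complex.I_im, div_one, one_pow, div_one] at this
    linarith
  obtain ⟨C, hC⟩ := hinf
  obtain ⟨C', hC'⟩ : ∃ C', C' = |C| + 2 * M + 1 := ⟨_, rfl⟩
  have hC'1 : 1 ≤ C' := by
    rw [hC']
    linarith [abs_nonneg C]
  -- bound in the lower half-plane
  have hlow : ∀ z : ℂ, z.im < 0 → ‖ψ z‖ ≤
      Real.exp (C' * Real.sqrt (1 + ‖z‖) * (1 + 1 / |z.im|)) := by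
    intro z hz
    refine (hC z hz).trans (Real.exp_le_exp.2 ?_)
    refine mul_le_mul_of_nonneg_right (mul_le_mul_of_nonneg_right ?_ (Real.sqrt_nonneg _))
      (by positivity)
    rw [hC']
    linarith [le_abs_self C]
  have hMe : 2 * M ≤ Real.exp C' := by
    have := Real.add_one_le_exp C'
    rw [hC'] at this ⊢
    linarith [abs_nonneg C]
  -- bound near the real axis
  have hnear : ∀ z : ℂ, |z.im| ≤ 1 → |x0| + 4 ≤ ‖z‖ →
      ‖ψ z‖ ≤ Real.exp (27 * C' * Real.sqrt (1 + ‖z‖)) := by
    intro z hz hzn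
    obtain ⟨x, hx⟩ : ∃ x : ℝ, x = z.re := ⟨_, rfl⟩
    have hzx : |x| ≤ ‖z‖ := by rw [hx]; exact Complex.abs_re_le_norm z
    have hxz : ‖z‖ ≤ |x| + |z.im| := by rw [hx]; exact Complex.norm_le_abs_re_add_abs_im z
    obtain ⟨q, hq⟩ : ∃ q, q = Real.sqrt (3 + ‖z‖) := ⟨_, rfl⟩
    have hq1 : 1 ≤ q := by
      rw [hq]
      refine Real.one_le_sqrt.2 ?_
      linarith [norm_nonneg z]
    have hq3 : q ≤ Real.sqrt 3 * Real.sqrt (1 + ‖z‖) := by
      rw [hq, ← Real.sqrt_mul (by norm_num)]
      refine Real.sqrt_le_sqrt ?_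
      linarith [norm_nonneg z]
    have hball : ∀ w : ℂ, ‖w‖ ≤ 2 → |x0| < ‖(x : ℂ) + w‖ ∧ ‖(x : ℂ) + w‖ ≤ ‖z‖ + 2 := by
      intro w hw
      have h1 : ‖(x : ℂ)‖ = |x| := by rw [Complex.norm_real, Real.norm_eq_abs]
      have h2 := norm_sub_norm_le (x : ℂ) (-w)
      rw [h1, norm_neg, sub_neg_eq_add] at h2
      have h3 := norm_add_le (x : ℂ) w
      rw [h1] at h3
      constructor <;> linarith
    have him : ∀ w : ℂ, ((x : ℂ) + w).im = w.im := fun w => by simp
    have hqC : 0 ≤ C' * q := by positivity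
    have h := rhombL (E := fun w => ψ ((x : ℂ) + w)) (B0 := C' * q + 1)
      (C := Real.exp (C' * q)) (s := 2) (by positivity)
      (Real.one_le_exp hqC) (by norm_num)
      (fun w hw => DifferentiableAt.comp w (hdz _ (hball w hw).1) (differentiableAt_id.const_add _))
      (fun w hw hwi => by
        rcases lt_or_gt_of_ne hwi with h | h
        · have h1 := hlow ((x : ℂ) + w) (by rw [him]; exact h)
          rw [him] at h1
          refine h1.trans ?_
          rw [← Real.exp_add]
          refine Real.exp_le_exp.2 ?_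
          have h2 : Real.sqrt (1 + ‖(x : ℂ) + w‖) ≤ q := by
            rw [hq]
            refine Real.sqrt_le_sqrt ?_
            linarith [(hball w hw).2]
          have h3 : 0 ≤ 1 / |w.im| := by positivity
          calc C' * Real.sqrt (1 + ‖(x : ℂ) + w‖) * (1 + 1 / |w.im|)
              ≤ C' * q * (1 + 1 / |w.im|) := by gcongr
            _ = C' * q + (C' * q) / |w.im| := by ring
            _ ≤ C' * q + (C' * q + 1) / |w.im| := by gcongr; linarith
        · have h1 := hup ((x : ℂ) + w) (by rw [him]; exact h)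
          rw [him] at h1
          refine h1.trans ?_
          rw [abs_of_pos h]
          have h2 : 1 / w.im + (1 / w.im) ^ 2 ≤ 2 * Real.exp (1 / w.im) := by
            have h3 : 0 ≤ 1 / w.im := by positivity
            have := Real.quadratic_le_exp_of_nonneg h3
            linarith
          calc M / w.im + M / w.im ^ 2 = M * (1 / w.im + (1 / w.im) ^ 2) := by
                rw [div_pow, one_pow]
                ring
            _ ≤ M * (2 * Real.exp (1 / w.im)) := mul_le_mul_of_nonneg_left h2 hM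
            _ = 2 * M * Real.exp (1 / w.im) := by ring
            _ ≤ Real.exp (C' * q) * Real.exp ((C' * q + 1) / w.im) := by
                refine mul_le_mul ?_ (Real.exp_le_exp.2 ?_) (by positivity)
                  (Real.exp_pos _).le
                · refine hMe.trans (Real.exp_le_exp.2 ?_)
                  nlinarith
                · gcongr
                  linarith)
      (z - (x : ℂ)) (by
        have : z - (x : ℂ) = (z.im : ℂ) * Complex.I := by
          rw [hx]
          apply Complex.ext <;> simp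
        rw [this, norm_mul, Complex.norm_I, mul_one, Complex.norm_real, Real.norm_eq_abs]
        linarith)
    simp only [add_sub_cancel] at h
    refine h.trans ?_
    rw [← Real.exp_add]
    refine Real.exp_le_exp.2 ?_
    have h3 : Real.sqrt 3 ≤ 9 / 5 := by
      rw [Real.sqrt_le_left (by norm_num)]
      norm_num
    have h4 : q ≤ 9 / 5 * Real.sqrt (1 + ‖z‖) :=
      hq3.trans (mul_le_mul_of_nonneg_right h3 (Real.sqrt_nonneg _))
    have h5 : 1 ≤ Real.sqrt (1 + ‖z‖) := Real.one_le_sqrt.2 (by linarith [norm_nonneg z])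
    have h6 : C' * q ≤ C' * (9 / 5 * Real.sqrt (1 + ‖z‖)) :=
      mul_le_mul_of_nonneg_left h4 (by linarith)
    have h7 : 1 * 1 ≤ C' * Real.sqrt (1 + ‖z‖) :=
      mul_le_mul hC'1 h5 (by norm_num) (by linarith)
    calc C' * q + 16 * (C' * q + 1) / 2 = 9 * (C' * q) + 8 := by ring
      _ ≤ 9 * (C' * (9 / 5 * Real.sqrt (1 + ‖z‖))) + 8 * (C' * Real.sqrt (1 + ‖z‖)) := by linarith
      _ ≤ 27 * C' * Real.sqrt (1 + ‖z‖) := by linarith
  obtain ⟨R, hR⟩ : ∃ R, R = |x0| + 4 := ⟨_, rfl⟩
  have hR0 : 0 < R := by rw [hR]; positivity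
  have hgr : ∀ z : ℂ, R ≤ ‖z‖ → z.im ≤ 1 →
      ‖ψ z‖ ≤ Real.exp (27 * C' * Real.sqrt (1 + ‖z‖)) := by
    intro z hz h1
    rcases le_or_gt |z.im| 1 with h | h
    · exact hnear z h (by rw [← hR]; exact hz)
    · have h2 : z.im < 0 := by
        by_contra h3
        rw [abs_of_nonneg (not_lt.1 h3)] at h
        linarith
      refine (hlow z h2).trans (Real.exp_le_exp.2 ?_)
      have h3 : 1 / |z.im| ≤ 1 := by
        rw [div_le_one (by linarith)]
        exact h.le
      have h4 : 0 ≤ C' * Real.sqrt (1 + ‖z‖) := by positivity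
      nlinarith
  obtain ⟨A, hA⟩ := (isCompact_sphere (0 : ℂ) R).exists_bound_of_continuousOn (f := ψ)
    (fun w hw => (hdz w (by
      rw [mem_sphere_zero_iff_norm] at hw
      rw [hw, hR]
      linarith)).continuousAt.continuousWithinAt)
  obtain ⟨K, hK⟩ : ∃ K, K = max 1 (max A (2 * M)) := ⟨_, rfl⟩
  have hK1 : 1 ≤ K := by rw [hK]; exact le_max_left _ _
  have hKA : A ≤ K := by rw [hK]; exact (le_max_left _ _).trans (le_max_right _ _)
  have hKM : 2 * M ≤ K := by rw [hK]; exact (le_max_right _ _).trans (le_max_right _ _)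
  have hpl := pl_bound (ψ := ψ) (R := R) (C1 := 27 * C') (K := K) hR0 (by positivity) hK1
    (fun z hz => hdz z (by linarith)) hgr
    (fun z hz h1 => (hup z (by rw [h1]; norm_num)).trans (by
      rw [h1, one_pow, div_one]
      linarith))
    (fun z hz => (hA z (by rw [mem_sphere_zero_iff_norm]; exact hz)).trans hKA)
  have hK0 : 0 ≤ K := by linarith
  refine WK5.ca3 ψ x0 M (R + 1) 1 hd hup hax (fun η hη => ?_) ⟨K, fun z hz hzR => ?_⟩
  · obtain ⟨C2, hC2⟩ := hlo η (R + 1) hη
    refine ⟨|C2| + K, fun z hz => ?_⟩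
    have he : 1 ≤ Real.exp (η / |z.im|) := Real.one_le_exp (by positivity)
    have hn := norm_nonneg z
    rcases le_or_gt ‖z‖ (R + 1) with h | h
    · refine (hC2 z hz h).trans (mul_le_mul_of_nonneg_right ?_ (Real.exp_pos _).le)
      rw [pow_one]
      nlinarith [le_abs_self C2, abs_nonneg C2]
    · refine (hpl z (by linarith) (by linarith)).trans ?_
      rw [pow_one]
      have h1 : K ≤ (|C2| + K) * (1 + ‖z‖) := by nlinarith [abs_nonneg C2]
      have h2 : 0 ≤ (|C2| + K) * (1 + ‖z‖) := by positivity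
      nlinarith
  · have h1 := hpl z (by linarith) (by linarith)
    refine h1.trans ?_
    have h2 : 0 < |z.im| := abs_pos.2 hz.ne
    rw [le_div_iff₀ h2, pow_one]
    have h3 := Complex.abs_im_le_norm z
    nlinarith [norm_nonneg z]

end Pool.Agent.WK7
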