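import Pool.Agent.WK5.Smw
import Pool.Agent.WK6.Stmts
import Pool.Agent.WK7.Fc2
import Pool.Agent.Helper78_E.Neg2b
import Pool.Agent.Helper34_E.ThinOp

/-!
# MP_7d2497_an, squad WK7: all weights which are quasi-concave or of at least linear growth on the
half-line
-/

set_option autoImplicit false

namespace Pool.Agent.WK7

open MeasureTheory Filter Topology Complex
open Pool.Agent.H78E Pool.Agent.WKS Pool.Agent.WK5
open Pool.Agent.WK3 (QC Lin)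

noncomputable section

/-- Far out the closed subsets are countable. -/
def FarC (L : Set ℝ) : Prop :=
  ∃ R : ℝ, ∀ K ⊆ L, (∀ x ∈ K, R ≤ |x|) → IsClosed K → K.Countable

/-- Large growth on the negative half-line. -/
def Big (φ : ℝ → ℝ) : Prop :=
  ∃ c T : ℝ, 0 < c ∧ ∀ t : ℝ, T ≤ t → c * Real.sqrt t ≤ Real.log (φ (-t))

/-! ### The construction in a normed ring -/

/-- The product of the factors of level `n` of a cluster of mass `m0`. -/
def MoR {R : Type} [NormedRing R] (A : ℝ → ℝ → ℝ → R) (m0 : ℝ) (n : ℕ) (x e : ℕ → ℝ) : R :=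
  ((Pool.Agent.H78E.H34.lev n).map fun i => A (x i) (m0 * (1 / 2 : ℝ) ^ n) (e i)).prod

/-- One cluster of atoms (compare `ThinOp`). -/
structure ThinG {R : Type} [NormedRing R] (A : ℝ → ℝ → ℝ → R) (K : Set ℝ) (x0 m0 η : ℝ) where
  x : ℕ → ℝ
  e : ℕ → ℝ
  M : R
  x_zero : x 0 = x0
  e_zero : e 0 = m0
  x_mem : ∀ i, x i ∈ K
  x_near : ∀ i, |x i - x 0| ≤ 1
  e_pos : ∀ i, 0 < e i
  e_sum : Summable e
  e_le : ∑' i, e i ≤ m0 + 1
  sep : ∀ N : ℕ, ∃ ρ : ℝ, 0 < ρ ∧ ∀ n : ℕ, N ≤ n → ∀ u : ℝ,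
    ((Finset.range (2 ^ n)).filter (fun i => |x i - u| < ρ)).card ≤ 2 ^ (n - N)
  lim : Tendsto (fun n => MoR A m0 n x e) atTop (𝓝 M)
  close : ‖M - A x0 m0 m0‖ ≤ η

/-! ### The weighted quotient: resolvent and contour integrals (compare `Helper92_E/Pos2a.lean`) -/

variable {φ : ℝ → ℝ}

/-- Simplicity in terms of functionals. -/
def SimW (hφ : IsWeight φ) (l : Y →L[ℂ] ℂ) : Prop :=
  ∀ k : Y →L[ℂ] ℂ, (∀ f ∈ (annW hφ l).I, k f = 0) → (∃ z : ℂ, (annW hφ k).hull = {z}) →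
    ∃ c z : ℂ, z.im ≤ 0 ∧ k = c • chiW φ z

/-- The resolvent `(z - A)⁻¹` of the generator. -/
def RnW (hφ : IsWeight φ) (J : ISub φ) (z : ℂ) : J.Q →L[ℂ] J.Q :=
  (-Complex.I) • ((J.S hφ).En 1 * Ring.inverse ((J.S hφ).D z))

/-- The resolvent exists on an annulus next to the circle of radius `ρ`. -/
structure CircW (hφ : IsWeight φ) (J : ISub φ) (ρ1 ρ : ℝ) : Prop where
  pos : 0 < ρ1
  lt : ρ1 < ρ
  unit : ∀ z : ℂ, ρ1 ≤ ‖z‖ → ‖z‖ ≤ ρ → IsUnit ((J.S hφ).D z)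

/-- Contour integrals of the resolvent. -/
def EcW (hφ : IsWeight φ) (J : ISub φ) (ρ s : ℝ) : J.Q →L[ℂ] J.Q :=
  (2 * (Real.pi : ℂ) * Complex.I)⁻¹ •
    ∮ z in C(0, ρ), Complex.exp (-(Complex.I * (s : ℂ) * z)) • RnW hφ J z

/-- The vector version. -/
def XiW (hφ : IsWeight φ) (J : ISub φ) (ρ s : ℝ) : J.Q :=
  (2 * (Real.pi : ℂ) * Complex.I)⁻¹ •
    ∮ z in C(0, ρ), Complex.exp (-(Complex.I * (s : ℂ) * z)) • ((-Complex.I) • H65.qW hφ J z)

end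

end Pool.Agent.WK7
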