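import Pool.Agent.WK7.Stmts
import Pool.Agent.WK5.Fbw
import Pool.Agent.Helper78_E.LowFar

/-!
# MP_7d2497_an, squad WK7: module FBF, the main estimate for the far construction
-/

set_option autoImplicit false

namespace Pool.Agent.WK7

open MeasureTheory Filter Topology Complex
open Pool.Agent.H78E Pool.Agent.WKS Pool.Agent.WK5
open Pool.Agent.WK3 (QC Lin)

noncomputable section

theorem lowerData {L : Set ℝ} (D : FarData L) : LowerData D.K D.f := by
  have hx10 : ∀ j, 10 ≤ |D.x j 0| := by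
    intro j
    have h1 := D.x_large j
    have h2 : (1 : ℝ) ≤ 4 ^ j := one_le_pow₀ (by norm_num)
    linarith
  obtain ⟨hl1, hl2, hl3⟩ := lowFar L D
  exact
    { closed := D.K_closed
      gap := by
        intro u hu
        obtain ⟨j, hj⟩ := D.K_near u hu
        have h1 := hx10 j
        have h2 : |D.x j 0| ≤ |u| + |u - D.x j 0| := by
          calc |D.x j 0| = |u - (u - D.x j 0)| := by ring_nf
            _ ≤ |u| + |u - D.x j 0| := abs_sub _ _
        linarith
      ne := hl1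
      loc := hl2
      glob := hl3 }

/-- The hull of an invariant subspace containing the element is in `D.K`. -/
theorem hull_far {φ : ℝ → ℝ} {L : Set ℝ} (D : FarData L) {G : Y}
    (hG : ∀ z : ℂ, z.im ≤ 0 → (∀ j i, z ≠ (D.x j i : ℂ)) →
      chiW φ z G = chi z D.f ^ 3 * (1 + Complex.I * z) ^ 2) (J : ISub φ) (hJ : G ∈ J.I) :
    ∀ z ∈ J.hull, ∃ x : ℝ, x ∈ D.K ∧ z = (x : ℂ) := by
  intro z hz
  by_cases hx : ∀ j i, z ≠ (D.x j i : ℂ)
  · have h1 := hz.2 G hJ
    rw [hG z hz.1 hx] at h1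
    have h2 : chi z D.f = 0 := by
      rcases mul_eq_zero.mp h1 with h3 | h3
      · exact pow_eq_zero_iff (by norm_num) |>.mp h3
      · exact absurd (pow_eq_zero_iff (by norm_num) |>.mp h3) (one_add_ne hz.1)
    by_contra hcon
    refine (lowerData D).ne z hz.1 ?_ h2
    rintro ⟨x, hxK, rfl⟩
    exact hcon ⟨x, hxK, rfl⟩
  · push Not at hx
    obtain ⟨j, i, hi⟩ := hx
    exact ⟨D.x j i, D.x_mem j i, hi⟩

/-- The main estimate. -/
theorem functional_boundF (hSm : SmfStmt) {φ : ℝ → ℝ} (hφ : IsWeight φ) (hQ : QC φ)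
    (hNL : ¬ Lin φ) {L : Set ℝ} (hE : PropertyE φ L) (D : FarData L) (F : Y)
    (hFchi : ∀ z : ℂ, z.im ≤ 0 → (∀ j i, z ≠ (D.x j i : ℂ)) →
      chi z (dv w1 F) = chi z D.f ^ 3 * (1 + Complex.I * z) ^ 2)
    (J : InvSub) (hJf : D.f ∈ J.I) (hJF : dv w1 F ∈ J.I) (κ : J.Q →L[ℂ] ℂ) :
    ∃ C : ℝ, ∀ z : ℂ, z.im < 0 → ‖κ (J.q z)‖ ≤
      C * ∫ t in Set.Ioi (0 : ℝ), φ (-t) * Real.exp (-(|z.im| * t)) := by
  have hL : LapuStmt := H85.lapu
  have hR : ResidStmt := H13.resid
  have hA : AlgStmt := H85.alg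
  have hD : DensStmt := H13.dens
  have hLine : LineStmt := Pool.Agent.Helper15_E.line bipolar
  have hLD := lowerData D
  set k : Y →L[ℂ] ℂ := κ.comp J.qm with hk
  have hkJ : ∀ f ∈ J.I, k f = 0 := by
    intro f hf
    rw [hk, ContinuousLinearMap.comp_apply, J.qm_eq_zero.mpr hf, map_zero]
  have hDk : D.f ∈ (ann k).I := by
    intro s hs
    exact hkJ _ (J.inv s hs _ hJf)
  obtain ⟨G0, hG0⟩ := exists_change hφ hQ F
  have hG0chi : ∀ z : ℂ, z.im ≤ 0 → (∀ j i, z ≠ (D.x j i : ℂ)) →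
      chiW φ z G0 = chi z D.f ^ 3 * (1 + Complex.I * z) ^ 2 := by
    intro z hz hx
    rw [chiW_apply, hG0]
    exact hFchi z hz hx
  have hG0neg : ∀ z : ℂ, z.im < 0 →
      chiW φ z G0 = chi z D.f ^ 3 * (1 + Complex.I * z) ^ 2 := by
    intro z hz
    refine hG0chi z hz.le fun j i h => ?_
    rw [h, Complex.ofReal_im] at hz
    exact lt_irrefl _ hz
  by_cases hk0 : k = 0
  · refine ⟨0, fun z _ => ?_⟩
    obtain ⟨f, hf⟩ := J.qm_surj (J.q z)
    rw [← hf, zero_mul]
    have : κ (J.qm f) = k f := rfl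
    rw [this, hk0]
    simp
  obtain ⟨h, hrep, hm, hneg, C, hC⟩ := exists_function H61.dual k
  have hh : LInfPos φ h := linfPos_of_bounded hφ hm hneg hC
  -- the functional on the weighted space
  set kφ : Y →L[ℂ] ℂ := k.comp (dv φ) with hkφ
  have hrepφ : RepW φ kφ h := fun f => hrep (dv φ f)
  have hG0ann : G0 ∈ (annW hφ kφ).I := by
    intro s hs
    have e : kφ (YW φ s G0) = k (dv φ (YW φ s G0)) := rfl
    rw [e, dv_YW hφ hs, hG0]
    exact hkJ _ (J.inv s hs _ hJF)
  have hspec : SpecPos φ h = (annW hφ kφ).hull := specPos_eqW hφ hh hrepφ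
  have hkφ0 : kφ ≠ 0 := by
    intro h0
    apply hk0
    apply ext_ez hD
    intro n
    have him : (-(Complex.I * ((n : ℂ) + 1))).im < 0 := by
      simp only [Complex.neg_im, Complex.mul_im, Complex.I_re, Complex.add_im, Complex.natCast_im,
        Complex.one_im, Complex.I_im, Complex.add_re, Complex.natCast_re, Complex.one_re]
      have : (0 : ℝ) ≤ (n : ℝ) := Nat.cast_nonneg n
      linarith
    obtain ⟨E, hE⟩ := exists_ezW hφ him
    rw [← hE]
    have e : k (dv φ E) = kφ E := rfl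
    rw [e, h0]
    rfl
  have hne : (SpecPos φ h).Nonempty := by
    rw [Set.nonempty_iff_ne_empty]
    intro he
    rw [hspec] at he
    obtain ⟨c, hc⟩ := hSm φ hφ hQ hNL D.K D.f hLD G0 hG0neg kφ hG0ann 0 (by rw [he]; simp)
    by_cases h : c = 0
    · exact hkφ0 (by rw [hc, h]; exact zero_smul_fun _)
    · have h1 := hull_chiW hφ (z := ((0 : ℝ) : ℂ)) (by simp) h
      have h2 : ((0 : ℝ) : ℂ) ∈ (annW hφ kφ).hull := by
        rw [hc, h1]
        rfl
      rw [he] at h2
      exact h2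
  have hnear := hull_far D hG0chi
  have hsub : SpecPos φ h ⊆ (fun x : ℝ => (x : ℂ)) '' L := by
    rw [hspec]
    intro z hz
    obtain ⟨x, hx, rfl⟩ := hnear _ hG0ann z hz
    exact ⟨x, D.K_sub hx, rfl⟩
  have hsimple : SimpleSpec φ h := by
    rintro u hu ⟨z, hz⟩
    have hu1 : LInfPos φ u := hu.1
    obtain ⟨ℓ, hℓ⟩ := exists_functionalW hφ hu1
    have hu2 := (mem_BPos_iffW hφ hh hu1 hrepφ hℓ).mp hu
    have hGℓ : G0 ∈ (annW hφ ℓ).I := by
      intro s hs
      exact hu2 _ ((annW hφ kφ).inv s hs _ hG0ann)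
    rw [specPos_eqW hφ hu1 hℓ] at hz
    have hz1 : z ∈ (annW hφ ℓ).hull := by rw [hz]; rfl
    obtain ⟨x, hx, rfl⟩ := hnear _ hGℓ z hz1
    obtain ⟨c, hc⟩ := hSm φ hφ hQ hNL D.K D.f hLD G0 hG0neg ℓ hGℓ x (by rw [hz])
    refine ⟨c, (x : ℂ), by simp, ?_⟩
    have hrep2 : RepW φ ℓ (fun t => c * expPos (x : ℂ) t) := by
      intro f
      rw [hc, smul_apply, smul_eq_mul, chiW_rep (by simp) f, ← integral_const_mul]
      congr 1
      ext1 t
      ring
    -- uniqueness of the representing function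
    have r1 := (repW_iff hφ ℓ u).mp hℓ
    have r2 := (repW_iff hφ ℓ _).mp hrep2
    obtain ⟨hum, C1, hC1⟩ := hu1.1
    have hmeas : AEStronglyMeasurable (fun t => u t / (φ t : ℂ)) volume :=
      hum.mul ((Complex.measurable_ofReal.comp hφ.meas).inv).aestronglyMeasurable
    have hmeas2 : AEStronglyMeasurable (fun t => c * expPos (x : ℂ) t / (φ t : ℂ)) volume :=
      (((expPos_measurable (x : ℂ)).const_mul c).aestronglyMeasurable).mul
        ((Complex.measurable_ofReal.comp hφ.meas).inv).aestronglyMeasurable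
    have h5 := rep_unique r1 r2 hmeas hmeas2
      (C := max C1 ‖c‖) (by
        filter_upwards [hC1] with t ht _
        rw [norm_div, Complex.norm_real, Real.norm_of_nonneg (one_le_max_zero hφ t).le,
          div_le_iff₀ (one_le_max_zero hφ t)]
        exact ht.trans (mul_le_mul_of_nonneg_right (le_max_left _ _) (one_le_max_zero hφ t).le))
      (Eventually.of_forall fun t _ => by
        rw [norm_div, norm_mul, Complex.norm_real,
          Real.norm_of_nonneg (one_le_max_zero hφ t).le, div_le_iff₀ (one_le_max_zero hφ t)]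
        have h6 := norm_expPos (z := (x : ℂ)) (by simp) t
        have h7 := hφ.one_le t
        have h8 : ‖c‖ ≤ max C1 ‖c‖ := le_max_right _ _
        calc ‖c‖ * ‖expPos (x : ℂ) t‖ ≤ ‖c‖ * 1 :=
              mul_le_mul_of_nonneg_left h6 (norm_nonneg _)
          _ ≤ max C1 ‖c‖ * φ t :=
              mul_le_mul h8 h7 zero_le_one ((norm_nonneg _).trans h8))
    filter_upwards [h5] with t ht
    by_cases h0 : 0 ≤ t
    · have h9 := ht h0
      have h0' : (φ t : ℂ) ≠ 0 := by exact_mod_cast (one_le_max_zero hφ t).ne'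
      exact (div_left_inj' h0').mp h9
    · have h1 := hu1.2 t (not_le.mp h0)
      rw [h1]
      unfold expPos
      rw [if_neg h0, mul_zero]
  obtain ⟨G, hG, hGh, hGs⟩ := hE h hh hne hsimple hsub
  obtain ⟨Kf, hKf, hKpos, hKneg⟩ := hLine φ hφ G hG
  -- the two analytic functions
  set U1 : Set ℂ := {z : ℂ | 0 < z.im} with hU1
  set U2 : Set ℂ := Metric.ball 0 1 with hU2
  set U3 : Set ℂ := {z : ℂ | z.im < 0} with hU3
  have hopen : IsOpen (U1 ∪ U2 ∪ U3) := by
    refine (IsOpen.union ?_ ?_).union ?_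
    · exact isOpen_lt continuous_const Complex.continuous_im
    · exact Metric.isOpen_ball
    · exact isOpen_lt Complex.continuous_im continuous_const
  have hI2 : (Complex.I / 2) ∈ U2 := by
    rw [hU2, mem_ball_zero_iff, norm_div, Complex.norm_I]
    norm_num
  have hI3 : (-(Complex.I / 2)) ∈ U2 := by
    rw [hU2, mem_ball_zero_iff, norm_neg, norm_div, Complex.norm_I]
    norm_num
  have hconn : IsPreconnected (U1 ∪ U2 ∪ U3) := by
    have c1 : IsPreconnected U1 := (convex_halfSpace_im_gt 0).isPreconnected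
    have c2 : IsPreconnected U2 := (convex_ball _ _).isPreconnected
    have c3 : IsPreconnected U3 := (convex_halfSpace_im_lt 0).isPreconnected
    have c12 : IsPreconnected (U1 ∪ U2) := by
      refine IsPreconnected.union (Complex.I / 2) ?_ hI2 c1 c2
      simp [hU1]
    refine IsPreconnected.union (-(Complex.I / 2)) (Or.inr hI3) ?_ c12 c3
    simp [hU3]
  have hoff : ∀ z ∈ U1 ∪ U2 ∪ U3, ∀ x : ℝ, x ∈ D.K → z ≠ (x : ℂ) := by
    rintro z ((hz | hz) | hz) x hx h
    · rw [hU1, Set.mem_ofPred_eq, h, Complex.ofReal_im] at hz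
      exact lt_irrefl _ hz
    · rw [hU2, mem_ball_zero_iff, h, Complex.norm_real, Real.norm_eq_abs] at hz
      have := hLD.gap x hx
      linarith
    · rw [hU3, Set.mem_ofPred_eq, h, Complex.ofReal_im] at hz
      exact lt_irrefl _ hz
  have hunit : ∀ z ∈ U1 ∪ U2 ∪ U3, IsUnit (J.S.D z) := by
    intro z hz
    apply J.D_unit hL hR hA hD
    intro hz2
    obtain ⟨x, hx2, hx3⟩ := hull_subset_far hLD J hJf z hz2
    exact hoff z hz x hx2 hx3
  have hψ : AnalyticOnNhd ℂ (fun z => κ (J.q z)) (U1 ∪ U2 ∪ U3) := by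
    apply DifferentiableOn.analyticOnNhd _ hopen
    intro z hz
    have h1 := J.q_differentiableAt (hunit z hz)
    exact (κ.differentiableAt.comp z h1).differentiableWithinAt
  have hKan : AnalyticOnNhd ℂ Kf (U1 ∪ U2 ∪ U3) := by
    apply DifferentiableOn.analyticOnNhd _ hopen
    apply hKf.mono
    intro z hz x hx
    have h1 : (x : ℂ) ∈ SpecPos φ h := by
      rw [← hGs]
      exact ⟨x, hx, rfl⟩
    rw [hspec] at h1
    obtain ⟨x', hx2, hx3⟩ := hnear _ hG0ann _ h1
    rw [hx3]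
    exact hoff z hz x' hx2
  have hupper : ∀ z : ℂ, 0 < z.im → κ (J.q z) = Kf z := by
    intro z hz
    rw [J.q_pos hL hR hz, hKpos z hz]
    have h1 : κ (J.qm (ez (-z))) = k (ez (-z)) := rfl
    rw [h1, rep_ez hrep (by simpa using hz)]
    apply setIntegral_congr_ae measurableSet_Ioi
    filter_upwards [hGh] with t ht h0
    rw [ht (le_of_lt h0)]
    congr 2
    ring
  have heq : Set.EqOn (fun z => κ (J.q z)) Kf (U1 ∪ U2 ∪ U3) := by
    apply hψ.eqOn_of_preconnected_of_eventuallyEq hKan hconn (z₀ := Complex.I)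
    · left; left; simp [hU1]
    · have : ∀ᶠ z : ℂ in 𝓝 Complex.I, 0 < z.im :=
        (isOpen_lt continuous_const Complex.continuous_im).mem_nhds (by simp)
      filter_upwards [this] with z hz
      exact hupper z hz
  obtain ⟨hGm, C1, hC1⟩ := hG
  refine ⟨|C1|, fun z hz => ?_⟩
  have e1 : κ (J.q z) = Kf z := heq (Or.inr hz)
  rw [e1, hKneg z hz, norm_neg]
  have habs : |z.im| = -z.im := abs_of_neg hz
  have hzpos : 0 < |z.im| := abs_pos.mpr hz.ne
  -- change of variables
  have e2 : ∫ t in Set.Ioi (0 : ℝ), φ (-t) * Real.exp (-(|z.im| * t)) =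
      ∫ t in Set.Iio (0 : ℝ), φ t * Real.exp (-(|z.im| * |t|)) := by
    have h1 := integral_comp_neg_Ioi (0 : ℝ) (fun t : ℝ => φ t * Real.exp (-(|z.im| * |t|)))
    rw [neg_zero] at h1
    rw [← integral_Iic_eq_integral_Iio, ← h1]
    apply setIntegral_congr_fun measurableSet_Ioi
    intro t ht
    simp only
    rw [abs_neg, show |t| = t from abs_of_pos ht]
  rw [e2, ← integral_const_mul]
  apply norm_integral_le_of_norm_le
  · exact ((Helper15_E.integrable_weight hφ hzpos).const_mul _).integrableOn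
  · filter_upwards [ae_restrict_mem measurableSet_Iio, ae_restrict_of_ae hC1] with t ht0 ht
    rw [norm_mul, norm_cexp_I]
    have h1 : |t| = -t := abs_of_neg ht0
    have h2 : 0 ≤ φ t := zero_le_one.trans (hφ.one_le t)
    have h3 : -(z.im * t) = -(|z.im| * |t|) := by
      rw [habs, h1]
      ring
    rw [h3]
    calc ‖G t‖ * Real.exp (-(|z.im| * |t|)) ≤ (C1 * φ t) * Real.exp (-(|z.im| * |t|)) :=
          mul_le_mul_of_nonneg_right ht (Real.exp_pos _).le
      _ ≤ (|C1| * φ t) * Real.exp (-(|z.im| * |t|)) := by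
          gcongr
          exact le_abs_self C1
      _ = _ := by ring

theorem fbf (hSm : SmfStmt) : FbfStmt := by
  intro φ hφ hQ hNL L hE D F hFgen hFchi κ
  exact functional_boundF hSm hφ hQ hNL hE D F hFchi (gen D.f) (self_mem_gen D.f) hFgen κ

end

end Pool.Agent.WK7
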