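import Pool.Agent.WK7.Stmts
import Pool.Agent.WK6.Main
import Pool.Agent.WK4.Xbd

/-!
# MP_7d2497_an, squad WK7: assembly of Theorem Z
-/

set_option autoImplicit false

namespace Pool.Agent.WK7

open MeasureTheory Filter Topology Complex
open Pool.Agent.H78E Pool.Agent.WK Pool.Agent.WK2
open Pool.Agent.WK3 (QC Lin IsSpec)

noncomputable section

/-- Spectra are closed. -/
theorem spec_closed {φ : ℝ → ℝ} (hφ : IsWeight φ) {K : Set ℝ} (hK : IsSpec φ K) : IsClosed K := by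
  obtain ⟨_, g, hg, _, hgK⟩ := hK
  have h1 := (spc φ hφ g hg).2
  have h2 : K = (fun x : ℝ => (x : ℂ)) ⁻¹' SpecPos φ g := by
    rw [hgK]
    ext x
    constructor
    · intro hx
      exact ⟨x, hx, rfl⟩
    · rintro ⟨y, hy, hyx⟩
      have : y = x := Complex.ofReal_injective hyx
      rwa [← this]
  rw [h2]
  exact h1.preimage Complex.continuous_ofReal

/-- For weights of at least linear growth the spectra are countable. -/
theorem spec_countable {φ : ℝ → ℝ} (hφ : IsWeight φ) (hL : Lin φ) {K : Set ℝ}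
    (hK : IsSpec φ K) : K.Countable := by
  have hSpc : SpcStmt := spc
  have hFac : FacStmt := fac cnv lew
  have hDisc : DiscStmt := disc hSpc hFac
  have hSum : SumStmt := sum
  obtain ⟨_, g, hg, hs, hgK⟩ := hK
  exact (hSum.2.2.1 K (hDisc φ hφ hL g hg hs K hgK)).2

/-- Necessity of the inequality for the countable spectra, every weight. -/
theorem nec_count {φ : ℝ → ℝ} (hφ : IsWeight φ) {L : Set ℝ} (hE : PropertyE φ L) {K : Set ℝ}
    (hKL : K ⊆ L) (hc : K.Countable) (hK : IsSpec φ K) : ∃ C : ℝ, Ineq φ K C := by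
  obtain ⟨hne, g, hg, hs, hgK⟩ := hK
  have hnice : Nice φ K := Pool.Agent.WK3.nsp spc φ hφ g K hg hs hgK hne hc
  exact opn spx van φ hφ K hnice (asur sim van φ hφ K hnice L hKL hE)

/-- Sufficiency, closed subsets countable. -/
theorem suf_count {φ : ℝ → ℝ} (hφ : IsWeight φ) (h : QC φ ∨ Lin φ) {L : Set ℝ}
    (hL : Lin φ ∨ ∀ K ⊆ L, IsClosed K → K.Countable)
    (hI : ∀ K ⊆ L, K.Countable → IsSpec φ K → ∃ C : ℝ, Ineq φ K C) : PropertyE φ L := by
  refine (Pool.Agent.WK3.main3 φ hφ L hL).2 h ?_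
  intro K hKL hK
  refine hI K hKL ?_ hK
  rcases hL with h1 | h1
  · exact spec_countable hφ h1 hK
  · exact h1 K hKL (spec_closed hφ hK)

/-- THEOREM Z. -/
theorem thz (hXfr : XfrStmt) (hSu : Su7Stmt) (φ : ℝ → ℝ) (hφ : IsWeight φ)
    (h : QC φ ∨ Lin φ) (L : Set ℝ) :
    PropertyE φ L ↔
      (Lin φ ∨ (∀ K ⊆ L, IsClosed K → K.Countable) ∨ (Big φ ∧ FarC L)) ∧
      ∀ K ⊆ L, K.Countable → IsSpec φ K → ∃ C : ℝ, Ineq φ K C := by
  constructor
  · intro hE
    refine ⟨?_, fun K hKL hc hK => nec_count hφ hE hKL hc hK⟩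
    by_cases hL : Lin φ
    · exact Or.inl hL
    · have hQ : QC φ := h.resolve_right hL
      by_cases hB : Big φ
      · exact Or.inr (Or.inr ⟨hB, hXfr φ hφ hQ hL L hE⟩)
      · refine Or.inr (Or.inl (Pool.Agent.WK5.x5main φ hφ hQ hL ?_ L hE))
        intro c hc T
        by_contra hcon
        push Not at hcon
        exact hB ⟨c, T, hc, hcon⟩
  · rintro ⟨h1, hI⟩
    rcases h1 with h1 | h1 | ⟨hB, R, hR⟩
    · exact suf_count hφ h (Or.inl h1) hI
    · exact suf_count hφ h (Or.inr h1) hI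
    · by_cases hL : Lin φ
      · exact suf_count hφ h (Or.inl hL) hI
      · have hQ : QC φ := h.resolve_right hL
        refine hSu φ hφ hQ hB L R hR ?_
        refine suf_count hφ h (Or.inr ?_) ?_
        · intro K hK hcl
          exact hR K (fun x hx => (hK hx).1) (fun x hx => (hK hx).2) hcl
        · intro K hK hc hKs
          exact hI K (fun x hx => (hK hx).1) hc hKs

/-- The explicit form for regular weights of large growth. -/
theorem thz_big (hXfr : XfrStmt) (hSu : Su7Stmt) (φ : ℝ → ℝ) (hφ : IsWeight φ)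
    (hQ : QC φ) (hL : ¬ Lin φ) (hB : Big φ) (hR : Reg φ) (L : Set ℝ) :
    PropertyE φ L ↔ FarI φ L ∧ FarC L := by
  constructor
  · intro hE
    exact ⟨necc cl φ hφ hR L hE, hXfr φ hφ hQ hL L hE⟩
  · rintro ⟨⟨R1, C, hI⟩, R2, hR2⟩
    refine hSu φ hφ hQ hB L (max R1 R2) ?_ ?_
    · intro K hK hx hcl
      exact hR2 K hK (fun x h => (le_max_right _ _).trans (hx x h)) hcl
    · refine suf_count hφ (Or.inl hQ) (Or.inr ?_) ?_
      · intro K hK hcl
        exact hR2 K (fun x hx => (hK hx).1) (fun x hx => (le_max_right _ _).trans (hK hx).2) hcl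
      · intro K hK hc hKs
        refine ⟨C, Pool.Agent.WK4.ineq_mono ?_ hI⟩
        intro x hx
        exact ⟨(hK hx).1, (le_max_left _ _).trans (hK hx).2⟩

/-- Weights bounded on the half-line. -/
theorem thz_bdd (hXfr : XfrStmt) (hSu : Su7Stmt) (φ : ℝ → ℝ) (hφ : IsWeight φ)
    (hb : ∃ C : ℝ, ∀ t : ℝ, 0 ≤ t → φ t ≤ C) (L : Set ℝ) :
    PropertyE φ L ↔ (∀ K ⊆ L, IsClosed K → K.Countable) ∨ (Big φ ∧ FarC L) := by
  obtain ⟨C, hC⟩ := hb
  have hC1 : 1 ≤ C := (hφ.one_le 0).trans (hC 0 le_rfl)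
  have hQ : QC φ := by
    refine ⟨C, by linarith, fun s t hs hst => ⟨?_, ?_⟩⟩
    · have h1 := hφ.one_le t
      have h2 := hC s hs.le
      nlinarith
    · have h1 := hφ.one_le s
      have h2 := hC t (hs.le.trans hst)
      have h3 : 0 ≤ φ t := zero_le_one.trans (hφ.one_le t)
      calc s * φ t ≤ t * C := mul_le_mul hst h2 h3 (hs.le.trans hst)
        _ = C * (t * 1) := by ring
        _ ≤ C * (t * φ s) := by
          apply mul_le_mul_of_nonneg_left _ (by linarith)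
          exact mul_le_mul_of_nonneg_left h1 (hs.le.trans hst)
  have hL : ¬ Lin φ := by
    rintro ⟨D, hD⟩
    have h1 := hD (C * |D| + 1) (by positivity)
    have h2 := hC (C * |D| + 1) (by positivity)
    have h3 : D * φ (C * |D| + 1) ≤ |D| * C := by
      calc D * φ (C * |D| + 1) ≤ |D| * φ (C * |D| + 1) := by
            apply mul_le_mul_of_nonneg_right (le_abs_self D)
            exact zero_le_one.trans (hφ.one_le _)
        _ ≤ |D| * C := mul_le_mul_of_nonneg_left h2 (abs_nonneg D)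
    linarith
  rw [thz hXfr hSu φ hφ (Or.inl hQ) L]
  constructor
  · rintro ⟨h1, _⟩
    exact h1.resolve_left hL
  · intro h1
    exact ⟨Or.inr h1, fun K _ _ _ => Pool.Agent.WK4.xbd φ hφ ⟨C, hC⟩ K⟩

/-- Small and large growth exclude each other. -/
theorem not_sml_big {φ : ℝ → ℝ} (hS : Pool.Agent.WK6.Sml φ) (hB : Big φ) : False := by
  obtain ⟨c, T, hc, hT⟩ := hB
  obtain ⟨t, h1, h2⟩ := Pool.Agent.WK6.sml_liminf hS c hc T
  have := hT t h1
  linarith

/-- The explicit criterion, all regular weights. -/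
theorem thz_reg (hXfr : XfrStmt) (hSu : Su7Stmt) (φ : ℝ → ℝ) (hφ : IsWeight φ)
    (h : (QC φ ∧ Pool.Agent.WK6.Sml φ) ∨ (Reg φ ∧ (Lin φ ∨ (QC φ ∧ Big φ)))) (L : Set ℝ) :
    PropertyE φ L ↔ FarI φ L ∧ (Lin φ ∨
      (Pool.Agent.WK6.Sml φ ∧ (∀ K ⊆ L, IsClosed K → K.Countable) ∧
        ∀ p ∈ L, Pool.Agent.WK4.NearI φ L p) ∨ (Big φ ∧ FarC L)) := by
  by_cases hL : Lin φ
  · have h1 : (QC φ ∧ Pool.Agent.WK6.Sml φ) ∨ (Lin φ ∧ Reg φ) := by
      rcases h with h | h
      · exact Or.inl h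
      · exact Or.inr ⟨hL, h.1⟩
    rw [Pool.Agent.WK6.xfp φ hφ h1 L]
    constructor
    · rintro ⟨h2, _⟩
      exact ⟨h2, Or.inl hL⟩
    · rintro ⟨h2, _⟩
      exact ⟨h2, Or.inl hL⟩
  · rcases h with h | ⟨hR, h⟩
    · rw [Pool.Agent.WK6.xfp φ hφ (Or.inl h) L]
      constructor
      · rintro ⟨h2, h3⟩
        obtain ⟨h4, h5⟩ := h3.resolve_left hL
        exact ⟨h2, Or.inr (Or.inl ⟨h.2, h4, h5⟩)⟩
      · rintro ⟨h2, h3⟩
        refine ⟨h2, Or.inr ?_⟩
        rcases h3 with h3 | h3 | h3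
        · exact absurd h3 hL
        · exact h3.2
        · exact (not_sml_big h.2 h3.1).elim
    · obtain ⟨hQ, hB⟩ := h.resolve_left hL
      rw [thz_big hXfr hSu φ hφ hQ hL hB hR L]
      constructor
      · rintro ⟨h2, h3⟩
        exact ⟨h2, Or.inr (Or.inr ⟨hB, h3⟩)⟩
      · rintro ⟨h2, h3⟩
        refine ⟨h2, ?_⟩
        rcases h3 with h3 | h3 | h3
        · exact absurd h3 hL
        · exact (not_sml_big h3.1 hB).elim
        · exact h3.2

end

end Pool.Agent.WK7
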