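import Pool.Agent.WK7.Stmts
import Pool.Agent.Helper15_WK5.LBW
import Pool.Agent.Helper51_E.Harn
import Pool.Agent.Helper78_E.Loc

/-!
# MP_7d2497_an, squad WK7, row LCW: local bound of the resolvent, weighted (helper69; a copy of
`Helper78_E/Loc.lean` of helper78)
-/

set_option autoImplicit false

namespace Pool.Agent.WK7.LCW69

open MeasureTheory Filter Topology Complex
open Pool.Agent.WKS Pool.Agent.WK5 Pool.Agent.WK3
open Pool.Agent.H78E

noncomputable section

theorem lcw0 (hRad : RdwStmt) : LcwStmt := by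
  intro φ hφ hQC l hl x0 hx0 a ha hreal
  obtain ⟨C, hC0, hB⟩ := H15.lbw φ hφ hQC
  have hHarn : HarnStmt := H51.harn
  set J := annW hφ l with hJ
  obtain ⟨f, hf, y0, hy0, hfy⟩ := hRad φ hφ hQC l hl x0 hx0 (a / 9) (by linarith)
  have hfn : 0 < ‖f‖ := by
    by_contra h
    have h0 : ‖f‖ = 0 := le_antisymm (not_lt.mp h) (norm_nonneg _)
    have h1 : f = 0 := norm_eq_zero.mp h0
    rw [h0, h1, map_zero, norm_zero, zero_mul] at hfy
    exact lt_irrefl _ hfy
  refine ⟨y0 / 10, C * (18 / a), by linarith, by positivity, ?_⟩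
  intro z hz hzx
  have habs : |z.im| = -z.im := abs_of_neg hz
  set y : ℝ := |z.im| with hy
  have hypos : 0 < y := abs_pos.mpr hz.ne
  have hyd : y < y0 / 10 := by
    have h1 := Complex.abs_im_le_norm (z - (x0 : ℂ))
    rw [Complex.sub_im, Complex.ofReal_im, sub_zero] at h1
    linarith
  have hxd : |z.re - x0| < y0 / 10 := by
    have h1 := Complex.abs_re_le_norm (z - (x0 : ℂ))
    rw [Complex.sub_re, Complex.ofReal_re] at h1
    linarith
  set c : ℂ := (z.re : ℂ) - Complex.I * (y0 : ℂ) with hc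
  set ρ : ℝ := y0 - y / 2 with hρ
  have hρ0 : 0 < ρ := by
    rw [hρ]
    linarith
  -- the disc is in the lower half-plane
  have hdisc : ∀ u ∈ Metric.closedBall c ρ, u.im ≤ -(y / 2) := by
    intro u hu
    rw [Metric.mem_closedBall, dist_eq_norm] at hu
    have h1 := Complex.abs_im_le_norm (u - c)
    have h2 : (u - c).im = u.im + y0 := by
      rw [hc]
      simp
    rw [h2] at h1
    have h3 := (abs_le.mp (h1.trans hu)).2
    rw [hρ] at h3
    linarith
  have hzc : ‖z - c‖ = y0 - y := by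
    have h1 : z - c = Complex.I * ((y0 - y : ℝ) : ℂ) := by
      apply Complex.ext
      · rw [hc]
        simp
      · rw [hc]
        simp
        linarith
    rw [h1, norm_mul, Complex.norm_I, one_mul, Complex.norm_real, Real.norm_eq_abs, abs_of_pos]
    linarith
  set w : ℂ := (x0 : ℂ) - Complex.I * (y0 : ℂ) with hw
  have hwc : ‖w - c‖ < y0 / 10 := by
    have h1 : w - c = ((x0 - z.re : ℝ) : ℂ) := by
      rw [hw, hc]
      push_cast
      ring
    rw [h1, Complex.norm_real, Real.norm_eq_abs, abs_sub_comm]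
    exact hxd
  -- operator bound by duality
  apply ContinuousLinearMap.opNorm_le_bound _ (by positivity)
  intro q
  apply NormedSpace.norm_le_dual_bound ℂ _ (by positivity)
  intro κ
  set F : ℂ → ℂ := fun u => chiW φ u f / (‖f‖ : ℂ) with hF
  set ψ : ℂ → ℂ := fun u => κ (((J.S hφ).En 1 * Ring.inverse ((J.S hφ).D u)) q) with hψ
  have hunit : ∀ u : ℂ, u.im < 0 → IsUnit ((J.S hφ).D u) := by
    intro u hu
    apply J.D_unit hφ
    intro h
    have := hreal u h
    linarith
  have hFan : AnalyticOnNhd ℂ F (Metric.closedBall c ρ) := by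
    intro u hu
    have h1 : u.im < 0 := by
      have := hdisc u hu
      linarith
    have h2 : DifferentiableOn ℂ F {z : ℂ | z.im < 0} := (chi_differentiableOn (dv φ f)).div_const _
    exact h2.analyticAt ((isOpen_lt Complex.continuous_im continuous_const).mem_nhds h1)
  have hψd : ∀ u : ℂ, u.im < 0 → DifferentiableAt ℂ ψ u := by
    intro u hu
    have h1 : DifferentiableAt ℂ (fun z : ℂ => (J.S hφ).D z) u := by
      unfold GSemi.D
      fun_prop
    obtain ⟨v, hv⟩ := hunit u hu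
    have h2 : DifferentiableAt ℂ (Ring.inverse : (J.Q →L[ℂ] J.Q) → (J.Q →L[ℂ] J.Q))
        ((J.S hφ).D u) := by
      rw [← hv]
      exact differentiableAt_inverse v.isUnit
    have h3 : DifferentiableAt ℂ (fun z : ℂ => Ring.inverse ((J.S hφ).D z)) u :=
      DifferentiableAt.comp u h2 h1
    have h4 : DifferentiableAt ℂ (fun z : ℂ => (J.S hφ).En 1 * Ring.inverse ((J.S hφ).D z)) u :=
      (differentiableAt_const _).mul h3
    have h5 : DifferentiableAt ℂ (fun z : ℂ => ((J.S hφ).En 1 * Ring.inverse ((J.S hφ).D z)) q) u :=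
      h4.clm_apply (differentiableAt_const _)
    exact κ.differentiableAt.comp u h5
  have hψan : AnalyticOnNhd ℂ ψ (Metric.closedBall c ρ) := by
    intro u hu
    have h1 : u.im < 0 := by
      have := hdisc u hu
      linarith
    have h2 : DifferentiableOn ℂ ψ {z : ℂ | z.im < 0} := fun v hv =>
      (hψd v hv).differentiableWithinAt
    exact h2.analyticAt ((isOpen_lt Complex.continuous_im continuous_const).mem_nhds h1)
  have hF1 : ∀ u ∈ Metric.closedBall c ρ, ‖F u‖ ≤ 1 := by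
    intro u hu
    have h1 : u.im < 0 := by
      have := hdisc u hu
      linarith
    rw [hF]
    simp only [norm_div, Complex.norm_real, norm_norm]
    rw [div_le_one hfn]
    rw [chiW_apply]
    calc ‖chi u (dv φ f)‖ ≤ ‖chi u‖ * ‖dv φ f‖ := (chi u).le_opNorm _
      _ ≤ 1 * ‖dv φ f‖ := mul_le_mul_of_nonneg_right (chi_norm h1.le) (norm_nonneg _)
      _ = ‖dv φ f‖ := one_mul _
      _ ≤ ‖f‖ := dv_norm hφ f
  have hψF : ∀ u ∈ Metric.closedBall c ρ, ‖ψ u * F u‖ ≤ ‖κ‖ * ‖q‖ * (C * (2 / y)) := by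
    intro u hu
    have h0 := hdisc u hu
    have h1 : u.im < 0 := by linarith
    have h2 : y / 2 ≤ |u.im| := by
      rw [abs_of_neg h1]
      linarith
    have h3 := hB J f hf u h1 (Ring.inverse ((J.S hφ).D u) q)
    have e3 : (J.S hφ).D u (Ring.inverse ((J.S hφ).D u) q) = q := by
      have h5 := Ring.mul_inverse_cancel _ (hunit u h1)
      have h6 := congrArg (fun A : J.Q →L[ℂ] J.Q => A q) h5
      exact h6
    rw [e3] at h3
    have h4 : ‖ψ u‖ ≤ ‖κ‖ * ‖(J.S hφ).En 1 (Ring.inverse ((J.S hφ).D u) q)‖ := κ.le_opNorm _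
    have h5 : ‖F u‖ = ‖chiW φ u f‖ / ‖f‖ := by
      rw [hF]
      simp only [norm_div, Complex.norm_real, norm_norm]
    rw [norm_mul, h5]
    have hupos : 0 < |u.im| := abs_pos.mpr h1.ne
    calc ‖ψ u‖ * (‖chiW φ u f‖ / ‖f‖)
        ≤ (‖κ‖ * ‖(J.S hφ).En 1 (Ring.inverse ((J.S hφ).D u) q)‖) * (‖chiW φ u f‖ / ‖f‖) := by
          apply mul_le_mul_of_nonneg_right h4
          positivity
      _ = ‖κ‖ * ((‖chiW φ u f‖ * |u.im| * ‖(J.S hφ).En 1 (Ring.inverse ((J.S hφ).D u) q)‖) /
          (‖f‖ * |u.im|)) := by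
          field_simp
      _ ≤ ‖κ‖ * ((C * ‖f‖ * ‖q‖) / (‖f‖ * |u.im|)) := by
          have h6 : 0 < ‖f‖ * |u.im| := mul_pos hfn hupos
          exact mul_le_mul_of_nonneg_left (div_le_div_of_nonneg_right h3 h6.le)
            (norm_nonneg _)
      _ = ‖κ‖ * ‖q‖ * (C * (1 / |u.im|)) := by
          field_simp
      _ ≤ ‖κ‖ * ‖q‖ * (C * (2 / y)) := by
          apply mul_le_mul_of_nonneg_left _ (by positivity)
          apply mul_le_mul_of_nonneg_left _ hC0.le
          rw [div_le_div_iff₀ hupos hypos]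
          linarith
  have hFw : Real.exp (-(a / 9 / y0)) < ‖F w‖ := by
    have h1 : ‖F w‖ = ‖chiW φ w f‖ / ‖f‖ := by
      rw [hF]
      simp only [norm_div, Complex.norm_real, norm_norm]
    rw [h1, lt_div_iff₀ hfn, mul_comm]
    exact hfy
  have hFw0 : F w ≠ 0 := by
    intro h
    rw [h, norm_zero] at hFw
    exact absurd hFw (not_lt.mpr (Real.exp_pos _).le)
  have hres := hHarn c ρ F ψ (‖κ‖ * ‖q‖ * (C * (2 / y))) z w hρ0 hFan hψan hF1 hψF
    (by rw [Metric.mem_ball, dist_eq_norm, hzc, hρ]; linarith)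
    (by rw [Metric.mem_ball, dist_eq_norm, hρ]; linarith) hFw0
  -- the exponent
  have hlog : -Real.log ‖F w‖ ≤ a / 9 / y0 := by
    have h1 : -(a / 9 / y0) ≤ Real.log ‖F w‖ := by
      rw [Real.le_log_iff_exp_le (norm_pos_iff.mpr hFw0)]
      exact hFw.le
    linarith
  have hlog0 : 0 ≤ -Real.log ‖F w‖ := by
    have h1 : ‖F w‖ ≤ 1 := by
      apply hF1
      rw [Metric.mem_closedBall, dist_eq_norm, hρ]
      linarith
    have := Real.log_nonpos (norm_nonneg _) h1
    linarith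
  have hk1 : (ρ + ‖z - c‖) / (ρ - ‖z - c‖) ≤ 4 * y0 / y := by
    rw [hzc, hρ, div_le_div_iff₀ (by linarith) hypos]
    nlinarith
  have hk1' : 0 ≤ (ρ + ‖z - c‖) / (ρ - ‖z - c‖) := by
    rw [hzc, hρ]
    apply div_nonneg <;> linarith
  have hk2 : (ρ + ‖w - c‖) / (ρ - ‖w - c‖) ≤ 2 := by
    rw [div_le_iff₀ (by linarith)]
    linarith
  have hk2' : 0 ≤ (ρ + ‖w - c‖) / (ρ - ‖w - c‖) := by
    apply div_nonneg
    · have := norm_nonneg (w - c)
      linarith
    · linarith
  have hexpo : (ρ + ‖z - c‖) / (ρ - ‖z - c‖) * ((ρ + ‖w - c‖) / (ρ - ‖w - c‖)) *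
      (-Real.log ‖F w‖) ≤ 8 * a / 9 / y := by
    calc (ρ + ‖z - c‖) / (ρ - ‖z - c‖) * ((ρ + ‖w - c‖) / (ρ - ‖w - c‖)) *
        (-Real.log ‖F w‖) ≤ (4 * y0 / y) * 2 * (a / 9 / y0) := by
          apply mul_le_mul _ hlog hlog0 (by positivity)
          exact mul_le_mul hk1 hk2 hk2' (by positivity)
      _ = 8 * a / 9 / y := by
          field_simp
          ring
  have h2y : 2 / y ≤ 18 / a * Real.exp (a / 9 / y) := by
    have h1 := Real.add_one_le_exp (a / 9 / y)
    calc 2 / y = 18 / a * (a / 9 / y) := by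
          field_simp
          ring
      _ ≤ 18 / a * Real.exp (a / 9 / y) := by
          apply mul_le_mul_of_nonneg_left _ (by positivity)
          linarith
  calc ‖κ (((J.S hφ).En 1 * Ring.inverse ((J.S hφ).D z)) q)‖ = ‖ψ z‖ := rfl
    _ ≤ (‖κ‖ * ‖q‖ * (C * (2 / y))) * Real.exp (8 * a / 9 / y) := by
        refine hres.trans ?_
        apply mul_le_mul_of_nonneg_left (Real.exp_le_exp.mpr hexpo) (by positivity)
    _ ≤ (‖κ‖ * ‖q‖ * (C * (18 / a * Real.exp (a / 9 / y)))) * Real.exp (8 * a / 9 / y) := by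
        gcongr
    _ = C * (18 / a) * (Real.exp (a / 9 / y) * Real.exp (8 * a / 9 / y)) * ‖q‖ * ‖κ‖ := by ring
    _ = C * (18 / a) * Real.exp (a / y) * ‖q‖ * ‖κ‖ := by
        rw [← Real.exp_add]
        congr 4
        field_simp
        ring

end

end Pool.Agent.WK7.LCW69

namespace Pool.Agent.WK7

/-- row LCW -/
theorem lcw (hRDW : RdwStmt) : LcwStmt := LCW69.lcw0 hRDW

end Pool.Agent.WK7
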