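import Pool.Agent.WK7.Stmts
import Pool.Agent.Helper92_E.Pos2b
import Pool.Agent.Helper51_E.Riec

/-!
# MP_7d2497_an, squad WK7, row PAW: contour integrals of the resolvent on the weighted quotient
-/

set_option autoImplicit false

namespace Pool.Agent.WK7.H90

open MeasureTheory Filter Topology Complex
open Pool.Agent.H78E (IsWeight X Y rr rr_coe expPos one_add_ne RiecStmt)
open Pool.Agent.WKS Pool.Agent.WK5 Pool.Agent.WK7
open Pool.Agent.H78E.H92 (clm_circle2 circle_entire exp_cont exp_diff two_pi_ne)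

noncomputable section

variable {φ : ℝ → ℝ} (hφ : IsWeight φ) (J : ISub φ)

theorem D_comm_En (z : ℂ) : Commute ((J.S hφ).En 1) ((J.S hφ).D z) := by
  unfold GSemi.D
  exact (Commute.one_right _).sub_right ((Commute.refl _).smul_right _)

theorem inv_comm {B : J.Q →L[ℂ] J.Q} (hB : Commute B ((J.S hφ).En 1)) {z : ℂ}
    (hz : IsUnit ((J.S hφ).D z)) : Commute B (Ring.inverse ((J.S hφ).D z)) := by
  have h1 : Commute B ((J.S hφ).D z) := by
    unfold GSemi.D
    exact (Commute.one_right _).sub_right (hB.smul_right _)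
  obtain ⟨u, hu⟩ := hz
  rw [← hu] at h1 ⊢
  rw [Ring.inverse_unit]
  exact h1.units_inv_right

theorem Rn_comm {B : J.Q →L[ℂ] J.Q} (hB : Commute B ((J.S hφ).En 1)) {z : ℂ}
    (hz : IsUnit ((J.S hφ).D z)) : Commute B (RnW hφ J z) := by
  unfold RnW
  exact (hB.mul_right (inv_comm hφ J hB hz)).smul_right _

theorem Rn_sub {z w : ℂ} (hz : IsUnit ((J.S hφ).D z)) (hw : IsUnit ((J.S hφ).D w)) :
    RnW hφ J z - RnW hφ J w = (w - z) • (RnW hφ J z * RnW hφ J w) := by
  set a := Ring.inverse ((J.S hφ).D z) with ha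
  set b := Ring.inverse ((J.S hφ).D w) with hb
  set R := (J.S hφ).En 1 with hR
  have h1 : (J.S hφ).D w - (J.S hφ).D z = (Complex.I * (z - w)) • R := by
    unfold GSemi.D
    rw [sub_sub_sub_cancel_left, ← sub_smul]
    congr 1
    ring
  have h2 : a - b = (Complex.I * (z - w)) • (a * (R * b)) := by
    have e1 : a * (J.S hφ).D z = 1 := Ring.inverse_mul_cancel _ hz
    have e2 : (J.S hφ).D w * b = 1 := Ring.mul_inverse_cancel _ hw
    calc a - b = a * ((J.S hφ).D w * b) - (a * (J.S hφ).D z) * b := by rw [e1, e2, mul_one, one_mul]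
      _ = a * (((J.S hφ).D w - (J.S hφ).D z) * b) := by rw [sub_mul, mul_sub, mul_assoc]
      _ = _ := by rw [h1, smul_mul_assoc, mul_smul_comm]
  unfold RnW
  rw [← smul_sub, ← mul_sub, h2, smul_mul_smul_comm, mul_smul_comm, smul_smul, smul_smul, mul_assoc]
  congr 1
  have := Complex.I_mul_I
  linear_combination (-(z - w) - (w - z)) * this

theorem inv_differentiableAt {z : ℂ} (hz : IsUnit ((J.S hφ).D z)) :
    DifferentiableAt ℂ (fun z : ℂ => Ring.inverse ((J.S hφ).D z)) z := by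
  have h1 : DifferentiableAt ℂ (fun z : ℂ => (J.S hφ).D z) z := by
    unfold GSemi.D
    fun_prop
  obtain ⟨u, hu⟩ := hz
  have h2 : DifferentiableAt ℂ (Ring.inverse : (J.Q →L[ℂ] J.Q) → (J.Q →L[ℂ] J.Q)) ((J.S hφ).D z) := by
    rw [← hu]
    exact differentiableAt_inverse u.isUnit
  exact DifferentiableAt.comp z h2 h1

theorem Rn_differentiableAt {z : ℂ} (hz : IsUnit ((J.S hφ).D z)) :
    DifferentiableAt ℂ (RnW hφ J) z := by
  have h1 : DifferentiableAt ℂ (fun z : ℂ => (J.S hφ).En 1 * Ring.inverse ((J.S hφ).D z)) z :=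
    (differentiableAt_const _).mul (inv_differentiableAt hφ J hz)
  exact h1.const_smul (-Complex.I)

/-- The resolvent operator is injective. -/
theorem En_inj {x : J.Q} (hx : (J.S hφ).En 1 x = 0) : x = 0 := by
  have h1 : ∀ v : ℝ, 0 < v → (J.S hφ).T v x = 0 := by
    intro v hv
    have h2 := (J.S hφ).hasDerivAt_T_En hφ (a := 1) (by simp) 0 x hv
    rw [hx] at h2
    simp only [map_zero, smul_zero, zero_sub, zero_mul, Complex.exp_zero, one_smul] at h2
    have h3 := h2.unique (hasDerivAt_const v (0 : J.Q))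
    exact neg_eq_zero.mp h3
  have h2 : Tendsto (fun v : ℝ => (J.S hφ).T (max v 0) x) (𝓝[>] 0) (𝓝 ((J.S hφ).T (max 0 0) x)) :=
    ((J.S hφ).cont x).continuousAt.tendsto.mono_left nhdsWithin_le_nhds
  rw [max_self, (J.S hφ).zero] at h2
  refine tendsto_nhds_unique h2 (tendsto_const_nhds.congr' ?_)
  filter_upwards [self_mem_nhdsWithin] with v hv
  have hv' : (0 : ℝ) < v := hv
  rw [max_eq_left hv'.le, h1 v hv']

/-- The translates of a value of the resolvent. -/
theorem T_Rn {z : ℂ} (hz : IsUnit ((J.S hφ).D z)) (x : J.Q) {v : ℝ} (hv : 0 ≤ v) :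
    (J.S hφ).T v (RnW hφ J z x) = Complex.exp (-(Complex.I * (v : ℂ) * z)) • (RnW hφ J z x +
      Complex.I • ∫ u in (0 : ℝ)..v, Complex.exp (Complex.I * z * (u : ℂ)) • (J.S hφ).T (max u 0) x) := by
  set y := Ring.inverse ((J.S hφ).D z) x with hy
  have hDy : (J.S hφ).D z y = x := by
    have h := Ring.mul_inverse_cancel _ hz
    exact congrArg (fun A : J.Q →L[ℂ] J.Q => A x) h
  have hRy : RnW hφ J z x = (-Complex.I) • (J.S hφ).En 1 y := rfl
  set F : ℝ → J.Q := fun v => Complex.exp (Complex.I * z * (v : ℂ)) • (J.S hφ).T (max v 0) ((J.S hφ).En 1 y) with hF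
  have hexp : Continuous fun u : ℝ => Complex.exp (Complex.I * z * (u : ℂ)) := by fun_prop
  have hFc : Continuous F := hexp.smul ((J.S hφ).cont _)
  have hder : ∀ u ∈ Set.Ioo (0 : ℝ) v, HasDerivAt F
      (-(Complex.exp (Complex.I * z * (u : ℂ)) • (J.S hφ).T (max u 0) x)) u := by
    intro u hu
    have h2 := (J.S hφ).hasDerivAt_T_En hφ (a := 1) (by simp) (Complex.I * z) y hu.1
    have h3 : (Complex.exp (Complex.I * z * (u : ℂ)) •
        ((Complex.I * z + 1) • (J.S hφ).T u ((J.S hφ).En 1 y) - (J.S hφ).T u y)) =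
        -(Complex.exp (Complex.I * z * (u : ℂ)) • (J.S hφ).T (max u 0) x) := by
      rw [max_eq_left hu.1.le, ← hDy, GSemi.D_apply, map_sub, map_smul, ← smul_neg, neg_sub,
        add_comm (1 : ℂ)]
    rw [h3] at h2
    refine h2.congr_of_eventuallyEq ?_
    filter_upwards [lt_mem_nhds hu.1] with w hw
    simp only [hF]
    rw [max_eq_left hw.le]
  have hint : IntervalIntegrable (fun u : ℝ =>
      -(Complex.exp (Complex.I * z * (u : ℂ)) • (J.S hφ).T (max u 0) x)) volume 0 v := by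
    apply Continuous.intervalIntegrable
    exact (hexp.smul ((J.S hφ).cont x)).neg
  have h4 := intervalIntegral.integral_eq_sub_of_hasDerivAt_of_le hv hFc.continuousOn hder hint
  rw [intervalIntegral.integral_neg] at h4
  have h5 : F 0 = (J.S hφ).En 1 y := by
    simp only [hF]
    rw [max_self, (J.S hφ).zero]
    simp
  have h6 : F v = Complex.exp (Complex.I * z * (v : ℂ)) • (J.S hφ).T v ((J.S hφ).En 1 y) := by
    simp only [hF]
    rw [max_eq_left hv]
  have h7 : ∫ u in (0 : ℝ)..v, Complex.exp (Complex.I * z * (u : ℂ)) • (J.S hφ).T (max u 0) x =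
      (J.S hφ).En 1 y - Complex.exp (Complex.I * z * (v : ℂ)) • (J.S hφ).T v ((J.S hφ).En 1 y) := by
    rw [h6, h5] at h4
    rw [← neg_sub, ← h4, neg_neg]
  have h8 : Complex.exp (-(Complex.I * (v : ℂ) * z)) * Complex.exp (Complex.I * z * (v : ℂ)) = 1 := by
    rw [← Complex.exp_add]
    have h8 : -(Complex.I * (v : ℂ) * z) + Complex.I * z * (v : ℂ) = 0 := by ring
    rw [h8, Complex.exp_zero]
  have h9 : (-Complex.I) • (J.S hφ).En 1 y + Complex.I • ((J.S hφ).En 1 y -
      Complex.exp (Complex.I * z * (v : ℂ)) • (J.S hφ).T v ((J.S hφ).En 1 y)) =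
      Complex.exp (Complex.I * z * (v : ℂ)) • ((-Complex.I) • (J.S hφ).T v ((J.S hφ).En 1 y)) := by
    module
  rw [h7, hRy, h9, smul_smul, h8, one_smul, map_smul]

variable {hφ J} {ρ1 ρ : ℝ} (hC : CircW hφ J ρ1 ρ)

include hC

theorem rpos : 0 < ρ := hC.pos.trans hC.lt

theorem unit' {z : ℂ} (hz : ‖z‖ = ρ) : IsUnit ((J.S hφ).D z) :=
  hC.unit z (by rw [hz]; exact hC.lt.le) hz.le

theorem Rn_contOn : ContinuousOn (RnW hφ J) (Metric.sphere 0 ρ) := by
  intro z hz
  rw [mem_sphere_zero_iff_norm] at hz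
  exact (Rn_differentiableAt hφ J (unit' hC hz)).continuousAt.continuousWithinAt

theorem q_contOn : ContinuousOn (H65.qW hφ J) (Metric.sphere 0 ρ) := by
  intro z hz
  rw [mem_sphere_zero_iff_norm] at hz
  exact (H65.q_differentiableAt hφ J (unit' hC hz)).continuousAt.continuousWithinAt

theorem int_Ec (s : ℝ) :
    CircleIntegrable (fun z => Complex.exp (-(Complex.I * (s : ℂ) * z)) • RnW hφ J z) 0 ρ :=
  ((exp_cont s).continuousOn.smul (Rn_contOn hC)).circleIntegrable (rpos hC).le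

theorem int_Xi (s : ℝ) :
    CircleIntegrable (fun z => Complex.exp (-(Complex.I * (s : ℂ) * z)) • ((-Complex.I) • H65.qW hφ J z))
      0 ρ :=
  ((exp_cont s).continuousOn.smul (f := fun z : ℂ => Complex.exp (-(Complex.I * (s : ℂ) * z)))
    (g := fun z : ℂ => (-Complex.I) • H65.qW hφ J z)
    ((q_contOn hC).const_smul (-Complex.I))).circleIntegrable (rpos hC).le

theorem Ec_mul (hRiec : RiecStmt) (s t : ℝ) : EcW hφ J ρ s * EcW hφ J ρ t = EcW hφ J ρ (s + t) := by
  have h := hRiec (J.Q →L[ℂ] J.Q) (RnW hφ J) 0 ρ1 ρ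
    (fun z => Complex.exp (-(Complex.I * (s : ℂ) * z)))
    (fun z => Complex.exp (-(Complex.I * (t : ℂ) * z))) hC.pos hC.lt
    (by
      intro z h1 h2
      rw [sub_zero] at h1 h2
      exact Rn_differentiableAt hφ J (hC.unit z h1 h2))
    (by
      intro z w h1 h2 h3 h4
      rw [sub_zero] at h1 h2 h3 h4
      exact Rn_sub hφ J (hC.unit z h1 h2) (hC.unit w h3 h4))
    (exp_diff s) (exp_diff t)
  have h2 : ∀ z : ℂ, Complex.exp (-(Complex.I * (s : ℂ) * z)) *
      Complex.exp (-(Complex.I * (t : ℂ) * z)) =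
      Complex.exp (-(Complex.I * ((s + t : ℝ) : ℂ) * z)) := by
    intro z
    rw [← Complex.exp_add]
    congr 1
    push_cast
    ring
  simp only [h2] at h
  unfold EcW
  rw [smul_mul_smul_comm, h, smul_smul]
  congr 1
  have h3 : (2 * (Real.pi : ℂ) * Complex.I) ≠ 0 := by
    simp [Real.pi_ne_zero, Complex.I_ne_zero]
  field_simp

theorem Ec_comm {B : J.Q →L[ℂ] J.Q} (hB : Commute B ((J.S hφ).En 1)) (s : ℝ) :
    Commute B (EcW hφ J ρ s) := by
  unfold EcW
  apply Commute.smul_right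
  have h1 := clm_circle2 (ContinuousLinearMap.mul ℂ (J.Q →L[ℂ] J.Q) B) (int_Ec hC s)
  have h2 := clm_circle2 ((ContinuousLinearMap.mul ℂ (J.Q →L[ℂ] J.Q)).flip B) (int_Ec hC s)
  simp only [ContinuousLinearMap.mul_apply', ContinuousLinearMap.flip_apply] at h1 h2
  change B * _ = _ * B
  rw [h1, h2]
  apply circleIntegral.integral_congr (rpos hC).le
  intro z hz
  rw [mem_sphere_zero_iff_norm] at hz
  simp only
  rw [mul_smul_comm, smul_mul_assoc, (Rn_comm hφ J hB (unit' hC hz)).eq]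

theorem Ec_apply (s : ℝ) (x : J.Q) : EcW hφ J ρ s x = (2 * (Real.pi : ℂ) * Complex.I)⁻¹ •
    ∮ z in C(0, ρ), Complex.exp (-(Complex.I * (s : ℂ) * z)) • RnW hφ J z x := by
  have h1 := clm_circle2 (ContinuousLinearMap.apply ℂ J.Q x) (int_Ec hC s)
  unfold EcW
  rw [smul_apply]
  congr 1

theorem En_Xi (s : ℝ) : (J.S hφ).En 1 (XiW hφ J ρ s) = EcW hφ J ρ s (J.qm (rw' φ)) := by
  rw [Ec_apply hC]
  unfold XiW
  rw [map_smul, clm_circle2 ((J.S hφ).En 1) (int_Xi hC s)]
  simp only [map_smul]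
  rfl

omit hC in
theorem entire_part (κ : J.Q →L[ℂ] ℂ) (x : J.Q) {v : ℝ} (hv : 0 ≤ v) :
    Differentiable ℂ fun z : ℂ => ∫ u in (0 : ℝ)..v,
      κ ((J.S hφ).T (max u 0) x) * Complex.exp (Complex.I * z * (u : ℂ)) := by
  have hc : Continuous fun u : ℝ => κ ((J.S hφ).T (max u 0) x) := κ.continuous.comp ((J.S hφ).cont x)
  have h1 := Helper15_E.differentiableOn_exp_integral (μ := volume.restrict (Set.Ioc (0 : ℝ) v))
    (w := fun u : ℝ => κ ((J.S hφ).T (max u 0) x)) (τ := fun t : ℝ => t) hc.aestronglyMeasurable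
    measurable_id (U := Set.univ) isOpen_univ (by
      intro z _
      have h2 : Continuous fun u : ℝ => κ ((J.S hφ).T (max u 0) x) * Complex.exp (z * (u : ℂ)) :=
        hc.mul (by fun_prop)
      exact (h2.integrableOn_Icc (a := 0) (b := v)).mono_set Set.Ioc_subset_Icc_self)
  rw [differentiableOn_univ] at h1
  have h2 : Differentiable ℂ fun z : ℂ => Complex.I * z := by fun_prop
  have h3 := h1.comp h2
  have h4 : (fun z : ℂ => ∫ u in (0 : ℝ)..v,
      κ ((J.S hφ).T (max u 0) x) * Complex.exp (Complex.I * z * (u : ℂ))) =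
      ((fun z : ℂ => ∫ u in Set.Ioc (0 : ℝ) v,
      κ ((J.S hφ).T (max u 0) x) * Complex.exp (z * (u : ℂ))) ∘ fun z : ℂ => Complex.I * z) := by
    ext1 z
    simp only [Function.comp]
    rw [intervalIntegral.integral_of_le hv]
  rw [h4]
  exact h3

theorem T_Ec (s : ℝ) (x : J.Q) {v : ℝ} (hv : 0 ≤ v) :
    (J.S hφ).T v (EcW hφ J ρ s x) = EcW hφ J ρ (s + v) x := by
  have hint : ∀ s : ℝ, ∀ x : J.Q, CircleIntegrable
      (fun z => Complex.exp (-(Complex.I * (s : ℂ) * z)) • RnW hφ J z x) 0 ρ := by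
    intro s x
    have h1 : ContinuousOn (fun z => RnW hφ J z x) (Metric.sphere 0 ρ) :=
      (Rn_contOn hC).clm_apply continuousOn_const
    exact ((exp_cont s).continuousOn.smul (f := fun z : ℂ => Complex.exp (-(Complex.I * (s : ℂ) * z)))
      (g := fun z : ℂ => RnW hφ J z x) h1).circleIntegrable (rpos hC).le
  rw [Ec_apply hC, Ec_apply hC, map_smul, clm_circle2 ((J.S hφ).T v) (hint s x)]
  congr 1
  have hint2 : CircleIntegrable (fun z => (J.S hφ).T v (Complex.exp (-(Complex.I * (s : ℂ) * z)) •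
      RnW hφ J z x)) 0 ρ := by
    have h1 : ContinuousOn (fun z => (J.S hφ).T v (Complex.exp (-(Complex.I * (s : ℂ) * z)) •
        RnW hφ J z x)) (Metric.sphere 0 ρ) := by
      apply ((J.S hφ).T v).continuous.comp_continuousOn
      exact (exp_cont s).continuousOn.smul
        (f := fun z : ℂ => Complex.exp (-(Complex.I * (s : ℂ) * z)))
        (g := fun z : ℂ => RnW hφ J z x) ((Rn_contOn hC).clm_apply continuousOn_const)
    exact h1.circleIntegrable (rpos hC).le
  rw [SeparatingDual.eq_iff_forall_dual_eq (R := ℂ)]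
  intro κ
  rw [clm_circle2 κ hint2, clm_circle2 κ (hint (s + v) x)]
  set E : ℂ → ℂ := fun z => ∫ u in (0 : ℝ)..v,
      κ ((J.S hφ).T (max u 0) x) * Complex.exp (Complex.I * z * (u : ℂ)) with hE
  have hEd : Differentiable ℂ E := entire_part κ x hv
  have h1 : ∀ z ∈ Metric.sphere (0 : ℂ) ρ,
      κ ((J.S hφ).T v (Complex.exp (-(Complex.I * (s : ℂ) * z)) • RnW hφ J z x)) =
      κ (Complex.exp (-(Complex.I * ((s + v : ℝ) : ℂ) * z)) • RnW hφ J z x) +
      Complex.exp (-(Complex.I * ((s + v : ℝ) : ℂ) * z)) * (Complex.I * E z) := by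
    intro z hz
    rw [mem_sphere_zero_iff_norm] at hz
    have hcont : Continuous fun u : ℝ =>
        Complex.exp (Complex.I * z * (u : ℂ)) • (J.S hφ).T (max u 0) x := by
      have h3 : Continuous fun u : ℝ => Complex.exp (Complex.I * z * (u : ℂ)) := by fun_prop
      exact h3.smul ((J.S hφ).cont x)
    have h2 : κ (∫ u in (0 : ℝ)..v, Complex.exp (Complex.I * z * (u : ℂ)) • (J.S hφ).T (max u 0) x) =
        E z := by
      rw [← ContinuousLinearMap.intervalIntegral_comp_comm κ (hcont.intervalIntegrable 0 v)]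
      simp only [hE]
      congr 1
      ext1 u
      rw [map_smul, smul_eq_mul, mul_comm]
    have h4 : Complex.exp (-(Complex.I * ((s + v : ℝ) : ℂ) * z)) =
        Complex.exp (-(Complex.I * (s : ℂ) * z)) * Complex.exp (-(Complex.I * (v : ℂ) * z)) := by
      rw [← Complex.exp_add]
      congr 1
      push_cast
      ring
    rw [map_smul, T_Rn hφ J (unit' hC hz) x hv, map_smul, map_smul, map_add, map_smul, h2, h4,
      map_smul]
    simp only [smul_eq_mul]
    ring
  rw [circleIntegral.integral_congr (rpos hC).le h1, circleIntegral.integral_add]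
  · have h5 : ∮ z in C(0, ρ), Complex.exp (-(Complex.I * ((s + v : ℝ) : ℂ) * z)) *
        (Complex.I * E z) = 0 := by
      apply circle_entire _ (rpos hC).le
      exact (exp_diff (s + v)).mul (hEd.const_mul Complex.I)
    rw [h5, add_zero]
  · have h6 : ContinuousOn (fun z => κ (Complex.exp (-(Complex.I * ((s + v : ℝ) : ℂ) * z)) •
        RnW hφ J z x)) (Metric.sphere 0 ρ) := by
      apply κ.continuous.comp_continuousOn
      exact (exp_cont (s + v)).continuousOn.smul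
        (f := fun z : ℂ => Complex.exp (-(Complex.I * ((s + v : ℝ) : ℂ) * z)))
        (g := fun z : ℂ => RnW hφ J z x) ((Rn_contOn hC).clm_apply continuousOn_const)
    exact h6.circleIntegrable (rpos hC).le
  · apply ContinuousOn.circleIntegrable (rpos hC).le
    apply Continuous.continuousOn
    exact ((exp_diff (s + v)).mul (hEd.const_mul Complex.I)).continuous

omit hC in
theorem pi_En (f : ℝ → ℂ) : Commute ((J.S hφ).pi f) ((J.S hφ).En 1) := by
  ext x
  change (J.S hφ).pi f ((J.S hφ).En 1 x) = (J.S hφ).En 1 ((J.S hφ).pi f x)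
  exact ((J.S hφ).pi_commute (J.S hφ) ((J.S hφ).En 1) (fun s hs y => by
    have h := congrArg (fun A : J.Q →L[ℂ] J.Q => A y) (J.T_commute_En hφ hs).eq
    exact h) f x).symm

theorem T_Xi (s : ℝ) {v : ℝ} (hv : 0 ≤ v) : (J.S hφ).T v (XiW hφ J ρ s) = XiW hφ J ρ (s + v) := by
  rw [← sub_eq_zero]
  apply En_inj hφ J
  rw [map_sub, En_Xi hC, ← T_Ec hC s _ hv, ← En_Xi hC]
  have h := congrArg (fun A : J.Q →L[ℂ] J.Q => A (XiW hφ J ρ s)) (J.T_commute_En hφ hv).eq
  have h' : (J.S hφ).En 1 ((J.S hφ).T v (XiW hφ J ρ s)) = (J.S hφ).T v ((J.S hφ).En 1 (XiW hφ J ρ s)) := h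
  rw [h', sub_self]

omit hC in
theorem pi_rr : (J.S hφ).pi ((dv φ (rw' φ) : X) : ℝ → ℂ) = (J.S hφ).En 1 := by
  unfold GSemi.En
  apply (J.S hφ).pi_congr
  rw [dv_rw hφ]
  filter_upwards [rr_coe] with t ht h0
  rw [ht]
  unfold expPos
  rw [if_pos h0.le]
  congr 1
  have := Complex.I_mul_I
  linear_combination (t : ℂ) * this

theorem pi_Xi (f : Y) (s : ℝ) :
    (J.S hφ).pi ((dv φ f : X) : ℝ → ℂ) (XiW hφ J ρ s) = EcW hφ J ρ s (J.qm f) := by
  rw [← sub_eq_zero]
  apply En_inj hφ J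
  have h1 : (J.S hφ).En 1 ((J.S hφ).pi ((dv φ f : X) : ℝ → ℂ) (XiW hφ J ρ s)) =
      (J.S hφ).pi ((dv φ f : X) : ℝ → ℂ) ((J.S hφ).En 1 (XiW hφ J ρ s)) :=
    (congrArg (fun A : J.Q →L[ℂ] J.Q => A (XiW hφ J ρ s)) (pi_En ((dv φ f : X) : ℝ → ℂ)).eq).symm
  have h2 : (J.S hφ).pi ((dv φ f : X) : ℝ → ℂ) (EcW hφ J ρ s (J.qm (rw' φ))) =
      EcW hφ J ρ s ((J.S hφ).pi ((dv φ f : X) : ℝ → ℂ) (J.qm (rw' φ))) :=
    congrArg (fun A : J.Q →L[ℂ] J.Q => A (J.qm (rw' φ))) (Ec_comm hC (pi_En ((dv φ f : X) : ℝ → ℂ)) s).eq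
  have h3 : (J.S hφ).En 1 (EcW hφ J ρ s (J.qm f)) = EcW hφ J ρ s ((J.S hφ).En 1 (J.qm f)) :=
    congrArg (fun A : J.Q →L[ℂ] J.Q => A (J.qm f)) (Ec_comm hC (Commute.refl ((J.S hφ).En 1)) s).eq
  have h4 : (J.S hφ).pi ((dv φ f : X) : ℝ → ℂ) (J.qm (rw' φ)) = (J.S hφ).En 1 (J.qm f) := by
    rw [← pi_rr, ← J.qm_pi hφ, ← J.qm_pi hφ]
    congr 1
    exact convW_comm hφ f (rw' φ)
  rw [map_sub, h1, En_Xi hC, h2, h3, h4, sub_self]


omit hC in
/-- The characters on the resolvent vector. -/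
theorem ch_q {x : ℝ} (hx : (x : ℂ) ∈ J.hull) {z : ℂ} (hz : IsUnit ((J.S hφ).D z)) :
    (z - (x : ℂ)) * J.ch hx (H65.qW hφ J z) = Complex.I := by
  have h1 := H65.D_q hφ J hz
  have h2 := congrArg (J.ch hx) h1
  rw [GSemi.D_apply, map_sub, map_smul, J.ch_En hφ, J.ch_qm, chiW_rw hφ (by simp), smul_eq_mul] at h2
  have h3 := one_add_ne (z := (x : ℂ)) (by simp)
  field_simp at h2
  have := Complex.I_mul_I
  linear_combination (Complex.I) * h2 + (z - x) * J.ch hx (H65.qW hφ J z) * this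

omit hC in
theorem not_unit_of_hull {x : ℝ} (hx : (x : ℂ) ∈ J.hull) : ¬ IsUnit ((J.S hφ).D (x : ℂ)) := by
  intro h
  have h1 := ch_q hx h
  rw [sub_self, zero_mul] at h1
  exact Complex.I_ne_zero h1.symm

omit hC in
theorem ch_pi {x : ℝ} (hx : (x : ℂ) ∈ J.hull) (f : Y) (y : J.Q) :
    J.ch hx ((J.S hφ).pi ((dv φ f : X) : ℝ → ℂ) y) = chiW φ (x : ℂ) f * J.ch hx y := by
  obtain ⟨g, rfl⟩ := J.qm_surj y
  rw [← J.qm_pi hφ, J.ch_qm, J.ch_qm]
  exact chiW_conv hφ (by simp) f g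


theorem ch_Xi {x : ℝ} (hx : (x : ℂ) ∈ J.hull) (s : ℝ) :
    J.ch hx (XiW hφ J ρ s) = if |x| < ρ then Complex.exp (-(Complex.I * (s : ℂ) * (x : ℂ))) else 0 := by
  have hxn : ‖(x : ℂ)‖ = |x| := by rw [Complex.norm_real, Real.norm_eq_abs]
  have hne : ∀ z ∈ Metric.sphere (0 : ℂ) ρ, z - (x : ℂ) ≠ 0 := by
    intro z hz h
    rw [mem_sphere_zero_iff_norm] at hz
    rw [sub_eq_zero] at h
    exact not_unit_of_hull hx (h ▸ unit' hC hz)
  have h1 : J.ch hx (XiW hφ J ρ s) = (2 * (Real.pi : ℂ) * Complex.I)⁻¹ * ∮ z in C(0, ρ),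
      (z - (x : ℂ))⁻¹ • Complex.exp (-(Complex.I * (s : ℂ) * z)) := by
    unfold XiW
    rw [map_smul, clm_circle2 (J.ch hx) (int_Xi hC s), smul_eq_mul]
    congr 1
    apply circleIntegral.integral_congr (rpos hC).le
    intro z hz
    have h2 := hne z hz
    rw [mem_sphere_zero_iff_norm] at hz
    have h3 := ch_q hx (unit' hC hz)
    simp only [map_smul, smul_eq_mul]
    have h4 : -Complex.I * J.ch hx (H65.qW hφ J z) = (z - (x : ℂ))⁻¹ := by
      rw [eq_comm, inv_eq_iff_eq_inv, eq_comm, inv_eq_of_mul_eq_one_left]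
      have := Complex.I_mul_I
      linear_combination (-Complex.I) * h3 - this
    rw [h4]
    ring
  rw [h1]
  split_ifs with h
  · have h2 : (x : ℂ) ∈ Metric.ball (0 : ℂ) ρ := by
      rw [mem_ball_zero_iff, hxn]
      exact h
    have h3 := DifferentiableOn.circleIntegral_sub_inv_smul
      (f := fun z : ℂ => Complex.exp (-(Complex.I * (s : ℂ) * z)))
      (exp_diff s).differentiableOn h2
    rw [h3, smul_eq_mul, ← mul_assoc, inv_mul_cancel₀ two_pi_ne, one_mul]
  · have h2 : ρ < |x| := by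
      rcases lt_or_eq_of_le (not_lt.mp h) with h3 | h3
      · exact h3
      · exfalso
        exact not_unit_of_hull hx (unit' hC (by rw [hxn, h3]))
    have h3 : ∮ z in C(0, ρ), (z - (x : ℂ))⁻¹ • Complex.exp (-(Complex.I * (s : ℂ) * z)) = 0 := by
      have hd : ∀ z ∈ Metric.closedBall (0 : ℂ) ρ, DifferentiableAt ℂ
          (fun z : ℂ => (z - (x : ℂ))⁻¹ • Complex.exp (-(Complex.I * (s : ℂ) * z))) z := by
        intro z hz
        have h4 : z - (x : ℂ) ≠ 0 := by
          intro h5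
          rw [sub_eq_zero] at h5
          rw [mem_closedBall_zero_iff, h5, hxn] at hz
          linarith
        have h5 : DifferentiableAt ℂ (fun z : ℂ => (z - (x : ℂ))⁻¹) z :=
          DifferentiableAt.inv (by fun_prop) h4
        exact h5.smul (exp_diff s z)
      apply Complex.circleIntegral_eq_zero_of_differentiable_on_off_countable (rpos hC).le
        Set.countable_empty
      · intro z hz
        exact (hd z hz).continuousAt.continuousWithinAt
      · intro z hz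
        exact hd z (Metric.ball_subset_closedBall hz.1)
    rw [h3, mul_zero]

theorem ch_Ec {x : ℝ} (hx : (x : ℂ) ∈ J.hull) (s : ℝ) (y : J.Q) :
    J.ch hx (EcW hφ J ρ s y) =
      (if |x| < ρ then Complex.exp (-(Complex.I * (s : ℂ) * (x : ℂ))) else 0) * J.ch hx y := by
  obtain ⟨f, rfl⟩ := J.qm_surj y
  rw [← pi_Xi hC, ch_pi, ch_Xi hC hx, J.ch_qm, mul_comm]

/-- Continuity in the time variable. -/
theorem Xi_cont : Continuous (XiW hφ J ρ) := by
  suffices h0 : Continuous fun s : ℝ => ∮ z in C(0, ρ),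
      Complex.exp (-(Complex.I * (s : ℂ) * z)) • ((-Complex.I) • H65.qW hφ J z) by
    have h1 := h0.const_smul ((2 * (Real.pi : ℂ) * Complex.I)⁻¹)
    exact h1
  simp only [circleIntegral]
  apply intervalIntegral.continuous_parametric_intervalIntegral_of_continuous'
  have h0 : Continuous fun θ : ℝ => H65.qW hφ J (circleMap 0 ρ θ) :=
    (q_contOn hC).comp_continuous (continuous_circleMap 0 ρ)
      (fun θ => circleMap_mem_sphere 0 (rpos hC).le θ)
  have h1 : Continuous fun θ : ℝ => (-Complex.I) • H65.qW hφ J (circleMap 0 ρ θ) := by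
    have h9 := h0.const_smul (-Complex.I)
    exact h9
  have h2 : Continuous fun θ : ℝ => deriv (circleMap 0 ρ) θ := by
    simp only [deriv_circleMap]
    exact (continuous_circleMap 0 ρ).mul continuous_const
  have h3 : Continuous fun p : ℝ × ℝ =>
      Complex.exp (-(Complex.I * (p.1 : ℂ) * circleMap 0 ρ p.2)) := by
    have := continuous_circleMap 0 ρ
    fun_prop
  exact (h2.comp continuous_snd).smul (h3.smul (h1.comp continuous_snd))


end

end Pool.Agent.WK7.H90

namespace Pool.Agent.WK7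

open MeasureTheory Filter Topology Complex
open Pool.Agent.H78E (IsWeight X Y)
open Pool.Agent.WKS Pool.Agent.WK5

/-- Row PAW. -/
theorem paw : PawStmt := by
  intro φ hφ J ρ1 ρ hC
  refine ⟨H90.Xi_cont hC, fun s v hv => H90.T_Xi hC s hv,
    fun s t => H90.Ec_mul hC Pool.Agent.H78E.H51.riec s t,
    fun s v x hv => H90.T_Ec hC s x hv, ?_, fun F s => H90.pi_Xi hC F s, ?_,
    fun x hx s => H90.ch_Xi hC hx s, fun x hx s y => H90.ch_Ec hC hx s y⟩
  · intro s v x hv
    rw [← H90.T_Ec hC s x hv]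
    have hc := H90.Ec_comm hC (B := (J.S hφ).T v) ((J.T_commute_En hφ hv).symm) s
    exact congrArg (fun A : J.Q →L[ℂ] J.Q => A x) hc.eq.symm
  · intro s t
    rw [← sub_eq_zero]
    apply H90.En_inj hφ J
    have h1 := H90.Ec_comm hC (B := (J.S hφ).En 1) (Commute.refl _) s
    have h2 : (J.S hφ).En 1 (EcW hφ J ρ s (XiW hφ J ρ t)) =
        EcW hφ J ρ s ((J.S hφ).En 1 (XiW hφ J ρ t)) :=
      congrArg (fun A : J.Q →L[ℂ] J.Q => A (XiW hφ J ρ t)) h1.eq
    have h3 : EcW hφ J ρ s (EcW hφ J ρ t (J.qm (rw' φ))) = EcW hφ J ρ (s + t) (J.qm (rw' φ)) :=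
      congrArg (fun A : J.Q →L[ℂ] J.Q => A (J.qm (rw' φ)))
        (H90.Ec_mul hC Pool.Agent.H78E.H51.riec s t)
    rw [map_sub, h2, H90.En_Xi hC, H90.En_Xi hC, h3, sub_self]

end Pool.Agent.WK7
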