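import Pool.Agent.WK7.Stmts
import Pool.Agent.Helper51_E.Gro
import Pool.Agent.Helper92_E.Pos2a

/-!
# MP_7d2497_an, squad WK7, row PBW: growth of the vectors `XiW` (helper69; a copy of parts of
`Helper92_E/Pos2b.lean`, `Helper92_E/Pos2.lean` of helper92)
-/

set_option autoImplicit false

namespace Pool.Agent.WK7.PBW69

open MeasureTheory Filter Topology Complex
open Pool.Agent.WKS Pool.Agent.WK5
open Pool.Agent.H78E

noncomputable section

variable {φ : ℝ → ℝ} {hφ : IsWeight φ} {J : ISub φ} {ρ1 ρ : ℝ}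

theorem q_contOn (hC : CircW hφ J ρ1 ρ) : ContinuousOn (H65.qW hφ J) (Metric.sphere 0 ρ) := by
  intro z hz
  rw [mem_sphere_zero_iff_norm] at hz
  exact (H65.q_differentiableAt hφ J
    (hC.unit z (by rw [hz]; exact hC.lt.le) hz.le)).continuousAt.continuousWithinAt

theorem exp_cont (s : ℝ) : Continuous fun z : ℂ => Complex.exp (-(Complex.I * (s : ℂ) * z)) := by
  fun_prop

theorem int_Xi (hC : CircW hφ J ρ1 ρ) (s : ℝ) :
    CircleIntegrable (fun z => Complex.exp (-(Complex.I * (s : ℂ) * z)) •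
      ((-Complex.I) • H65.qW hφ J z)) 0 ρ :=
  ((exp_cont s).continuousOn.smul (f := fun z : ℂ => Complex.exp (-(Complex.I * (s : ℂ) * z)))
    (g := fun z : ℂ => (-Complex.I) • H65.qW hφ J z)
    ((q_contOn hC).const_smul (-Complex.I))).circleIntegrable (hC.pos.trans hC.lt).le

theorem Xi_pos (hC : CircW hφ J ρ1 ρ) (hPAW : PawStmt) {t : ℝ} (ht : 0 ≤ t) :
    ‖XiW hφ J ρ t‖ ≤ φ t * ‖XiW hφ J ρ 0‖ := by
  obtain ⟨-, h, -⟩ := hPAW φ hφ J ρ1 ρ hC
  have h1 := h 0 t ht
  rw [zero_add] at h1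
  rw [← h1]
  exact (J.S hφ).norm_le t ht _

section
variable (hC : CircW hφ J ρ1 ρ)
include hC

theorem Xi_neg (hGro : GroStmt) {a M B t : ℝ} (ha : 0 < a) (ht : 0 < t) (hM0 : 0 ≤ M)
    (hB0 : 0 ≤ B) (hlow : ∀ z : ℂ, z.im < 0 → IsUnit ((J.S hφ).D z))
    (hM : ∀ z : ℂ, ‖z‖ = ρ → ‖H65.qW hφ J z‖ ≤ M)
    (hB : ∀ z : ℂ, ‖z‖ ≤ ρ → z.im < 0 → ‖H65.qW hφ J z‖ ≤ B * Real.exp (a / |z.im|)) :
    ‖XiW hφ J ρ (-t)‖ ≤ ρ * (M + B) * Real.exp (2 * Real.sqrt (a * t)) := by
  have hρ := (hC.pos.trans hC.lt)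
  apply NormedSpace.norm_le_dual_bound ℂ _ (by positivity)
  intro κ
  have h1 := hGro (fun z => κ (H65.qW hφ J z)) 0 ρ (‖κ‖ * M) (‖κ‖ * B) a t hρ ha ht
    (by positivity) (by positivity)
    (by
      intro z hz
      exact κ.differentiableAt.comp z (H65.q_differentiableAt hφ J (hlow z hz)))
    (by
      intro z hz
      rw [Complex.ofReal_zero, sub_zero] at hz
      exact (κ.differentiableAt.comp z (H65.q_differentiableAt hφ J (hC.unit z (by rw [hz]; exact hC.lt.le) hz.le))).continuousAt)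
    (by
      intro z hz
      rw [Complex.ofReal_zero, sub_zero] at hz
      exact (κ.le_opNorm _).trans (mul_le_mul_of_nonneg_left (hM z hz) (norm_nonneg _)))
    (by
      intro z hz hz2
      rw [Complex.ofReal_zero, sub_zero] at hz
      refine (κ.le_opNorm _).trans ?_
      rw [mul_assoc]
      exact mul_le_mul_of_nonneg_left (hB z hz hz2) (norm_nonneg _))
  rw [Complex.ofReal_zero] at h1
  have h2 : κ (XiW hφ J ρ (-t)) = ((2 * (Real.pi : ℂ) * Complex.I)⁻¹ * (-Complex.I)) *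
      ∮ z in C(0, ρ), Complex.exp (Complex.I * z * (t : ℂ)) * κ (H65.qW hφ J z) := by
    unfold XiW
    rw [map_smul, H92.clm_circle2 κ (int_Xi hC (-t)), smul_eq_mul,
      mul_assoc ((2 * (Real.pi : ℂ) * Complex.I)⁻¹) (-Complex.I)]
    congr 1
    rw [← circleIntegral.integral_const_mul]
    apply circleIntegral.integral_congr hρ.le
    intro z _
    simp only [map_smul, smul_eq_mul]
    have h3 : -(Complex.I * ((-t : ℝ) : ℂ) * z) = Complex.I * z * (t : ℂ) := by
      push_cast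
      ring
    rw [h3]
    ring
  have h4 : ‖(2 * (Real.pi : ℂ) * Complex.I)⁻¹ * (-Complex.I)‖ = (2 * Real.pi)⁻¹ := by
    rw [norm_mul, norm_inv, norm_mul, norm_mul, norm_neg, Complex.norm_I, Complex.norm_real,
      Real.norm_eq_abs, abs_of_pos Real.pi_pos, Complex.norm_ofNat]
    ring
  rw [h2, norm_mul, h4]
  have hpi : 0 < Real.pi := Real.pi_pos
  calc (2 * Real.pi)⁻¹ * ‖∮ z in C(0, ρ), Complex.exp (Complex.I * z * (t : ℂ)) * κ (H65.qW hφ J z)‖
      ≤ (2 * Real.pi)⁻¹ * (2 * Real.pi * ρ * (‖κ‖ * M + ‖κ‖ * B) *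
        Real.exp (2 * Real.sqrt (a * t))) := by
        apply mul_le_mul_of_nonneg_left h1
        positivity
    _ = _ := by
        field_simp

end

/-- From local bounds of the resolvent to a bound on the lower half of a disc. -/
theorem q_bound_disc {a : ℝ} (ha : 0 < a)
    (hloc : ∀ x0 : ℝ, (x0 : ℂ) ∈ J.hull → ∃ d B : ℝ, 0 < d ∧ 0 ≤ B ∧ ∀ z : ℂ, z.im < 0 →
      ‖z - (x0 : ℂ)‖ < d → ‖(J.S hφ).En 1 * Ring.inverse ((J.S hφ).D z)‖ ≤ B * Real.exp (a / |z.im|))
    (hunit : ∀ z : ℂ, z ∉ J.hull → IsUnit ((J.S hφ).D z)) (hreal : ∀ z ∈ J.hull, z.im = 0) (ρ : ℝ) :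
    ∃ B : ℝ, 0 ≤ B ∧ ∀ z : ℂ, ‖z‖ ≤ ρ → z.im < 0 → ‖H65.qW hφ J z‖ ≤ B * Real.exp (a / |z.im|) := by
  have hK : IsCompact (Metric.closedBall (0 : ℂ) ρ) := isCompact_closedBall _ _
  have hexp : ∀ z : ℂ, 1 ≤ Real.exp (a / |z.im|) := by
    intro z
    apply Real.one_le_exp
    positivity
  have h := hK.induction_on (p := fun S => ∃ B : ℝ, 0 ≤ B ∧ ∀ z ∈ S, z.im < 0 →
      ‖H65.qW hφ J z‖ ≤ B * Real.exp (a / |z.im|)) ⟨0, le_rfl, fun z hz => absurd hz (Set.notMem_empty z)⟩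
    (by
      rintro S T hST ⟨B, hB, h⟩
      exact ⟨B, hB, fun z hz => h z (hST hz)⟩)
    (by
      rintro S T ⟨B1, hB1, h1⟩ ⟨B2, hB2, h2⟩
      refine ⟨B1 + B2, by positivity, ?_⟩
      rintro z (hz | hz) him
      · refine (h1 z hz him).trans ?_
        have := hexp z
        nlinarith
      · refine (h2 z hz him).trans ?_
        have := hexp z
        nlinarith)
    (by
      intro x _
      by_cases hx : x ∈ J.hull
      · have hxr : x = ((x.re : ℝ) : ℂ) := by
          apply Complex.ext <;> simp [hreal x hx]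
        obtain ⟨d, B, hd, hB, hloc'⟩ := hloc x.re (by rw [← hxr]; exact hx)
        refine ⟨Metric.ball x d, mem_nhdsWithin_of_mem_nhds (Metric.ball_mem_nhds _ hd),
          ‖rw' φ‖ * (1 + (1 + (‖x‖ + d)) * B), by positivity, ?_⟩
        intro z hz him
        rw [Metric.mem_ball, dist_eq_norm] at hz
        have h1 := hloc' z him (by rw [← hxr]; exact hz)
        have hz' : ‖z‖ ≤ ‖x‖ + d := by
          have h2 : z = x + (z - x) := by ring
          rw [h2]
          exact (norm_add_le _ _).trans (by linarith)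
        have hu : IsUnit ((J.S hφ).D z) := by
          apply hunit
          intro h
          have := hreal z h
          linarith
        have h2 : H65.qW hφ J z = J.qm (rw' φ) + (1 + Complex.I * z) • (J.S hφ).En 1 (H65.qW hφ J z) := by
          rw [← H65.D_q hφ J hu, GSemi.D_apply]
          abel
        have h3 : (J.S hφ).En 1 (H65.qW hφ J z) = ((J.S hφ).En 1 * Ring.inverse ((J.S hφ).D z)) (J.qm (rw' φ)) := rfl
        have h4 : ‖(J.S hφ).En 1 (H65.qW hφ J z)‖ ≤ B * Real.exp (a / |z.im|) * ‖rw' φ‖ := by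
          rw [h3]
          refine (ContinuousLinearMap.le_opNorm _ _).trans ?_
          exact mul_le_mul h1 (J.qm_norm_le (rw' φ)) (norm_nonneg _) (by positivity)
        have h5 := norm_one_add_le z
        have h6 := hexp z
        calc ‖H65.qW hφ J z‖ = ‖J.qm (rw' φ) + (1 + Complex.I * z) • (J.S hφ).En 1 (H65.qW hφ J z)‖ := by rw [← h2]
          _ ≤ ‖J.qm (rw' φ)‖ + ‖1 + Complex.I * z‖ * ‖(J.S hφ).En 1 (H65.qW hφ J z)‖ := by
              refine (norm_add_le _ _).trans ?_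
              rw [norm_smul]
          _ ≤ ‖rw' φ‖ + (1 + (‖x‖ + d)) * (B * Real.exp (a / |z.im|) * ‖rw' φ‖) := by
              apply add_le_add (J.qm_norm_le (rw' φ))
              exact mul_le_mul (h5.trans (by linarith)) h4 (norm_nonneg _) (by positivity)
          _ ≤ ‖rw' φ‖ * Real.exp (a / |z.im|) +
              (1 + (‖x‖ + d)) * (B * Real.exp (a / |z.im|) * ‖rw' φ‖) := by
              apply add_le_add_left
              exact le_mul_of_one_le_right (norm_nonneg _) h6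
          _ = _ := by ring
      · have hc : ContinuousAt (fun z => ‖H65.qW hφ J z‖) x :=
          (H65.q_differentiableAt hφ J (hunit x hx)).continuousAt.norm
        have h1 : ∀ᶠ z in 𝓝 x, ‖H65.qW hφ J z‖ < ‖H65.qW hφ J x‖ + 1 := hc.eventually_lt_const (by linarith)
        refine ⟨{z | ‖H65.qW hφ J z‖ < ‖H65.qW hφ J x‖ + 1}, mem_nhdsWithin_of_mem_nhds h1,
          ‖H65.qW hφ J x‖ + 1, by positivity, ?_⟩
        intro z hz _
        have hz' : ‖H65.qW hφ J z‖ < ‖H65.qW hφ J x‖ + 1 := hz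
        refine hz'.le.trans ?_
        exact le_mul_of_one_le_right (by positivity) (hexp z))
  obtain ⟨B, hB, h⟩ := h
  exact ⟨B, hB, fun z hz him => h z (by rw [mem_closedBall_zero_iff]; exact hz) him⟩

/-- Growth of the contour integrals against the weight. -/
theorem Xi_weight (hC : CircW hφ J ρ1 ρ) (hGro : GroStmt) (hPAW : PawStmt)
    {c T : ℝ} (hc : 0 < c)
    (hT : ∀ t : ℝ, T ≤ t → c * Real.sqrt t ≤ Real.log (φ (-t)))
    (hunit : ∀ z : ℂ, z ∉ J.hull → IsUnit ((J.S hφ).D z)) (hreal : ∀ z ∈ J.hull, z.im = 0)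
    (hloc : ∀ x0 : ℝ, (x0 : ℂ) ∈ J.hull → ∃ d B : ℝ, 0 < d ∧ 0 ≤ B ∧ ∀ z : ℂ, z.im < 0 →
      ‖z - (x0 : ℂ)‖ < d → ‖(J.S hφ).En 1 * Ring.inverse ((J.S hφ).D z)‖ ≤
        B * Real.exp (c ^ 2 / 4 / |z.im|)) :
    ∃ C : ℝ, 0 ≤ C ∧ ∀ t : ℝ, ‖XiW hφ J ρ t‖ ≤ C * φ t := by
  have ha : 0 < c ^ 2 / 4 := by positivity
  obtain ⟨B, hB0, hB⟩ := q_bound_disc ha hloc hunit hreal ρ
  obtain ⟨M, hM⟩ := (isCompact_sphere (0 : ℂ) ρ).exists_bound_of_continuousOn (q_contOn hC)
  have hM' : ∀ z : ℂ, ‖z‖ = ρ → ‖H65.qW hφ J z‖ ≤ max M 0 := fun z hz =>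
    (hM z (by rw [mem_sphere_zero_iff_norm]; exact hz)).trans (le_max_left _ _)
  have hlow : ∀ z : ℂ, z.im < 0 → IsUnit ((J.S hφ).D z) := by
    intro z hz
    apply hunit
    intro h
    have := hreal z h
    linarith
  have hρ := (hC.pos.trans hC.lt)
  set A : ℝ := ρ * (max M 0 + B) with hA
  have hA0 : 0 ≤ A := by
    have := le_max_right M 0
    positivity
  set T' : ℝ := max T 0 with hT'
  have hT'0 : 0 ≤ T' := le_max_right _ _
  refine ⟨‖XiW hφ J ρ 0‖ + A * Real.exp (c * Real.sqrt T'), by positivity, ?_⟩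
  intro t
  have hφ1 := hφ.one_le t
  rcases le_or_gt 0 t with h | h
  · have h9 : ‖XiW hφ J ρ 0‖ ≤ ‖XiW hφ J ρ 0‖ + A * Real.exp (c * Real.sqrt T') := by
      have : 0 ≤ A * Real.exp (c * Real.sqrt T') := by positivity
      linarith
    calc ‖XiW hφ J ρ t‖ ≤ φ t * ‖XiW hφ J ρ 0‖ := Xi_pos hC hPAW h
      _ = ‖XiW hφ J ρ 0‖ * φ t := mul_comm _ _
      _ ≤ _ := mul_le_mul_of_nonneg_right h9 (zero_le_one.trans hφ1)
  · obtain ⟨u, hu⟩ : ∃ u, u = -t := ⟨_, rfl⟩
    have hu0 : 0 < u := by rw [hu]; linarith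
    have htu : t = -u := by rw [hu]; ring
    have h1 := Xi_neg hC hGro ha hu0 (le_max_right M 0) hB0 hlow hM' hB
    have h2 : 2 * Real.sqrt (c ^ 2 / 4 * u) = c * Real.sqrt u := by
      rw [Real.sqrt_mul (by positivity)]
      have h3 : c ^ 2 / 4 = (c / 2) ^ 2 := by ring
      rw [h3, Real.sqrt_sq (by positivity)]
      ring
    rw [h2] at h1
    have h4 : Real.exp (c * Real.sqrt u) ≤ Real.exp (c * Real.sqrt T') * φ (-u) := by
      have hp : 0 < φ (-u) := lt_of_lt_of_le one_pos (hφ.one_le _)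
      rcases le_total T' u with h5 | h5
      · have h6 := hT u ((le_max_left _ _).trans h5)
        have h7 : Real.exp (c * Real.sqrt u) ≤ φ (-u) := by
          rw [← Real.exp_log hp]
          exact Real.exp_le_exp.mpr h6
        have h8 : 1 ≤ Real.exp (c * Real.sqrt T') := Real.one_le_exp (by positivity)
        calc Real.exp (c * Real.sqrt u) ≤ 1 * φ (-u) := by rw [one_mul]; exact h7
          _ ≤ _ := mul_le_mul_of_nonneg_right h8 hp.le
      · have h6 : Real.exp (c * Real.sqrt u) ≤ Real.exp (c * Real.sqrt T') := by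
          apply Real.exp_le_exp.mpr
          apply mul_le_mul_of_nonneg_left _ hc.le
          exact Real.sqrt_le_sqrt h5
        calc Real.exp (c * Real.sqrt u) ≤ Real.exp (c * Real.sqrt T') * 1 := by
              rw [mul_one]; exact h6
          _ ≤ _ := mul_le_mul_of_nonneg_left (hφ.one_le _) (Real.exp_pos _).le
    rw [htu]
    have hp : 0 ≤ φ (-u) := zero_le_one.trans (hφ.one_le _)
    calc ‖XiW hφ J ρ (-u)‖ ≤ A * Real.exp (c * Real.sqrt u) := h1
      _ ≤ A * (Real.exp (c * Real.sqrt T') * φ (-u)) := mul_le_mul_of_nonneg_left h4 hA0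
      _ = (A * Real.exp (c * Real.sqrt T')) * φ (-u) := by ring
      _ ≤ _ := by
          apply mul_le_mul_of_nonneg_right _ hp
          have := norm_nonneg (XiW hφ J ρ 0)
          linarith


theorem pbw0 (hPAW : PawStmt) : PbwStmt := by
  intro φ hφ J ρ1 ρ c T hC hc hT hreal hloc
  exact Xi_weight hC H51.gro hPAW hc hT (fun z hz => J.D_unit hφ hz) hreal hloc

end

end Pool.Agent.WK7.PBW69

namespace Pool.Agent.WK7

/-- row PBW -/
theorem pbw (hPAW : PawStmt) : PbwStmt := PBW69.pbw0 hPAW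

end Pool.Agent.WK7
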