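import Pool.Agent.WK7.Stmts
import Pool.Agent.Helper15_WK5.LBW

/-!
# MP_7d2497_an, squad WK7, row SMF: functionals with one-point spectrum
-/

set_option autoImplicit false

namespace Pool.Agent.WK7

open MeasureTheory Filter Topology Complex
open Pool.Agent.H78E Pool.Agent.WKS Pool.Agent.WK5
open Pool.Agent.WK3 (QC Lin)

noncomputable section

/-- Row SMF. -/
theorem smf (hCA : CA4Stmt) : SmfStmt := by
  intro φ hφ hQ hLin K f0 D Fφ hF k hk x0 hh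
  obtain ⟨C, hC, hCb⟩ := (Pool.Agent.WK5.H15.lbw : LbwStmt) φ hφ hQ
  have hunit : ∀ z : ℂ, z ≠ (x0 : ℂ) → IsUnit (((annW hφ k).S hφ).D z) := by
    intro z hz
    apply (annW hφ k).D_unit hφ
    intro hz2
    exact hz (hh hz2)
  have hne : ∀ z : ℂ, z.im ≠ 0 → z ≠ (x0 : ℂ) := by
    intro z hz h
    rw [h] at hz
    simp at hz
  obtain ⟨ψ, hψ⟩ : ∃ ψ : ℂ → ℂ, ψ = fun z => kqW hφ k (H65.qW hφ (annW hφ k) z) := ⟨_, rfl⟩
  have hψz : ∀ z, ψ z = kqW hφ k (H65.qW hφ (annW hφ k) z) := fun z => by rw [hψ]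
  have hdiff : DifferentiableOn ℂ ψ {z : ℂ | z ≠ (x0 : ℂ)} := by
    intro z hz
    have h1 := H65.q_differentiableAt hφ (annW hφ k) (hunit z hz)
    rw [hψ]
    exact ((kqW hφ k).differentiableAt.comp z h1).differentiableWithinAt
  have hpos : ∀ z : ℂ, 0 < z.im → ∀ r : Y, (∀ᵐ t : ℝ, 0 < t →
      ((dv φ r : X) : ℝ → ℂ) t = Complex.exp (-(-Complex.I * z * (t : ℂ)))) → ψ z = k r := by
    intro z hz r hr
    rw [hψz, H65.q_pos hφ (annW hφ k) hz hr, kqW_qm]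
  have hkn : 0 ≤ ‖k‖ := ContinuousLinearMap.opNorm_nonneg k
  have hupper : ∀ A B : ℝ, 0 ≤ A → 0 ≤ B → (∀ t : ℝ, 0 < t → φ t ≤ A + B * t) →
      ∀ z : ℂ, 0 < z.im → ‖ψ z‖ ≤ ‖k‖ * (A / z.im + 4 * B / z.im ^ 2) := by
    intro A B hA hB hb z hz
    have hre : 0 < (-Complex.I * z).re := by simpa using hz
    have hre' : (-Complex.I * z).re = z.im := by simp
    obtain ⟨r, hr⟩ := H65.exists_exp hφ hre
    rw [hpos z hz r hr]
    have h1 := H65.norm_exp_le hφ hre hr hA hB hb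
    rw [hre'] at h1
    exact (k.le_opNorm _).trans (mul_le_mul_of_nonneg_left h1 hkn)
  have hi : ∃ M : ℝ, ∀ z : ℂ, 0 < z.im → ‖ψ z‖ ≤ M / z.im + M / z.im ^ 2 := by
    obtain ⟨A, hA, hb⟩ := H65.lin_bound hφ hQ
    refine ⟨‖k‖ * (4 * A), fun z hz => (hupper A A hA hA hb z hz).trans ?_⟩
    have h1 : A / z.im ≤ 4 * A / z.im := by
      gcongr
      linarith
    calc ‖k‖ * (A / z.im + 4 * A / z.im ^ 2) ≤ ‖k‖ * (4 * A / z.im + 4 * A / z.im ^ 2) := by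
          gcongr
      _ = _ := by ring
  obtain ⟨M, hM⟩ := hi
  have hi2 : ∀ ε : ℝ, 0 < ε → ∃ δ : ℝ, 0 < δ ∧ ∀ y : ℝ, 0 < y → y < δ →
      ‖ψ ((x0 : ℂ) + Complex.I * (y : ℂ))‖ ≤ ε / y ^ 2 := by
    intro ε hε
    obtain ⟨A, hA, hb⟩ := H65.small_bound hφ hQ hLin
      (show 0 < ε / (8 * (‖k‖ + 1)) by positivity)
    refine ⟨ε / (2 * (‖k‖ * A + 1)), by positivity, fun y hy hyδ => ?_⟩
    have him : ((x0 : ℂ) + Complex.I * (y : ℂ)).im = y := by simp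
    have h1 := hupper A (ε / (8 * (‖k‖ + 1))) hA (by positivity) hb
      ((x0 : ℂ) + Complex.I * (y : ℂ)) (by rw [him]; exact hy)
    rw [him] at h1
    refine h1.trans ?_
    rw [le_div_iff₀ (by positivity)]
    have h2 : ‖k‖ * (A / y + 4 * (ε / (8 * (‖k‖ + 1))) / y ^ 2) * y ^ 2 =
        ‖k‖ * A * y + ‖k‖ / (‖k‖ + 1) * (ε / 2) := by
      field_simp
      ring
    rw [h2]
    have h3 : ‖k‖ / (‖k‖ + 1) ≤ 1 := by
      rw [div_le_one (by positivity)]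
      linarith
    have h4 : ‖k‖ / (‖k‖ + 1) * (ε / 2) ≤ 1 * (ε / 2) := by gcongr
    have h5 : ‖k‖ * A * y ≤ (‖k‖ * A + 1) * y := by nlinarith
    have h6 : (‖k‖ * A + 1) * y < (‖k‖ * A + 1) * (ε / (2 * (‖k‖ * A + 1))) :=
      mul_lt_mul_of_pos_left hyδ (by positivity)
    have h7 : (‖k‖ * A + 1) * (ε / (2 * (‖k‖ * A + 1))) = ε / 2 := by field_simp
    linarith
  have hcube : ∀ z : ℂ, z.im < 0 →
      ‖chiW φ z Fφ‖ * ‖1 + Complex.I * z‖ = (‖chi z f0‖ * ‖1 + Complex.I * z‖) ^ 3 := by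
    intro z hz
    rw [hF z hz, norm_mul, norm_pow, norm_pow]
    ring
  have hkq : 0 ≤ ‖kqW hφ k‖ := norm_nonneg _
  have hrn : 0 ≤ ‖rw' φ‖ := norm_nonneg _
  have hfn : 0 ≤ ‖Fφ‖ := norm_nonneg _
  have hii : ∀ η r : ℝ, 0 < η → ∃ C : ℝ, ∀ z : ℂ, z.im < 0 → ‖z‖ ≤ r →
      ‖ψ z‖ ≤ C * Real.exp (η / |z.im|) := by
    intro η r hη
    obtain ⟨c, hc, hc2⟩ := D.loc (η / 4) r (by linarith)
    refine ⟨‖kqW hφ k‖ * (‖rw' φ‖ * (1 + (1 + r) ^ 2 * (C * ‖Fφ‖ * (4 / η) / c ^ 3))), ?_⟩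
    intro z hz hzr
    have him : 0 < |z.im| := abs_pos.mpr hz.ne
    obtain ⟨u, hu⟩ : ∃ u : ℝ, u = Real.exp (η / 4 / |z.im|) := ⟨_, rfl⟩
    have hu0 : 0 < u := by rw [hu]; exact Real.exp_pos _
    have huinv : Real.exp (-(η / 4 / |z.im|)) = u⁻¹ := by rw [Real.exp_neg, hu]
    have hb : 0 < (c * u⁻¹) ^ 3 := by positivity
    have hlow : (c * u⁻¹) ^ 3 ≤ ‖chiW φ z Fφ‖ * ‖1 + Complex.I * z‖ := by
      rw [hcube z hz]
      have := hc2 z hz hzr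
      rw [huinv] at this
      exact pow_le_pow_left₀ (by positivity) this 3
    have h1 := H65.q_bound hφ (annW hφ k) hC hk (fun z hz x => hCb (annW hφ k) Fφ hk z hz x) hz
      (hunit z (hne z hz.ne)) hb hlow
    have h2 : ‖ψ z‖ ≤ ‖kqW hφ k‖ * ‖H65.qW hφ (annW hφ k) z‖ := by
      rw [hψz]
      exact (kqW hφ k).le_opNorm _
    have e1 : Real.exp (η / |z.im|) = u ^ 4 := by
      rw [hu, ← Real.exp_nat_mul]
      congr 1
      push_cast
      ring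
    have e2 : (1 : ℝ) / |z.im| ≤ (4 / η) * u := by
      have := Real.add_one_le_exp (η / 4 / |z.im|)
      rw [← hu] at this
      have h5 : η / 4 / |z.im| ≤ u := by linarith
      calc (1 : ℝ) / |z.im| = (4 / η) * (η / 4 / |z.im|) := by field_simp
        _ ≤ _ := mul_le_mul_of_nonneg_left h5 (by positivity)
    have h3 : C * ‖Fφ‖ / ((c * u⁻¹) ^ 3 * |z.im|) ≤
        C * ‖Fφ‖ * (4 / η) / c ^ 3 * u ^ 4 := by
      calc C * ‖Fφ‖ / ((c * u⁻¹) ^ 3 * |z.im|)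
          = C * ‖Fφ‖ / c ^ 3 * u ^ 3 * (1 / |z.im|) := by
            field_simp
        _ ≤ C * ‖Fφ‖ / c ^ 3 * u ^ 3 * ((4 / η) * u) := by
            gcongr
        _ = _ := by ring
    have hE : 1 ≤ u ^ 4 := by
      have : 1 ≤ u := by
        rw [hu]
        exact Real.one_le_exp (by positivity)
      exact one_le_pow₀ this
    have hZ : (1 + ‖z‖) ^ 2 ≤ (1 + r) ^ 2 := by
      have := norm_nonneg z
      gcongr
    have hd0 : 0 ≤ C * ‖Fφ‖ * (4 / η) / c ^ 3 * u ^ 4 := by positivity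
    rw [e1]
    calc ‖ψ z‖ ≤ ‖kqW hφ k‖ * ‖H65.qW hφ (annW hφ k) z‖ := h2
      _ ≤ ‖kqW hφ k‖ * (‖rw' φ‖ * (1 + (1 + ‖z‖) ^ 2 * (C * ‖Fφ‖) /
          ((c * u⁻¹) ^ 3 * |z.im|))) := mul_le_mul_of_nonneg_left h1 hkq
      _ = ‖kqW hφ k‖ * (‖rw' φ‖ * (1 + (1 + ‖z‖) ^ 2 * (C * ‖Fφ‖ /
          ((c * u⁻¹) ^ 3 * |z.im|)))) := by rw [mul_div_assoc]
      _ ≤ ‖kqW hφ k‖ * (‖rw' φ‖ * (u ^ 4 + (1 + r) ^ 2 *
          (C * ‖Fφ‖ * (4 / η) / c ^ 3 * u ^ 4))) := by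
          apply mul_le_mul_of_nonneg_left _ hkq
          apply mul_le_mul_of_nonneg_left _ hrn
          apply add_le_add hE
          exact mul_le_mul hZ h3 (by positivity) (by positivity)
      _ = _ := by ring
  have hiii : ∃ C : ℝ, ∀ z : ℂ, z.im < 0 →
      ‖ψ z‖ ≤ Real.exp (C * Real.sqrt (1 + ‖z‖) * (1 + 1 / |z.im|)) := by
    obtain ⟨C0, hC0, hCg⟩ := D.glob
    obtain ⟨K0, hK0⟩ : ∃ K0 : ℝ, K0 = ‖kqW hφ k‖ * ‖rw' φ‖ * (1 + C * ‖Fφ‖) := ⟨_, rfl⟩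
    have hK00 : 0 ≤ K0 := by rw [hK0]; positivity
    refine ⟨K0 + (3 * C0 + 5), ?_⟩
    intro z hz
    have him : 0 < |z.im| := abs_pos.mpr hz.ne
    obtain ⟨s, hs⟩ : ∃ s : ℝ, s = Real.sqrt (1 + ‖z‖) := ⟨_, rfl⟩
    have hzn := norm_nonneg z
    have hs1 : 1 ≤ s := by
      rw [hs]
      apply Real.one_le_sqrt.mpr
      linarith
    have hs2 : s ^ 2 = 1 + ‖z‖ := by
      rw [hs]
      exact Real.sq_sqrt (by linarith)
    obtain ⟨u, hu⟩ : ∃ u : ℝ, u = s * (1 + 1 / |z.im|) := ⟨_, rfl⟩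
    have hy0 : 0 < 1 / |z.im| := by positivity
    have hsu : s ≤ u := by
      rw [hu]
      nlinarith
    have hyu : 1 / |z.im| ≤ u := by
      rw [hu]
      nlinarith
    have hu1 : 1 ≤ u := hs1.trans hsu
    have e0 : C0 * Real.sqrt (1 + ‖z‖) * (1 + 1 / |z.im|) = C0 * u := by
      rw [hu, ← hs]
      ring
    have hlow : Real.exp (-(3 * C0 * u)) ≤ ‖chiW φ z Fφ‖ * ‖1 + Complex.I * z‖ := by
      rw [hcube z hz]
      have h := hCg z hz
      rw [e0] at h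
      have h' := pow_le_pow_left₀ (Real.exp_pos _).le h 3
      refine le_trans (le_of_eq ?_) h'
      rw [← Real.exp_nat_mul]
      congr 1
      push_cast
      ring
    have h1 := H65.q_bound hφ (annW hφ k) hC hk (fun z hz x => hCb (annW hφ k) Fφ hk z hz x) hz
      (hunit z (hne z hz.ne)) (Real.exp_pos _) hlow
    have h2 : ‖ψ z‖ ≤ ‖kqW hφ k‖ * ‖H65.qW hφ (annW hφ k) z‖ := by
      rw [hψz]
      exact (kqW hφ k).le_opNorm _
    have e2 : (K0 + (3 * C0 + 5)) * Real.sqrt (1 + ‖z‖) * (1 + 1 / |z.im|) =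
        (K0 + (3 * C0 + 5)) * u := by
      rw [hu, ← hs]
      ring
    rw [e2]
    have h3 : (1 + ‖z‖) ^ 2 ≤ Real.exp (4 * u) := by
      have h4 : s ≤ Real.exp u := by
        have := Real.add_one_le_exp u
        linarith
      have hs0 : 0 ≤ s := by linarith
      calc (1 + ‖z‖) ^ 2 = s ^ 4 := by rw [← hs2]; ring
        _ ≤ (Real.exp u) ^ 4 := by gcongr
        _ = Real.exp (4 * u) := by
            rw [← Real.exp_nat_mul]
            norm_num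
    have h5 : 1 / |z.im| ≤ Real.exp u := by
      have := Real.add_one_le_exp u
      linarith
    have hCF : 0 ≤ C * ‖Fφ‖ := by positivity
    have h6 : (1 + ‖z‖) ^ 2 * (C * ‖Fφ‖) / (Real.exp (-(3 * C0 * u)) * |z.im|) ≤
        C * ‖Fφ‖ * Real.exp ((3 * C0 + 5) * u) := by
      rw [Real.exp_neg]
      calc (1 + ‖z‖) ^ 2 * (C * ‖Fφ‖) / ((Real.exp (3 * C0 * u))⁻¹ * |z.im|)
          = (1 + ‖z‖) ^ 2 * (C * ‖Fφ‖) * Real.exp (3 * C0 * u) * (1 / |z.im|) := by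
            have := (Real.exp_pos (3 * C0 * u)).ne'
            field_simp
        _ ≤ Real.exp (4 * u) * (C * ‖Fφ‖) * Real.exp (3 * C0 * u) * Real.exp u := by
            gcongr
        _ = C * ‖Fφ‖ * (Real.exp (4 * u) * Real.exp (3 * C0 * u) * Real.exp u) := by ring
        _ = C * ‖Fφ‖ * Real.exp ((3 * C0 + 5) * u) := by
            rw [← Real.exp_add, ← Real.exp_add]
            congr 2
            ring
    have hE : 1 ≤ Real.exp ((3 * C0 + 5) * u) := Real.one_le_exp (by positivity)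
    have h7 : K0 ≤ Real.exp (K0 * u) := by
      have h8 := Real.add_one_le_exp (K0 * u)
      have h9 : K0 ≤ K0 * u := le_mul_of_one_le_right hK00 hu1
      linarith
    calc ‖ψ z‖ ≤ ‖kqW hφ k‖ * ‖H65.qW hφ (annW hφ k) z‖ := h2
      _ ≤ ‖kqW hφ k‖ * (‖rw' φ‖ * (1 + (1 + ‖z‖) ^ 2 * (C * ‖Fφ‖) /
          (Real.exp (-(3 * C0 * u)) * |z.im|))) := mul_le_mul_of_nonneg_left h1 hkq
      _ ≤ ‖kqW hφ k‖ * (‖rw' φ‖ * (Real.exp ((3 * C0 + 5) * u) +
          C * ‖Fφ‖ * Real.exp ((3 * C0 + 5) * u))) := by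
          apply mul_le_mul_of_nonneg_left _ hkq
          apply mul_le_mul_of_nonneg_left _ hrn
          exact add_le_add hE h6
      _ = K0 * Real.exp ((3 * C0 + 5) * u) := by rw [hK0]; ring
      _ ≤ Real.exp (K0 * u) * Real.exp ((3 * C0 + 5) * u) :=
          mul_le_mul_of_nonneg_right h7 (Real.exp_pos _).le
      _ = _ := by
          rw [← Real.exp_add]
          congr 1
          ring
  obtain ⟨c, hc⟩ := hCA ψ x0 M hdiff hM hi2 hii hiii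
  refine ⟨-(Complex.I * c), ?_⟩
  choose E hE using fun m : ℕ => Pool.Agent.WK2.Cst.exists_E hφ m
  apply H65.ext_exp hφ hE
  intro n
  have hzim : 0 < (Complex.I * ((n : ℂ) + 1)).im := by
    simp only [Complex.mul_im, Complex.I_re, Complex.add_im, Complex.natCast_im,
      Complex.one_im, Complex.I_im, Complex.add_re, Complex.natCast_re, Complex.one_re]
    have : (0 : ℝ) ≤ (n : ℝ) := Nat.cast_nonneg n
    linarith
  obtain ⟨z, hz⟩ : ∃ z : ℂ, z = Complex.I * ((n : ℂ) + 1) := ⟨_, rfl⟩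
  rw [← hz] at hzim
  have hIz : -Complex.I * z = (n : ℂ) + 1 := by
    rw [hz, ← mul_assoc]
    have : -Complex.I * Complex.I = 1 := by
      rw [neg_mul, Complex.I_mul_I, neg_neg]
    rw [this, one_mul]
  have hzx : z ≠ (x0 : ℂ) := hne z hzim.ne'
  have hrE : ∀ᵐ t : ℝ, 0 < t →
      ((dv φ (E n) : X) : ℝ → ℂ) t = Complex.exp (-(-Complex.I * z * (t : ℂ))) := by
    rw [hIz]
    exact hE n
  have hre : 0 < (-Complex.I * z).re := by simpa using hzim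
  rw [← hpos z hzim (E n) hrE, hc z hzx, smul_apply, smul_eq_mul,
    H65.chiW_exp hre hrE (w := (x0 : ℂ)) (by simp)]
  have n1 : z - (x0 : ℂ) ≠ 0 := sub_ne_zero.mpr hzx
  have n2 : -Complex.I * z + Complex.I * (x0 : ℂ) ≠ 0 := by
    have e : -Complex.I * z + Complex.I * (x0 : ℂ) = -Complex.I * (z - x0) := by ring
    rw [e]
    exact mul_ne_zero (neg_ne_zero.mpr Complex.I_ne_zero) n1
  rw [mul_one_div, div_eq_div_iff n1 n2]
  ring

end

end Pool.Agent.WK7
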