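import Pool.Agent.WK7.Stmts

/-!
# MP_7d2497_an, squad WK7, row THO: one cluster, in a normed ring (helper69; a copy of
`Helper34_E/ThinOp.lean` of helper34 with a normed ring in place of the operators)
-/

set_option autoImplicit false

namespace Pool.Agent.WK7.THO69

open MeasureTheory Filter Topology Complex
open Pool.Agent.WK5
open Pool.Agent.H78E
open Pool.Agent.H78E.H34 (exists_chain exists_distinct prod_close lev mem_lev lev_succ_prod
  eventually_le cluster card_mod geo_cauchy geo_limit)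

noncomputable section

/-- product of the factors at level `n` -/
def Mo {R : Type} [NormedRing R] (A : ℝ → ℝ → ℝ → R) (m0 : ℝ) (n : ℕ) (s : ℕ → ℝ × ℝ) : R :=
  ((lev n).map fun i => A (s i).1 (m0 * (1 / 2 : ℝ) ^ n) (s i).2).prod

theorem Mo_congr {R : Type} [NormedRing R] (A : ℝ → ℝ → ℝ → R) (m0 : ℝ) (n : ℕ) (s s' : ℕ → ℝ × ℝ)
    (h : ∀ i < 2 ^ n, s i = s' i) : Mo A m0 n s = Mo A m0 n s' := by
  unfold Mo
  congr 1
  refine List.map_congr_left fun i hi => ?_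
  rw [h i (mem_lev hi)]

/-- the states of the construction -/
structure VO (K : Set ℝ) (m0 : ℝ) (n : ℕ) (s : ℕ → ℝ × ℝ) : Prop where
  mem : ∀ i < 2 ^ n, (s i).1 ∈ K
  pos : ∀ i < 2 ^ n, 0 < (s i).2
  inj : ∀ i j, i < 2 ^ n → j < 2 ^ n → (s i).1 = (s j).1 → i = j
  e_le : ∀ i < 2 ^ n, i ≠ 0 → (s i).2 ≤ (1 / 2 : ℝ) ^ i

/-- the steps of the construction -/
structure RO {R : Type} [NormedRing R] (A : ℝ → ℝ → ℝ → R) (m0 η : ℝ) (n : ℕ) (s s' : ℕ → ℝ × ℝ) : Prop where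
  same : ∀ i < 2 ^ n, s' i = s i
  near : ∀ i < 2 ^ n, |(s' (i + 2 ^ n)).1 - (s i).1| ≤ (1 / 2 : ℝ) ^ (n + 2)
  near_gap : ∀ i < 2 ^ n, ∀ j < 2 ^ n, ∀ l < 2 ^ n, j ≠ l →
    |(s' (i + 2 ^ n)).1 - (s i).1| ≤ (1 / 2 : ℝ) ^ (n + 2) * |(s j).1 - (s l).1|
  close : ‖Mo A m0 (n + 1) s' - Mo A m0 n s‖ ≤ η * (1 / 2 : ℝ) ^ (n + 1)

theorem stepO {R : Type} [NormedRing R] {K : Set ℝ} (hK : Preperfect K) {m0 η : ℝ} (hm0 : 0 < m0) (hη : 0 < η)
    {A : ℝ → ℝ → ℝ → R} (hA : FClose A) (n : ℕ) (s : ℕ → ℝ × ℝ) (hs : VO K m0 n s) :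
    ∃ s', VO K m0 (n + 1) s' ∧ RO A m0 η n s s' := by
  have hm : (0 : ℝ) < m0 * (1 / 2) ^ n := by positivity
  obtain ⟨h, hh, hprod⟩ := prod_close (lev n) (fun i => A (s i).1 (m0 * (1 / 2 : ℝ) ^ n) (s i).2)
    (η * (1 / 2 : ℝ) ^ (n + 1)) (by positivity)
  -- the distance
  obtain ⟨δ, hδ0, hδ2, hδ3⟩ : ∃ δ : ℝ, 0 < δ ∧
      δ ≤ (1 / 2 : ℝ) ^ (n + 2) ∧ ∀ j < 2 ^ n, ∀ l < 2 ^ n, j ≠ l →
        δ ≤ (1 / 2 : ℝ) ^ (n + 2) * |(s j).1 - (s l).1| := by
    have h2 : ∀ᶠ δ in 𝓝[>] (0 : ℝ), δ ≤ (1 / 2 : ℝ) ^ (n + 2) := eventually_le (by positivity)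
    have h3 : ∀ᶠ δ in 𝓝[>] (0 : ℝ), ∀ j ∈ Finset.range (2 ^ n), ∀ l ∈ Finset.range (2 ^ n),
        j ≠ l → δ ≤ (1 / 2 : ℝ) ^ (n + 2) * |(s j).1 - (s l).1| := by
      refine (eventually_all_finset _).2 fun j hj => (eventually_all_finset _).2 fun l hl => ?_
      by_cases hjl : j = l
      · exact Eventually.of_forall fun δ h => absurd hjl h
      · have h4 : 0 < |(s j).1 - (s l).1| := abs_pos.2 (sub_ne_zero.2 fun h =>
          hjl (hs.inj j l (Finset.mem_range.1 hj) (Finset.mem_range.1 hl) h))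
        exact (eventually_le (c := (1 / 2 : ℝ) ^ (n + 2) * |(s j).1 - (s l).1|)
          (by positivity)).mono fun δ h _ => h
    obtain ⟨δ, ⟨h2, h3⟩, h4⟩ := ((h2.and h3).and self_mem_nhdsWithin).exists
    exact ⟨δ, h4, h2, fun j hj l hl =>
      h3 j (Finset.mem_range.2 hj) l (Finset.mem_range.2 hl)⟩
  -- the new parameters
  have hstep : ∀ i < 2 ^ n, ∃ e' δ' : ℝ, 0 < e' ∧ e' ≤ (1 / 2 : ℝ) ^ (i + 2 ^ n) ∧ 0 < δ' ∧
      ∀ x' : ℝ, |x' - (s i).1| ≤ δ' → ‖A (s i).1 (m0 * (1 / 2 : ℝ) ^ (n + 1)) (s i).2 *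
        A x' (m0 * (1 / 2 : ℝ) ^ (n + 1)) e' - A (s i).1 (m0 * (1 / 2 : ℝ) ^ n) (s i).2‖ ≤ h := by
    intro i hi
    have hmm : m0 * (1 / 2 : ℝ) ^ n / 2 = m0 * (1 / 2 : ℝ) ^ (n + 1) := by ring
    obtain ⟨h3, -⟩ := hA (s i).1 (m0 * (1 / 2 : ℝ) ^ n) (s i).2 hm (hs.pos i hi)
    obtain ⟨e0, he0, h3⟩ := h3 (h / 2) (by positivity)
    rw [hmm] at h3
    set e' := min e0 ((1 / 2 : ℝ) ^ (i + 2 ^ n)) with he'
    have he'0 : 0 < e' := by positivity
    have h3' := h3 e' he'0 (min_le_left _ _)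
    obtain ⟨-, h4⟩ := hA (s i).1 (m0 * (1 / 2 : ℝ) ^ (n + 1)) e' (by positivity) he'0
    set B := A (s i).1 (m0 * (1 / 2 : ℝ) ^ (n + 1)) (s i).2 with hB
    obtain ⟨δ', hδ', h4⟩ := h4 (h / (2 * (‖B‖ + 1))) (by positivity)
    refine ⟨e', δ', he'0, min_le_right _ _, hδ', fun x' hx' => ?_⟩
    have h5 := h4 x' hx'
    have e : B * A x' (m0 * (1 / 2 : ℝ) ^ (n + 1)) e' - A (s i).1 (m0 * (1 / 2 : ℝ) ^ n) (s i).2 =
        B * (A x' (m0 * (1 / 2 : ℝ) ^ (n + 1)) e' - A (s i).1 (m0 * (1 / 2 : ℝ) ^ (n + 1)) e') -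
        (A (s i).1 (m0 * (1 / 2 : ℝ) ^ n) (s i).2 - B * A (s i).1 (m0 * (1 / 2 : ℝ) ^ (n + 1)) e') := by
      rw [mul_sub]
      abel
    have h6 : ‖B * (A x' (m0 * (1 / 2 : ℝ) ^ (n + 1)) e' - A (s i).1 (m0 * (1 / 2 : ℝ) ^ (n + 1)) e')‖ ≤
        h / 2 := by
      refine (norm_mul_le _ _).trans ?_
      calc ‖B‖ * ‖A x' (m0 * (1 / 2 : ℝ) ^ (n + 1)) e' - A (s i).1 (m0 * (1 / 2 : ℝ) ^ (n + 1)) e'‖
          ≤ (‖B‖ + 1) * (h / (2 * (‖B‖ + 1))) := by
            gcongr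
            linarith
        _ = h / 2 := by
          have : ‖B‖ + 1 ≠ 0 := by positivity
          field_simp
    rw [e]
    exact (norm_sub_le _ _).trans (by linarith)
  choose! e' δ' he1 he2 hδ'0 hAA using hstep
  -- the new points
  obtain ⟨c, hc1, hc2⟩ := exists_distinct (2 ^ n)
    (fun i => (Metric.closedBall (s i).1 (min (δ' i) δ) ∩ K) \
      (((Finset.range (2 ^ n)).image fun j => (s j).1 : Finset ℝ) : Set ℝ)) (by
      intro i hi
      have h1 : Metric.closedBall (s i).1 (min (δ' i) δ) ∈ 𝓝 (s i).1 :=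
        Metric.closedBall_mem_nhds _ (lt_min (hδ'0 i hi) hδ0)
      exact (Set.Infinite.of_accPt ((hK _ (hs.mem i hi)).nhds_inter h1)).sdiff
        (Finset.finite_toSet _))
  have hcd : ∀ i < 2 ^ n, |c i - (s i).1| ≤ δ' i ∧ |c i - (s i).1| ≤ δ := fun i hi => by
    have := (hc1 i hi).1.1
    rw [Metric.mem_closedBall, Real.dist_eq] at this
    exact ⟨this.trans (min_le_left _ _), this.trans (min_le_right _ _)⟩
  have hcK : ∀ i < 2 ^ n, c i ∈ K := fun i hi => (hc1 i hi).1.2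
  have hcs : ∀ i < 2 ^ n, ∀ j < 2 ^ n, (s j).1 ≠ c i := fun i hi j hj h => by
    refine (hc1 i hi).2 ?_
    rw [Finset.mem_coe]
    exact Finset.mem_image.2 ⟨j, Finset.mem_range.2 hj, h⟩
  set s' : ℕ → ℝ × ℝ := fun i => if i < 2 ^ n then s i else (c (i - 2 ^ n), e' (i - 2 ^ n)) with hs'
  have hs1 : ∀ i < 2 ^ n, s' i = s i := fun i hi => by simp [hs', hi]
  have hs2 : ∀ i, s' (i + 2 ^ n) = (c i, e' i) := fun i => by simp [hs']
  have h2n : ∀ i, i < 2 ^ (n + 1) → i < 2 ^ n ∨ ∃ j < 2 ^ n, i = j + 2 ^ n := fun i hi => by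
    rw [pow_succ] at hi
    rcases lt_or_ge i (2 ^ n) with h | h
    · exact Or.inl h
    · exact Or.inr ⟨i - 2 ^ n, by omega, by omega⟩
  refine ⟨s', ⟨fun i hi => ?_, fun i hi => ?_, fun i j hi hj hij => ?_, fun i hi hi0 => ?_⟩, ⟨hs1,
    fun i hi => ?_, fun i hi j hj l hl hjl => ?_, ?_⟩⟩
  · rcases h2n i hi with h | ⟨j, hj, rfl⟩
    · rw [hs1 i h]
      exact hs.mem i h
    · rw [hs2]
      exact hcK j hj
  · rcases h2n i hi with h | ⟨j, hj, rfl⟩
    · rw [hs1 i h]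
      exact hs.pos i h
    · rw [hs2]
      exact he1 j hj
  · rcases h2n i hi with h | ⟨i, hi', rfl⟩ <;> rcases h2n j hj with h' | ⟨j, hj', rfl⟩
    · rw [hs1 i h, hs1 j h'] at hij
      exact hs.inj i j h h' hij
    · rw [hs1 i h, hs2] at hij
      exact absurd hij (hcs j hj' i h)
    · rw [hs2, hs1 j h'] at hij
      exact absurd hij.symm (hcs i hi' j h')
    · rw [hs2, hs2] at hij
      rw [hc2 i j hi' hj' hij]
  · rcases h2n i hi with h | ⟨j, hj, rfl⟩
    · rw [hs1 i h]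
      exact hs.e_le i h hi0
    · rw [hs2]
      exact he2 j hj
  · rw [hs2]
    exact (hcd i hi).2.trans hδ2
  · rw [hs2]
    exact (hcd i hi).2.trans (hδ3 j hj l hl hjl)
  · unfold Mo
    rw [lev_succ_prod]
    refine hprod _ fun i hi => ?_
    have hi' := mem_lev hi
    rw [hs1 i hi', hs2]
    exact hAA i hi' (c i) (hcd i hi').1


/-- THO -/
theorem tho0 : ThoStmt := by
  intro R _ _ A hA K hK x0 m0 η hx0 hm0 hη
  obtain ⟨S, hV, hR⟩ := exists_chain (fun n s => VO K m0 n s ∧ s 0 = (x0, m0)) (RO A m0 η)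
    ⟨fun _ => (x0, m0), ⟨fun i _ => hx0, fun i _ => hm0, fun i j hi hj _ => by
      simp at hi hj
      omega, fun i hi h => by
      simp at hi
      exact absurd hi h⟩, rfl⟩ fun n s hs => by
        obtain ⟨s', h1, h2⟩ := stepO hK hm0 hη hA n s hs.1
        refine ⟨s', ⟨h1, ?_⟩, h2⟩
        rw [h2.same 0 (by positivity), hs.2]
  -- coherence
  have hcoh : ∀ n k i, i < 2 ^ n → S (n + k) i = S n i := by
    intro n k i hi
    induction k with
    | zero => rfl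
    | succ k ih =>
      rw [← ih, ← add_assoc]
      exact (hR (n + k)).same i (lt_of_lt_of_le hi (Nat.pow_le_pow_right (by norm_num) (by omega)))
  set s : ℕ → ℝ × ℝ := fun i => S i i with hs
  have hlt : ∀ i : ℕ, i < 2 ^ i := fun i => Nat.lt_two_pow_self
  have hSs : ∀ n i, i < 2 ^ n → S n i = s i := by
    intro n i hi
    rcases le_total n i with h | h
    · obtain ⟨k, rfl⟩ := Nat.exists_eq_add_of_le h
      exact (hcoh n k _ hi).symm
    · obtain ⟨k, rfl⟩ := Nat.exists_eq_add_of_le h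
      exact hcoh i k i (hlt i)
  have hs0 : s 0 = (x0, m0) := (hV 0).2
  have hpow : ∀ i n : ℕ, i < 2 ^ n → i + 2 ^ n < 2 ^ (n + 1) := fun i n hi => by
    rw [pow_succ]
    omega
  have hnear : ∀ n, ∀ i < 2 ^ n, |(s (i + 2 ^ n)).1 - (s i).1| ≤ (1 / 2 : ℝ) ^ (n + 2) :=
    fun n i hi => by
      have := (hR n).near i hi
      rwa [hSs _ _ (hpow i n hi), hSs _ _ hi] at this
  have hgap : ∀ n, ∀ i < 2 ^ n, ∀ j < 2 ^ n, ∀ l < 2 ^ n, j ≠ l →
      |(s (i + 2 ^ n)).1 - (s i).1| ≤ (1 / 2 : ℝ) ^ (n + 2) * |(s j).1 - (s l).1| :=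
    fun n i hi j hj l hl hjl => by
      have := (hR n).near_gap i hi j hj l hl hjl
      rwa [hSs _ _ (hpow i n hi), hSs _ _ hi, hSs _ _ hj, hSs _ _ hl] at this
  have hinj : ∀ i j, (s i).1 = (s j).1 → i = j := fun i j hij => by
    have h1 : i < 2 ^ (i + j) := lt_of_lt_of_le Nat.lt_two_pow_self
      (Nat.pow_le_pow_right (by norm_num) (by omega))
    have h2 : j < 2 ^ (i + j) := lt_of_lt_of_le Nat.lt_two_pow_self
      (Nat.pow_le_pow_right (by norm_num) (by omega))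
    rw [← hSs _ _ h1, ← hSs _ _ h2] at hij
    exact (hV (i + j)).1.inj i j h1 h2 hij
  -- the parameters `e`
  have he_pos : ∀ i, 0 < (s i).2 := fun i => (hV i).1.pos i (hlt i)
  have he_le : ∀ i, i ≠ 0 → (s i).2 ≤ (1 / 2 : ℝ) ^ i := fun i hi => (hV i).1.e_le i (hlt i) hi
  have hgeo : Summable fun i : ℕ => (1 / 2 : ℝ) ^ (i + 1) :=
    (summable_nat_add_iff 1).2 summable_geometric_two
  have he_sum' : Summable fun i => (s (i + 1)).2 :=
    Summable.of_nonneg_of_le (fun i => (he_pos _).le) (fun i => he_le _ (by omega)) hgeo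
  have he_sum : Summable fun i => (s i).2 := (summable_nat_add_iff 1).1 he_sum'
  have hgeo1 : ∑' i : ℕ, (1 / 2 : ℝ) ^ (i + 1) = 1 := by
    have h := summable_geometric_two.tsum_eq_zero_add
    rw [tsum_geometric_two] at h
    norm_num at h ⊢
    linarith
  -- the operators
  have hM : ∀ n, Mo A m0 n (S n) = Mo A m0 n s := fun n => Mo_congr A m0 n _ _ fun i hi => hSs n i hi
  have hMo : ∀ n, ‖Mo A m0 (n + 1) s - Mo A m0 n s‖ ≤ η * (1 / 2 : ℝ) ^ (n + 1) := fun n => by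
    rw [← hM, ← hM]
    exact (hR n).close
  have hcau : CauchySeq fun n => Mo A m0 n s := by
    refine geo_cauchy (E := R) _ (η / 2) fun n => (hMo n).trans (le_of_eq ?_)
    ring
  obtain ⟨M, hMlim⟩ := cauchySeq_tendsto_of_complete hcau
  have h0 : Mo A m0 0 s = A x0 m0 m0 := by
    unfold Mo
    simp [lev, hs0]
  refine ⟨⟨fun i => (s i).1, fun i => (s i).2, M, by simp only [hs0],
    by simp only [hs0], fun i => (hV i).1.mem i (hlt i), fun i => ?_, he_pos, he_sum, ?_,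
    fun N => ?_, hMlim, ?_⟩⟩
  · -- near
    have h1 := cluster (x := fun i => (s i).1) (N := 0) (C := 1 / 2) (by norm_num)
      (fun k _ j hj => by
        refine (hnear k j hj).trans (le_of_eq ?_)
        rw [Nat.sub_zero, pow_succ, pow_succ, pow_succ, one_div_pow]
        field_simp
        ) i (Nat.zero_le _) i (hlt i)
    simp only [pow_zero, Nat.mod_one] at h1
    have h2 : (0 : ℝ) ≤ 1 / 2 ^ (i - 0) := by positivity
    linarith
  · -- the sum
    rw [he_sum.tsum_eq_zero_add, hs0]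
    have := he_sum'.tsum_le_tsum (fun i => he_le _ (by omega)) hgeo
    rw [hgeo1] at this
    dsimp only
    linarith
  · -- separation
    rcases Nat.eq_zero_or_pos N with rfl | hN
    · refine ⟨1, one_pos, fun n _ u => ?_⟩
      rw [Nat.sub_zero]
      exact (Finset.card_filter_le _ _).trans (Finset.card_range _).le
    · obtain ⟨ρ, hρ0, hρ⟩ : ∃ ρ : ℝ, 0 < ρ ∧ ∀ a < 2 ^ N, ∀ b < 2 ^ N, a ≠ b →
          ρ ≤ |(s a).1 - (s b).1| / 4 := by
        have h3 : ∀ᶠ ρ in 𝓝[>] (0 : ℝ), ∀ a ∈ Finset.range (2 ^ N), ∀ b ∈ Finset.range (2 ^ N),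
            a ≠ b → ρ ≤ |(s a).1 - (s b).1| / 4 := by
          refine (eventually_all_finset _).2 fun a _ => (eventually_all_finset _).2 fun b _ => ?_
          by_cases hab : a = b
          · exact Eventually.of_forall fun δ h => absurd hab h
          · have h4 : 0 < |(s a).1 - (s b).1| := abs_pos.2 (sub_ne_zero.2 fun h =>
              hab (hinj a b h))
            exact (eventually_le (c := |(s a).1 - (s b).1| / 4) (by positivity)).mono fun δ h _ => h
        obtain ⟨ρ, h3, h4⟩ := (h3.and self_mem_nhdsWithin).exists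
        exact ⟨ρ, h4, fun a ha b hb => h3 a (Finset.mem_range.2 ha) b (Finset.mem_range.2 hb)⟩
      refine ⟨ρ, hρ0, fun n hn u => ?_⟩
      rcases Finset.eq_empty_or_nonempty
        ((Finset.range (2 ^ n)).filter fun i => |(s i).1 - u| < ρ) with he | ⟨i0, hi0⟩
      · rw [he]
        simp
      · rw [Finset.mem_filter, Finset.mem_range] at hi0
        have hb : i0 % 2 ^ N < 2 ^ N := Nat.mod_lt _ (by positivity)
        rw [← card_mod hn hb]
        refine Finset.card_le_card fun i hi => ?_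
        rw [Finset.mem_filter, Finset.mem_range] at hi
        rw [Finset.mem_filter, Finset.mem_range]
        refine ⟨hi.1, ?_⟩
        by_contra hab
        have ha : i % 2 ^ N < 2 ^ N := Nat.mod_lt _ (by positivity)
        have hG := hρ _ ha _ hb hab
        set G := |(s (i % 2 ^ N)).1 - (s (i0 % 2 ^ N)).1| with hGdef
        have hG0 : 0 ≤ G := abs_nonneg _
        have hcl := cluster (x := fun i => (s i).1) (N := N) (C := G / 4) (by positivity)
          (fun k hk j hj => by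
            have h1 := hgap k j hj _ (lt_of_lt_of_le ha (Nat.pow_le_pow_right (by norm_num) hk)) _
              (lt_of_lt_of_le hb (Nat.pow_le_pow_right (by norm_num) hk)) hab
            refine h1.trans ?_
            rw [← hGdef]
            have h2 : (1 / 2 : ℝ) ^ (k + 2) ≤ (1 / 2 : ℝ) ^ (k - N + 1 + 2) :=
              pow_le_pow_of_le_one (by norm_num) (by norm_num) (by omega)
            have h3 : (1 / 2 : ℝ) ^ (k - N + 1 + 2) * G = G / 4 / 2 ^ (k - N + 1) := by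
              rw [pow_add, one_div_pow]
              field_simp
              ring
            rw [← h3]
            exact mul_le_mul_of_nonneg_right h2 hG0) n hn
        have h1 := hcl i hi.1
        have h2 := hcl i0 hi0.1
        have h3 : (0 : ℝ) ≤ G / 4 * (1 / 2 ^ (n - N)) := by positivity
        have h4 : G ≤ |(s i).1 - (s (i % 2 ^ N)).1| + |(s i).1 - u| + |(s i0).1 - u| +
            |(s i0).1 - (s (i0 % 2 ^ N)).1| := by
          have e : (s (i % 2 ^ N)).1 - (s (i0 % 2 ^ N)).1 = -((s i).1 - (s (i % 2 ^ N)).1) +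
            ((s i).1 - u) + -((s i0).1 - u) + ((s i0).1 - (s (i0 % 2 ^ N)).1) := by ring
          rw [hGdef, e]
          refine (abs_add_le _ _).trans (add_le_add ((abs_add_le _ _).trans (add_le_add
            ((abs_add_le _ _).trans (add_le_add ?_ le_rfl)) ?_)) le_rfl)
          · rw [abs_neg]
          · rw [abs_neg]
        linarith [hi.2, hi0.2]
  · -- close
    have h := geo_limit (E := R) (fun n => Mo A m0 n s) (η / 2) (fun n => by
      refine (hMo n).trans (le_of_eq ?_)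
      ring) hMlim
    rw [h0] at h
    refine h.trans (le_of_eq ?_)
    ring

end

end Pool.Agent.WK7.THO69

namespace Pool.Agent.WK7

/-- row THO -/
theorem tho : ThoStmt := THO69.tho0

end Pool.Agent.WK7
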