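import Pool.Agent.WK7.Stmts
import Pool.Agent.WK5.Wth
import Pool.Agent.WK5.Gnf
import Pool.Agent.Helper34_E.Far

/-!
# MP_7d2497_an, squad WK7, row WFR (helper76): clusters going to infinity, weighted
-/

set_option autoImplicit false

namespace Pool.Agent.WK7

open MeasureTheory Filter Topology Complex
open Pool.Agent.H78E Pool.Agent.WKS Pool.Agent.WK5
open Pool.Agent.WK3 (QC Lin)

noncomputable section

namespace WFR76

open Pool.Agent.H78E.H34 (mf far_radius geo_cauchy tendsto_apply)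

theorem MoR_fst {R S : Type} [NormedRing R] [NormedRing S] (A : ℝ → ℝ → ℝ → R)
    (B : ℝ → ℝ → ℝ → S) (m0 : ℝ) (n : ℕ) (x e : ℕ → ℝ) :
    (MoR (fun x m e => (A x m e, B x m e)) m0 n x e).1 = MoR A m0 n x e := by
  unfold MoR
  generalize Pool.Agent.H78E.H34.lev n = L
  induction L with
  | nil => simp
  | cons i L ih =>
    rw [List.map_cons, List.prod_cons, Prod.fst_mul, ih, List.map_cons, List.prod_cons]

theorem MoR_snd {R S : Type} [NormedRing R] [NormedRing S] (A : ℝ → ℝ → ℝ → R)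
    (B : ℝ → ℝ → ℝ → S) (m0 : ℝ) (n : ℕ) (x e : ℕ → ℝ) :
    (MoR (fun x m e => (A x m e, B x m e)) m0 n x e).2 = MoR B m0 n x e := by
  unfold MoR
  generalize Pool.Agent.H78E.H34.lev n = L
  induction L with
  | nil => simp
  | cons i L ih =>
    rw [List.map_cons, List.prod_cons, Prod.snd_mul, ih, List.map_cons, List.prod_cons]

/-- One stage of the construction. -/
structure Stage (A2 A6 : ℝ → ℝ → ℝ → (Y →L[ℂ] Y)) (L : Set ℝ) (j : ℕ) (p : Y × Y) where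
  D : Set ℝ
  x0 : ℝ
  T : ThinG (fun x m e => (A2 x m e, A6 x m e)) D x0 (mf j x0)
    ((1 / 2 : ℝ) ^ j / (1 + ‖p.1‖ + ‖p.2‖))
  D_closed : IsClosed D
  D_sub : D ⊆ L
  x0_mem : x0 ∈ D
  x0_large : 10 * 4 ^ j ≤ |x0|
  m_small : mf j x0 * 2 ^ j ≤ Real.sqrt |x0|
  near1 : ‖A2 x0 (mf j x0) (mf j x0) p.1 - p.1‖ ≤ (1 / 2 : ℝ) ^ j
  near2 : ‖A6 x0 (mf j x0) (mf j x0) p.2 - p.2‖ ≤ (1 / 2 : ℝ) ^ j

theorem exists_stage {A2 A6 : ℝ → ℝ → ℝ → (Y →L[ℂ] Y)}
    (hA : FClose (fun x m e => (A2 x m e, A6 x m e)))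
    (h2 : ∀ (p : Y) (η : ℝ), 0 < η → ∃ δ : ℝ, 0 < δ ∧ ∀ x m : ℝ, 1 ≤ m → m ≤ δ * |x| →
      ‖A2 x m m p - p‖ ≤ η)
    (h6 : ∀ (p : Y) (η : ℝ), 0 < η → ∃ δ : ℝ, 0 < δ ∧ ∀ x m : ℝ, 1 ≤ m → m ≤ δ * |x| →
      ‖A6 x m m p - p‖ ≤ η) (hT : ThoStmt)
    {L : Set ℝ} (hL : ∀ R : ℝ, ∃ K ⊆ L, (∀ x ∈ K, R ≤ |x|) ∧ IsClosed K ∧ ¬ K.Countable)
    (j : ℕ) (p : Y × Y) : Nonempty (Stage A2 A6 L j p) := by
  obtain ⟨δ1, hδ1, hδ1'⟩ := h2 p.1 ((1 / 2 : ℝ) ^ j) (by positivity)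
  obtain ⟨δ2, hδ2, hδ2'⟩ := h6 p.2 ((1 / 2 : ℝ) ^ j) (by positivity)
  obtain ⟨R1, hR1⟩ := far_radius j hδ1
  obtain ⟨R2, hR2⟩ := far_radius j hδ2
  obtain ⟨K, hKL, hKR, hKc, hKu⟩ := hL (max R1 R2)
  obtain ⟨D, hD, ⟨x0, hx0⟩, hDK⟩ := exists_perfect_nonempty_of_isClosed_of_not_countable hKc hKu
  have hr := hKR x0 (hDK hx0)
  obtain ⟨a1, a2, a3⟩ := hR1 x0 ((le_max_left _ _).trans hr)
  obtain ⟨-, b2, -⟩ := hR2 x0 ((le_max_right _ _).trans hr)
  have hm1 : 1 ≤ mf j x0 := le_max_left _ _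
  obtain ⟨T⟩ := hT ((Y →L[ℂ] Y) × (Y →L[ℂ] Y)) (fun x m e => (A2 x m e, A6 x m e)) hA D hD.acc x0
    (mf j x0) ((1 / 2 : ℝ) ^ j / (1 + ‖p.1‖ + ‖p.2‖)) hx0 (by linarith) (by positivity)
  exact ⟨⟨D, x0, T, hD.closed, hDK.trans hKL, hx0, a1, a3, hδ1' x0 _ hm1 a2, hδ2' x0 _ hm1 b2⟩⟩

theorem step_aux {M B : Y →L[ℂ] Y} {p : Y} {η t : ℝ} (hη : 0 ≤ η) (ht : ‖p‖ + 1 ≤ t)
    (hc : ‖M - B‖ ≤ η / t) (hn : ‖B p - p‖ ≤ η) : ‖M p - p‖ ≤ 2 * η := by
  have ht0 : 0 < t := by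
    have := norm_nonneg p
    linarith
  have e : M p - p = (M - B) p + (B p - p) := by
    rw [sub_apply]
    abel
  rw [e]
  refine (norm_add_le _ _).trans ?_
  have h3 : ‖(M - B) p‖ ≤ η := by
    refine (ContinuousLinearMap.le_opNorm _ _).trans ?_
    calc ‖M - B‖ * ‖p‖ ≤ η / t * t := by
          refine mul_le_mul hc (by linarith) (norm_nonneg _) (by positivity)
      _ = η := by field_simp
  linarith

theorem stage_step {A2 A6 : ℝ → ℝ → ℝ → (Y →L[ℂ] Y)} {L : Set ℝ} {j : ℕ} {p : Y × Y}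
    (S : Stage A2 A6 L j p) : ‖(S.T.M.1 p.1, S.T.M.2 p.2) - p‖ ≤ 2 * (1 / 2 : ℝ) ^ j := by
  have h1 := S.T.close
  have h0 : (0 : ℝ) ≤ (1 / 2 : ℝ) ^ j := by positivity
  have e : S.T.M - (A2 S.x0 (mf j S.x0) (mf j S.x0), A6 S.x0 (mf j S.x0) (mf j S.x0)) =
      (S.T.M.1 - A2 S.x0 (mf j S.x0) (mf j S.x0), S.T.M.2 - A6 S.x0 (mf j S.x0) (mf j S.x0)) := rfl
  have h2 : ‖S.T.M.1 - A2 S.x0 (mf j S.x0) (mf j S.x0)‖ ≤
      (1 / 2 : ℝ) ^ j / (1 + ‖p.1‖ + ‖p.2‖) := by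
    refine le_trans ?_ h1
    rw [e, Prod.norm_mk]
    exact le_max_left _ _
  have h3 : ‖S.T.M.2 - A6 S.x0 (mf j S.x0) (mf j S.x0)‖ ≤
      (1 / 2 : ℝ) ^ j / (1 + ‖p.1‖ + ‖p.2‖) := by
    refine le_trans ?_ h1
    rw [e, Prod.norm_mk]
    exact le_max_right _ _
  have n1 := norm_nonneg p.1
  have n2 := norm_nonneg p.2
  have h4 := step_aux h0 (by linarith) h2 S.near1
  have h5 := step_aux h0 (by linarith) h3 S.near2
  have e2 : ((S.T.M.1 p.1, S.T.M.2 p.2) : Y × Y) - p =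
    (S.T.M.1 p.1 - p.1, S.T.M.2 p.2 - p.2) := rfl
  rw [e2, Prod.norm_mk]
  exact max_le h4 h5

section Seq

variable {A2 A6 : ℝ → ℝ → ℝ → (Y →L[ℂ] Y)} {L : Set ℝ}
  (st : ∀ (j : ℕ) (p : Y × Y), Stage A2 A6 L j p)

/-- The vectors of the construction. -/
def ps : ℕ → Y × Y
  | 0 => (rr, rw' w1)
  | j + 1 => ((st j (ps j)).T.M.1 (ps j).1, (st j (ps j)).T.M.2 (ps j).2)

/-- The stage number `j`. -/
def sg (j : ℕ) : Stage A2 A6 L j (ps st j) := st j (ps st j)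

/-- The approximations. -/
def qs (v : ℕ) : ℕ → Y × Y
  | 0 => (rr, rw' w1)
  | j + 1 => (MoR A2 (mf j (sg st j).x0) v (sg st j).T.x (sg st j).T.e (qs v j).1,
      MoR A6 (mf j (sg st j).x0) v (sg st j).T.x (sg st j).T.e (qs v j).2)

theorem ps_succ (j : ℕ) :
    ps st (j + 1) = ((sg st j).T.M.1 (ps st j).1, (sg st j).T.M.2 (ps st j).2) := rfl

theorem qs_succ (v j : ℕ) : qs st v (j + 1) =
    (MoR A2 (mf j (sg st j).x0) v (sg st j).T.x (sg st j).T.e (qs st v j).1,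
      MoR A6 (mf j (sg st j).x0) v (sg st j).T.x (sg st j).T.e (qs st v j).2) := rfl

theorem qs_tendsto (j : ℕ) : Tendsto (fun v => qs st v j) atTop (𝓝 (ps st j)) := by
  induction j with
  | zero => exact tendsto_const_nhds
  | succ j ih =>
    simp only [qs_succ, ps_succ]
    have i1 := (continuous_fst.tendsto (ps st j)).comp ih
    have i2 := (continuous_snd.tendsto (ps st j)).comp ih
    have l1 : Tendsto (fun v => MoR A2 (mf j (sg st j).x0) v (sg st j).T.x (sg st j).T.e) atTop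
        (𝓝 (sg st j).T.M.1) := by
      refine ((continuous_fst.tendsto (sg st j).T.M).comp (sg st j).T.lim).congr fun n => ?_
      exact MoR_fst A2 A6 _ n _ _
    have l2 : Tendsto (fun v => MoR A6 (mf j (sg st j).x0) v (sg st j).T.x (sg st j).T.e) atTop
        (𝓝 (sg st j).T.M.2) := by
      refine ((continuous_snd.tendsto (sg st j).T.M).comp (sg st j).T.lim).congr fun n => ?_
      exact MoR_snd A2 A6 _ n _ _
    exact (tendsto_apply (E := Y) l1 i1).prodMk_nhds (tendsto_apply (E := Y) l2 i2)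

theorem ps_step (j : ℕ) : ‖ps st (j + 1) - ps st j‖ ≤ 2 * (1 / 2 : ℝ) ^ j := by
  rw [ps_succ]
  exact stage_step (sg st j)

theorem chi_qs1 (hA2 : ∀ x m e : ℝ, 0 < m → 0 < e → ∀ z : ℂ, z.im ≤ 0 → z ≠ (x : ℂ) → ∀ F : Y,
      chi z (A2 x m e F) = mult x m e z * chi z F)
    (v j : ℕ) (z : ℂ) (hz : z.im ≤ 0) (hzx : ∀ j i, z ≠ ((sg st j).T.x i : ℂ)) :
    chi z (qs st v j).1 = (∏ l ∈ Finset.range j, ∏ i ∈ Finset.range (2 ^ v),
      mult ((sg st l).T.x i) (mf l (sg st l).x0 * (1 / 2 : ℝ) ^ v) ((sg st l).T.e i) z) *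
      chi z rr := by
  induction j with
  | zero => simp [qs]
  | succ j ih =>
    have hm : 0 < mf j (sg st j).x0 := lt_of_lt_of_le one_pos (le_max_left _ _)
    have h1 : chi z (qs st v (j + 1)).1 = (∏ i ∈ Finset.range (2 ^ v),
        mult ((sg st j).T.x i) (mf j (sg st j).x0 * (1 / 2 : ℝ) ^ v) ((sg st j).T.e i) z) *
        chi z (qs st v j).1 := by
      rw [qs_succ, ← Pool.Agent.H78E.H34.lev_prod]
      exact WTH9.mult_prod (chi z) (fun i => A2 ((sg st j).T.x i)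
        (mf j (sg st j).x0 * (1 / 2 : ℝ) ^ v) ((sg st j).T.e i)) _ _ _
        fun i _ G => hA2 _ _ _ (by positivity) ((sg st j).T.e_pos i) z hz (hzx j i) G
    rw [h1, ih, Finset.prod_range_succ]
    ring

theorem chi_qs2 (hA6 : ∀ x m e : ℝ, 0 < m → 0 < e → ∀ z : ℂ, z.im ≤ 0 → z ≠ (x : ℂ) → ∀ F : Y,
      chiW w1 z (A6 x m e F) = mult x m e z ^ 3 * chiW w1 z F)
    (v j : ℕ) (z : ℂ) (hz : z.im ≤ 0) (hzx : ∀ j i, z ≠ ((sg st j).T.x i : ℂ)) :
    chiW w1 z (qs st v j).2 = (∏ l ∈ Finset.range j, ∏ i ∈ Finset.range (2 ^ v),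
      mult ((sg st l).T.x i) (mf l (sg st l).x0 * (1 / 2 : ℝ) ^ v) ((sg st l).T.e i) z) ^ 3 *
      chiW w1 z (rw' w1) := by
  induction j with
  | zero => simp [qs]
  | succ j ih =>
    have hm : 0 < mf j (sg st j).x0 := lt_of_lt_of_le one_pos (le_max_left _ _)
    have h1 : chiW w1 z (qs st v (j + 1)).2 = (∏ i ∈ Finset.range (2 ^ v),
        mult ((sg st j).T.x i) (mf j (sg st j).x0 * (1 / 2 : ℝ) ^ v) ((sg st j).T.e i) z) ^ 3 *
        chiW w1 z (qs st v j).2 := by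
      rw [qs_succ, ← Finset.prod_pow, ← Pool.Agent.H78E.H34.lev_prod]
      exact WTH9.mult_prod (chiW w1 z) (fun i => A6 ((sg st j).T.x i)
        (mf j (sg st j).x0 * (1 / 2 : ℝ) ^ v) ((sg st j).T.e i)) _ _ _
        fun i _ G => hA6 _ _ _ (by positivity) ((sg st j).T.e_pos i) z hz (hzx j i) G
    rw [h1, ih, Finset.prod_range_succ]
    ring

end Seq

end WFR76

open WFR76 in
/-- WFR. The far element, weighted. -/
theorem wfr (hT : ThoStmt) : WfrStmt := by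
  intro L hL
  obtain ⟨A2, hA2, hA2'⟩ := Pool.Agent.H78E.H34.fact2
  obtain ⟨A6, hA6c, hA6, hA6'⟩ := fc2
  have hA : FClose (fun x m e => (A2 x m e, A6 x m e)) :=
    WTH9.fclose_prod (fun x m e hm he => ⟨(hA2 x m e hm he).2.2.1, (hA2 x m e hm he).2.2.2⟩) hA6c
  have hm2 : ∀ x m e : ℝ, 0 < m → 0 < e → ∀ z : ℂ, z.im ≤ 0 → z ≠ (x : ℂ) → ∀ F : Y,
      chi z (A2 x m e F) = mult x m e z * chi z F :=
    fun x m e hm he z hz hx F => (hA2 x m e hm he).2.1 z hz hx F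
  let st : ∀ (j : ℕ) (p : Y × Y), Stage A2 A6 L j p := fun j p =>
    Classical.choice (exists_stage hA hA2' hA6' hT hL j p)
  have hlim := Pool.Agent.H78E.H34.geo_cauchy (ps st) 2 (ps_step st)
  obtain ⟨f, hf⟩ := cauchySeq_tendsto_of_complete hlim
  have hv : ∀ n : ℕ, ∃ v : ℕ, n ≤ v ∧ ‖qs st v n - ps st n‖ ≤ (1 / 2 : ℝ) ^ n := by
    intro n
    have h1 := (qs_tendsto st n).eventually (Metric.ball_mem_nhds _
      (show (0 : ℝ) < (1 / 2) ^ n by positivity))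
    obtain ⟨v, h2, h3⟩ := (h1.and (eventually_ge_atTop n)).exists
    refine ⟨v, h3, ?_⟩
    rw [← dist_eq_norm]
    exact (Metric.mem_ball.1 h2).le
  choose v hv1 hv2 using hv
  have hx_mem : ∀ j i, (sg st j).T.x i ∈ (sg st j).D := fun j i => (sg st j).T.x_mem i
  have hx0 : ∀ j, (sg st j).T.x 0 = (sg st j).x0 := fun j => (sg st j).T.x_zero
  have hlq : Tendsto (fun n => qs st (v n) n) atTop (𝓝 f) := by
    have h1 : Tendsto (fun n => qs st (v n) n - ps st n) atTop (𝓝 0) := by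
      refine squeeze_zero_norm hv2 ?_
      exact tendsto_pow_atTop_nhds_zero_of_lt_one (by norm_num) (by norm_num)
    have h2 := h1.add hf
    simpa using h2
  have hl1 : Tendsto (fun n => (qs st (v n) n).1) atTop (𝓝 f.1) :=
    (continuous_fst.tendsto f).comp hlq
  have hl2 : Tendsto (fun n => (qs st (v n) n).2) atTop (𝓝 f.2) :=
    (continuous_snd.tendsto f).comp hlq
  obtain ⟨D, hDx, hDf⟩ : ∃ D : FarData L, D.x = (fun j i => (sg st j).T.x i) ∧ D.f = f.1 := by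
    refine ⟨⟨⋃ j, (sg st j).D ∩ Metric.closedBall (sg st j).x0 1, fun j i => (sg st j).T.x i,
      fun j i => (sg st j).T.e i, fun j => Pool.Agent.H78E.H34.mf j (sg st j).x0, v, f.1,
      fun n => (qs st (v n) n).1, ?_, ?_,
      fun j i => ?_, fun j i => (sg st j).T.x_near i, fun u hu => ?_, fun j => ?_, fun j =>
      le_max_left _ _, fun j => ?_, fun j => ?_, fun j i => (sg st j).T.e_pos i,
      fun j => (sg st j).T.e_sum, fun j => (sg st j).T.e_le, fun j N => (sg st j).T.sep N, hv1,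
      hl1, fun n z hz hzx => chi_qs1 st hm2 (v n) n z hz hzx⟩, rfl, rfl⟩
    · -- closed
      refine LocallyFinite.isClosed_iUnion (fun u => ?_) fun j =>
        (sg st j).D_closed.inter Metric.isClosed_closedBall
      refine ⟨Metric.ball u 1, Metric.ball_mem_nhds u one_pos, ?_⟩
      obtain ⟨N, hN⟩ := exists_nat_gt (|u| + 2)
      refine (Set.finite_lt_nat N).subset fun j hj => ?_
      obtain ⟨w, ⟨_, hw1⟩, hw2⟩ := hj
      rw [Metric.mem_closedBall, Real.dist_eq] at hw1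
      rw [Metric.mem_ball, Real.dist_eq] at hw2
      have h1 := (sg st j).x0_large
      have h2 : |(sg st j).x0| ≤ |u| + 2 := by
        have e : (sg st j).x0 = u + (w - u) - (w - (sg st j).x0) := by ring
        rw [e]
        have a1 := abs_sub (u + (w - u)) (w - (sg st j).x0)
        have a2 := abs_add_le u (w - u)
        linarith
      have h3 : (j : ℝ) < 4 ^ j := by exact_mod_cast Nat.lt_pow_self (by norm_num : 1 < 4)
      have h4 : (j : ℝ) < N := by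
        have : (0 : ℝ) < 4 ^ j := by positivity
        linarith
      exact_mod_cast h4
    · exact Set.iUnion_subset fun j => Set.inter_subset_left.trans (sg st j).D_sub
    · refine Set.mem_iUnion.2 ⟨j, hx_mem j i, ?_⟩
      rw [Metric.mem_closedBall, Real.dist_eq]
      have h := (sg st j).T.x_near i
      rwa [hx0] at h
    · obtain ⟨j, _, hj⟩ := Set.mem_iUnion.1 hu
      refine ⟨j, ?_⟩
      rw [Metric.mem_closedBall, Real.dist_eq] at hj
      rw [hx0]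
      exact hj
    · rw [hx0]
      exact (sg st j).x0_large
    · rw [hx0]
      exact le_max_right _ _
    · rw [hx0]
      exact (sg st j).m_small
  have key : ∀ z : ℂ, z.im ≤ 0 → (∀ j i, z ≠ (D.x j i : ℂ)) →
      chi z (dv w1 f.2) = chi z D.f ^ 3 * (1 + Complex.I * z) ^ 2 := by
    intro z hz hzi
    rw [hDx] at hzi
    rw [hDf]
    have h1 : Tendsto (fun n => chiW w1 z (qs st (v n) n).2) atTop (𝓝 (chiW w1 z f.2)) :=
      ((chiW w1 z).continuous.tendsto _).comp hl2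
    have h2 : Tendsto (fun n => chi z (qs st (v n) n).1 ^ 3 * (1 + Complex.I * z) ^ 2) atTop
        (𝓝 (chi z f.1 ^ 3 * (1 + Complex.I * z) ^ 2)) :=
      ((((chi z).continuous.tendsto _).comp hl1).pow 3).mul_const _
    refine tendsto_nhds_unique h1 (h2.congr fun n => ?_)
    rw [chi_qs1 st hm2 (v n) n z hz hzi, chi_qs2 st hA6 (v n) n z hz hzi, chi_rr hz,
      chiW_rw isWeight_w1 hz]
    have h3 : 1 + Complex.I * z ≠ 0 := one_add_ne hz
    have gen : ∀ P : ℂ, (P * (1 / (1 + Complex.I * z))) ^ 3 * (1 + Complex.I * z) ^ 2 =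
        P ^ 3 * (1 / (1 + Complex.I * z)) := by
      intro P
      field_simp
    exact gen _
  refine ⟨D, f.2, gnf D.f _ fun z hz => ?_, key⟩
  refine key z hz.le fun j i hi => ?_
  rw [hi] at hz
  simp at hz

end

end Pool.Agent.WK7
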