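import Pool.Agent.WK7.Stmts
import Pool.Agent.Helper78_E.Neg2b
import Pool.Agent.Helper78_E.StarFar
import Pool.Agent.Helper78_E.LowFar
import Pool.Agent.WK5.Fin

/-!
# MP_7d2497_an, squad WK7: row XFR, necessity far out
-/

set_option autoImplicit false

namespace Pool.Agent.WK7

open MeasureTheory Filter Topology Complex
open Pool.Agent.H78E Pool.Agent.WKS Pool.Agent.WK5
open Pool.Agent.WK3 (QC Lin)

noncomputable section

theorem xfr (hW : WfrStmt) (hFB : FbfStmt) : XfrStmt := by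
  intro φ hφ hQ hNL L hE
  by_contra hcon
  unfold FarC at hcon
  push Not at hcon
  have hL : LapuStmt := H85.lapu
  have hR : ResidStmt := H13.resid
  have hA : AlgStmt := H85.alg
  have hD : DensStmt := H13.dens
  have hLow : LowFarStmt := lowFar
  have hStar : StarFarStmt := starFar
  obtain ⟨D, F, hFI, hFchi⟩ := hW L (fun R => by
    obtain ⟨K, h1, h2, h3, h4⟩ := hcon R
    exact ⟨K, h1, h2, h3, h4⟩)
  have hx10 : ∀ j, 10 ≤ |D.x j 0| := by
    intro j
    have h1 := D.x_large j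
    have h2 : (1 : ℝ) ≤ 4 ^ j := one_le_pow₀ (by norm_num)
    linarith
  obtain ⟨hl1, hl2, hl3⟩ := hLow L D
  have hLD : LowerData D.K D.f :=
    { closed := D.K_closed
      gap := by
        intro u hu
        obtain ⟨j, hj⟩ := D.K_near u hu
        have h1 := hx10 j
        have h2 : |D.x j 0| ≤ |u| + |u - D.x j 0| := by
          calc |D.x j 0| = |u - (u - D.x j 0)| := by ring_nf
            _ ≤ |u| + |u - D.x j 0| := abs_sub _ _
        linarith
      ne := hl1
      loc := hl2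
      glob := hl3 }
  set J := gen D.f with hJ
  set z : ℕ → ℂ := fun j => (D.x j 0 : ℂ) - Complex.I with hz
  have hzim : ∀ j, (z j).im = -1 := by
    intro j
    simp [hz]
  have hzneg : ∀ j, (z j).im < 0 := by
    intro j
    rw [hzim]
    norm_num
  have hzabs : ∀ j, |(z j).im| = 1 := by
    intro j
    rw [hzim, abs_neg, abs_one]
  set P1 : ℝ := ∫ t in Set.Ioi (0 : ℝ), φ (-t) * Real.exp (-((1 : ℝ) * t)) with hP1
  have hP1pos : 0 < P1 := by
    have := P_pos hφ (y := 1) one_pos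
    rw [div_one] at this
    exact lt_of_lt_of_le one_pos this
  have hfb : ∀ κ : J.Q →L[ℂ] ℂ, ∃ C : ℝ, ∀ j : ℕ, ‖κ (J.q (z j))‖ ≤ C * P1 := by
    intro κ
    obtain ⟨C, hC⟩ := hFB φ hφ hQ hNL L hE D F hFI hFchi κ
    refine ⟨C, fun j => ?_⟩
    have h1 := hC (z j) (hzneg j)
    rw [hzabs j] at h1
    exact h1
  obtain ⟨C, hC⟩ := norm_q_bound J z (fun _ => P1) (fun _ => hP1pos) hfb
  set C1 : ℝ := max (C * P1) 0 with hC1
  have hC10 : 0 ≤ C1 := le_max_right _ _
  set C2 : ℝ := (C1 + 1) * 2 + ‖rr‖ with hC2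
  have hrr : 0 ≤ ‖rr‖ := norm_nonneg _
  have hC20 : 0 < C2 := by positivity
  have key : ∀ j : ℕ, Real.exp ((j : ℝ) / 2) ≤ C2 := by
    intro j
    set B : ℝ := 2 + |D.x j 0| with hB'
    have hB2 : 2 ≤ B := by
      have := abs_nonneg (D.x j 0)
      linarith
    have hn1 : ‖1 + Complex.I * z j‖ ≤ B := by
      refine (norm_one_add_le _).trans ?_
      have h1 : ‖z j‖ ≤ |D.x j 0| + 1 := by
        simp only [hz]
        refine (norm_sub_le _ _).trans ?_
        rw [Complex.norm_real, Complex.norm_I, Real.norm_eq_abs]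
      linarith
    have hunit : IsUnit (J.S.D (z j)) := by
      apply J.D_unit hL hR hA hD
      intro hz2
      obtain ⟨x, _, hx3⟩ := hull_subset_far hLD J (self_mem_gen D.f) _ hz2
      have h1 := congrArg Complex.im hx3
      rw [Complex.ofReal_im] at h1
      have h2 := hzneg j
      linarith
    obtain ⟨v, hv1, hv2⟩ := J.exists_lift (J.q (z j)) one_pos
    set g : Y := v - (1 + Complex.I * z j) • YS.En 1 v - rr with hg
    have hgI : g ∈ J.I := by
      rw [← J.qm_eq_zero, hg, map_sub, map_sub, map_smul, sub_eq_zero, ← J.D_q hunit,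
        CSemi.D_apply, hv1]
      congr 2
      have h1 := J.qm_pi (fun s => Complex.exp (-((1 : ℂ) * (s : ℂ)))) v
      rw [hv1] at h1
      exact h1
    have hchi : chi (z j) g = -(1 / (1 + Complex.I * z j)) := by
      have hne := one_add_ne (hzneg j).le
      rw [hg, map_sub, map_sub, map_smul, chi_En_one (hzneg j).le, chi_rr (hzneg j).le,
        smul_eq_mul]
      field_simp
      ring
    have hst : ‖chi (z j) g‖ ≤ ‖g‖ * Real.exp (-(D.m j / 2)) := hStar L D g hgI j
    rw [hchi, norm_neg, norm_div, norm_one] at hst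
    have hnpos : 0 < ‖1 + Complex.I * z j‖ := norm_pos_iff.mpr (one_add_ne (hzneg j).le)
    have h1B : 1 / B ≤ 1 / ‖1 + Complex.I * z j‖ := one_div_le_one_div_of_le hnpos hn1
    have hEn : ‖YS.En 1 v‖ ≤ ‖v‖ := by
      have h1 := (YS.En 1).le_opNorm v
      have h2 := YS.En_norm (a := 1) (by simp)
      simp only [Complex.one_re, div_one] at h2
      calc ‖YS.En 1 v‖ ≤ ‖YS.En 1‖ * ‖v‖ := h1
        _ ≤ 1 * ‖v‖ := mul_le_mul_of_nonneg_right h2 (norm_nonneg _)
        _ = ‖v‖ := one_mul _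
    have hvn : ‖v‖ ≤ C1 + 1 := by
      have h1 := hC j
      have h2 : C * P1 ≤ C1 := le_max_left _ _
      linarith
    have hgn : ‖g‖ ≤ C2 * B := by
      have h1 : ‖g‖ ≤ ‖v‖ + ‖1 + Complex.I * z j‖ * ‖YS.En 1 v‖ + ‖rr‖ := by
        rw [hg]
        refine (norm_sub_le _ _).trans ?_
        refine add_le_add_left ((norm_sub_le _ _).trans ?_) _
        rw [norm_smul]
      have h2 : ‖1 + Complex.I * z j‖ * ‖YS.En 1 v‖ ≤ B * (C1 + 1) :=
        mul_le_mul hn1 (hEn.trans hvn) (norm_nonneg _) (by linarith)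
      have h3 : ‖v‖ ≤ B * (C1 + 1) := by
        nlinarith
      have h4 : ‖rr‖ ≤ ‖rr‖ * B := le_mul_of_one_le_right hrr (by linarith)
      calc ‖g‖ ≤ B * (C1 + 1) + B * (C1 + 1) + ‖rr‖ * B := by linarith
        _ = C2 * B := by rw [hC2]; ring
    have hBpos : 0 < B := by linarith
    have hmge : (j : ℝ) / 2 + 3 * Real.log B ≤ D.m j / 2 := by
      have := D.m_large j
      rw [← hB'] at this
      linarith
    have hexp : Real.exp (-(D.m j / 2)) ≤ Real.exp (-((j : ℝ) / 2)) * (B ^ 3)⁻¹ := by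
      have h1 : Real.exp (3 * Real.log B) = B ^ 3 := by
        rw [mul_comm, Real.exp_mul, Real.exp_log hBpos]
        norm_cast
      calc Real.exp (-(D.m j / 2)) ≤ Real.exp (-((j : ℝ) / 2 + 3 * Real.log B)) :=
            Real.exp_le_exp.mpr (by linarith)
        _ = _ := by
            rw [neg_add, Real.exp_add, Real.exp_neg (3 * Real.log B), h1]
    have hfin : 1 / B ≤ (C2 * B) * (Real.exp (-((j : ℝ) / 2)) * (B ^ 3)⁻¹) := by
      calc 1 / B ≤ ‖g‖ * Real.exp (-(D.m j / 2)) := h1B.trans hst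
        _ ≤ (C2 * B) * Real.exp (-(D.m j / 2)) :=
            mul_le_mul_of_nonneg_right hgn (Real.exp_pos _).le
        _ ≤ _ := mul_le_mul_of_nonneg_left hexp (by positivity)
    have h5 : Real.exp ((j : ℝ) / 2) * B ≤ C2 := by
      have h6 : (C2 * B) * (Real.exp (-((j : ℝ) / 2)) * (B ^ 3)⁻¹) =
          C2 / (Real.exp ((j : ℝ) / 2) * B ^ 2) := by
        rw [Real.exp_neg]
        have := (Real.exp_pos ((j : ℝ) / 2)).ne'
        field_simp
      rw [h6, div_le_div_iff₀ hBpos (by positivity)] at hfin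
      have h7 : Real.exp ((j : ℝ) / 2) * B * B ≤ C2 * B := by
        calc Real.exp ((j : ℝ) / 2) * B * B = 1 * (Real.exp ((j : ℝ) / 2) * B ^ 2) := by ring
          _ ≤ C2 * B := hfin
      exact le_of_mul_le_mul_right h7 hBpos
    have h8 := Real.exp_pos ((j : ℝ) / 2)
    nlinarith
  obtain ⟨n, hn⟩ := exists_nat_gt (2 * C2)
  have h1 := key n
  have h2 := Real.add_one_le_exp ((n : ℝ) / 2)
  linarith

end

end Pool.Agent.WK7
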