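import Pool.Agent.WK7.Uni
import Pool.Agent.WK7.Pol
import Pool.Agent.WK7.Tho
import Pool.Agent.WK7.Wfr
import Pool.Agent.WK7.Ca4
import Pool.Agent.WK7.Smf
import Pool.Agent.WK7.Fbf
import Pool.Agent.WK7.Xfr
import Pool.Agent.WK7.Lcw
import Pool.Agent.WK7.Paw
import Pool.Agent.WK7.Pbw
import Pool.Agent.Helper69_WK7.Rdw
import Pool.Agent.Helper69_WK7.Su7
import Pool.Agent.Helper10_WK7.Unk
import Pool.Agent.Helper15_WK7.UNQ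

/-!
# MP_7d2497_an, squad WK7: the theorems without hypotheses
-/

set_option autoImplicit false

namespace Pool.Agent.WK7

open MeasureTheory Filter Topology Complex
open Pool.Agent.H78E Pool.Agent.WK Pool.Agent.WK2
open Pool.Agent.WK3 (QC Lin IsSpec)

/-- XFR: necessity far out. -/
theorem xfr7 : XfrStmt := xfr (wfr tho) (fbf (smf ca4))

/-- SU7: splitting of the spectrum. -/
theorem su77 : Su7Stmt := su7 (lcw S69.rdw) (pbw paw) (H10.unk H15.unq)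

/-- THEOREM Z. -/
theorem zmain (φ : ℝ → ℝ) (hφ : IsWeight φ) (h : QC φ ∨ Lin φ) (L : Set ℝ) :
    PropertyE φ L ↔
      (Lin φ ∨ (∀ K ⊆ L, IsClosed K → K.Countable) ∨ (Big φ ∧ FarC L)) ∧
      ∀ K ⊆ L, K.Countable → IsSpec φ K → ∃ C : ℝ, Ineq φ K C :=
  thz xfr7 su77 φ hφ h L

/-- The uniform criterion. -/
theorem zuni (φ : ℝ → ℝ) (hφ : IsWeight φ) (L : Set ℝ)
    (h : QC φ ∨ Lin φ ∨ BddFin L ∨ Tendsto (fun t => φ (-t) / φ t) atTop (𝓝 0)) :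
    PropertyE φ L ↔
      (Lin φ ∨ (∀ K ⊆ L, IsClosed K → K.Countable) ∨ (Big φ ∧ FarC L)) ∧
      ∀ K ⊆ L, K.Countable → IsSpec φ K → ∃ C : ℝ, Ineq φ K C :=
  uni xfr7 su77 φ hφ L h

/-- The explicit criterion. -/
theorem zreg (φ : ℝ → ℝ) (hφ : IsWeight φ)
    (h : (QC φ ∧ Pool.Agent.WK6.Sml φ) ∨ (Reg φ ∧ (Lin φ ∨ (QC φ ∧ Big φ)))) (L : Set ℝ) :
    PropertyE φ L ↔ FarI φ L ∧ (Lin φ ∨
      (Pool.Agent.WK6.Sml φ ∧ (∀ K ⊆ L, IsClosed K → K.Countable) ∧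
        ∀ p ∈ L, Pool.Agent.WK4.NearI φ L p) ∨ (Big φ ∧ FarC L)) :=
  thz_reg xfr7 su77 φ hφ h L

/-- Weights bounded on the half-line. -/
theorem zbdd (φ : ℝ → ℝ) (hφ : IsWeight φ)
    (hb : ∃ C : ℝ, ∀ t : ℝ, 0 ≤ t → φ t ≤ C) (L : Set ℝ) :
    PropertyE φ L ↔ (∀ K ⊆ L, IsClosed K → K.Countable) ∨ (Big φ ∧ FarC L) :=
  thz_bdd xfr7 su77 φ hφ hb L

end Pool.Agent.WK7
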