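import Pool.Agent.WK7.Defs

/-!
# MP_7d2497_an, squad WK7: statements, with proofs in words

THEOREM Z. Let `φ` be a weight which on `[0,∞)` is quasi-concave (`QC φ`) or of at least linear
growth (`Lin φ`); nothing is assumed on the negative half-line. A set `L` has (E) iff
(i) `Lin φ`, or every closed subset of `L` is countable, or `log φ(-t) ≥ c √t` for large `t` with
some `c > 0` and for some `R` the closed subsets of `L \ (-R,R)` are countable; and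
(ii) `Ineq φ K C` for some `C`, for every countable `K ⊆ L` which is the spectrum of a simple
function.

Known: the criterion `WK3.main3` for sets with countable closed subsets, and `WK5.x5main`
(necessity of countability if `liminf log φ(-t)/√t = 0`). Missing: the case `Big φ`,
necessity of `FarC` (rows THO to XFR) and sufficiency (rows RDW to SU7).

The space `L^1_φ` of the half-line is `Y = L^1(0,∞)` with `dv φ F = F/φ` (`Helper67_WKS`).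
-/

set_option autoImplicit false

namespace Pool.Agent.WK7

open MeasureTheory Filter Topology Complex
open Pool.Agent.H78E Pool.Agent.WKS Pool.Agent.WK5
open Pool.Agent.WK3 (QC Lin)

noncomputable section

/-! ### Necessity: uncountable closed sets far out -/

/-- THO. One cluster, in a normed ring.

Proof. Copy `stepO` and `thinop` of `Helper34_E/ThinOp.lean` with a complete normed ring `R` in
place of `Y →L[ℂ] Y` (exactly as `WK5/Thg.lean` does for the thin construction of `Thin.lean`: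
`VPW`-free, only `norm_mul_le` and the two closeness properties of `FClose` are used; `Mo A m0 n s`
is `MoR A m0 n (fun i => (s i).1) (fun i => (s i).2)`). The last field (`chi_Mn`) is not needed:
`Mn n = MoR A m0 n x e` by definition. -/
def ThoStmt : Prop :=
  ∀ (R : Type) [NormedRing R] [CompleteSpace R] (A : ℝ → ℝ → ℝ → R), FClose A →
    ∀ K : Set ℝ, Preperfect K → ∀ x0 m0 η : ℝ, x0 ∈ K → 0 < m0 → 0 < η →
      Nonempty (ThinG A K x0 m0 η)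

/-- WFR. The far element, weighted (uses THO; FACT2 `H34.fact2`; `fc2` of `WK7/Fc2.lean`; GNF
`WK5.gnf`).

Proof. Copy `Helper34_E/Far.lean` for pairs. `A2` from `H34.fact2`, `A6` from `fc2`,
`R = (Y →L[ℂ] Y) × (Y →L[ℂ] Y)`, `A x m e = (A2 x m e, A6 x m e)`, `FClose A` by
`WK5.WTH9.fclose_prod`. The vectors are pairs `p = (p1, p2) ∈ Y × Y`, `M p = (M.1 p1, M.2 p2)`,
start `(rr, rw' w1)`. `exists_stage`: take `δ` for `p1` (last part of FACT2) and for `p2` (last part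
of `fc2`), THO with `η = 2^(-j)/(1 + ‖p1‖ + ‖p2‖)`. The limits are `f = D.f` and `F`. Choose `v n` so
that both components of the approximation are within `2^(-n)`. The multipliers: for `Im z ≤ 0`,
`z ≠ x j i`: `chi z (fn n) = (∏∏ mult) chi z rr` (field `chi_fn`) and
`chiW w1 z (Fn n) = (∏∏ mult)^3 chiW w1 z (rw' w1) = (∏∏ mult)^3/(1+iz)`, that is
`(chi z (fn n))^3 (1+iz)^2` (`chi_rr`, `chiW_rw`; `WTH9.mult_prod`, `H34.lev_prod`); let `n → ∞`, as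
in `WK5/Wth.lean`. `dv w1 F ∈ (gen D.f).I`: `WK5.gnf` (`Im z < 0` is never a point `x j i`). -/
def WfrStmt : Prop :=
  ∀ L : Set ℝ, (∀ R : ℝ, ∃ K ⊆ L, (∀ x ∈ K, R ≤ |x|) ∧ IsClosed K ∧ ¬ K.Countable) →
    ∃ (D : FarData L) (F : Y), dv w1 F ∈ (gen D.f).I ∧
      ∀ z : ℂ, z.im ≤ 0 → (∀ j i, z ≠ (D.x j i : ℂ)) →
        chi z (dv w1 F) = chi z D.f ^ 3 * (1 + Complex.I * z) ^ 2

/-- CA4. As CA2 (`Helper92_E/Ca2.lean`), with a weaker bound above the real line.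

Proof. The proof of CA2 with the bound `M/Im z + M/(Im z)^2` above the line: as in the passage from
`Helper92_E/Ca.lean` to `WK5/Ca3.lean`, the polynomial bounds get a higher degree, so one gets
`ψ z = ∑_(1 ≤ k ≤ 4) c_k (z - x0)^(-k)` (the part at infinity vanishes as in CA2: `ψ → 0` along
`iy`, `y → ∞`), and the second hypothesis (`|ψ(x0+iy)| ≤ ε/y^2`) gives `c_4 = c_3 = c_2 = 0`. -/
def CA4Stmt : Prop :=
  ∀ (ψ : ℂ → ℂ) (x0 M : ℝ),
    DifferentiableOn ℂ ψ {z : ℂ | z ≠ (x0 : ℂ)} →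
    (∀ z : ℂ, 0 < z.im → ‖ψ z‖ ≤ M / z.im + M / z.im ^ 2) →
    (∀ ε : ℝ, 0 < ε → ∃ δ : ℝ, 0 < δ ∧ ∀ y : ℝ, 0 < y → y < δ →
      ‖ψ ((x0 : ℂ) + Complex.I * (y : ℂ))‖ ≤ ε / y ^ 2) →
    (∀ η r : ℝ, 0 < η → ∃ C : ℝ, ∀ z : ℂ, z.im < 0 → ‖z‖ ≤ r →
      ‖ψ z‖ ≤ C * Real.exp (η / |z.im|)) →
    (∃ C : ℝ, ∀ z : ℂ, z.im < 0 →
      ‖ψ z‖ ≤ Real.exp (C * Real.sqrt (1 + ‖z‖) * (1 + 1 / |z.im|))) →
    ∃ c : ℂ, ∀ z : ℂ, z ≠ (x0 : ℂ) → ψ z = c / (z - (x0 : ℂ))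

/-- SMF. Functionals with one-point spectrum (uses CA4; LBW `WK5.H15.lbw`; compare `WK5/Smw.lean`
and `simple_far` in `Helper78_E/Neg2b.lean`).

Proof. As `WK5.smw` with CA4 in place of CA3: the part above the real line and the conclusion are
word by word the same; below the line `q_bound` of `WK5/Smw.lean` with
`|chiW φ z Fφ| |1+iz| = (|chi z f0| |1+iz|)^3`, which is at least `c^3 exp(-3η/|Im z|)` for
`|z| ≤ r` (`LowerData.loc`), and at least `exp(-3 C √(1+|z|) (1+1/|Im z|))` (`LowerData.glob`); the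
two estimates of `ψ` follow as `hii`, `hiii` in `simple_far`. -/
def SmfStmt : Prop :=
  ∀ (φ : ℝ → ℝ) (hφ : IsWeight φ), QC φ → ¬ Lin φ → ∀ (K : Set ℝ) (f0 : Y), LowerData K f0 →
    ∀ Fφ : Y, (∀ z : ℂ, z.im < 0 → chiW φ z Fφ = chi z f0 ^ 3 * (1 + Complex.I * z) ^ 2) →
    ∀ k : Y →L[ℂ] ℂ, Fφ ∈ (annW hφ k).I → ∀ x0 : ℝ, (annW hφ k).hull ⊆ {(x0 : ℂ)} →
      ∃ c : ℂ, k = c • chiW φ (x0 : ℂ)

/-- FBF. The main estimate (uses SMF).

Proof. `functional_bound_far` of `Helper78_E/Neg2b.lean` with the changes of `WK5/Fbw.lean`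
(`functional_boundW`): `k = κ.comp J.qm` is a bounded function `h`, hence in `L^∞_φ`; its weighted
spectrum is contained in `D.K`, it is simple by SMF (`Fφ` from `WK5.exists_change`), so (E) gives the
extension; the connected domain is `{Im > 0} ∪ ball 0 1 ∪ {Im < 0}`. The hull of a functional
annihilated by `Fφ` is in `D.K`: for `z ≠ x j i` as `chiW φ z Fφ = chi z D.f ^ 3 (1+iz)^2`
and `chi z D.f ≠ 0` off `D.K` (LowFar), and `x j i ∈ D.K`. -/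
def FbfStmt : Prop :=
  ∀ φ : ℝ → ℝ, IsWeight φ → QC φ → ¬ Lin φ → ∀ L : Set ℝ, PropertyE φ L →
    ∀ (D : FarData L) (F : Y), dv w1 F ∈ (gen D.f).I →
    (∀ z : ℂ, z.im ≤ 0 → (∀ j i, z ≠ (D.x j i : ℂ)) →
      chi z (dv w1 F) = chi z D.f ^ 3 * (1 + Complex.I * z) ^ 2) →
    ∀ κ : (gen D.f).Q →L[ℂ] ℂ, ∃ C : ℝ, ∀ z : ℂ, z.im < 0 → ‖κ ((gen D.f).q z)‖ ≤
      C * ∫ t in Set.Ioi (0 : ℝ), φ (-t) * Real.exp (-(|z.im| * t))

/-- XFR. Necessity far out (uses WFR, FBF; `lowFar`, `starFar` of `Helper78_E`).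

Proof. `neg2b` of `Helper78_E/Neg2b.lean` with WFR in place of FAR and FBF in place of
`functional_bound_far`, as `WK5/Fin.lean` for `neg2a`. -/
def XfrStmt : Prop :=
  ∀ φ : ℝ → ℝ, IsWeight φ → QC φ → ¬ Lin φ → ∀ L : Set ℝ, PropertyE φ L → FarC L

/-! ### Sufficiency: the bounded part of the spectrum -/

/-- RDW. As RAD (`Helper61_E/Rad.lean`), weighted.

Proof. `chiW φ z f = chi z (dv φ f)` and `‖dv φ f‖ ≤ ‖f‖`, so the lemmas of `Rad.lean` can be used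
for `dv φ f`. Suppose the contrary for `x0, a`; then `dv φ f ∈ WW x0 a` for all `f ∈ (annW hφ l).I`
(`pl`). `W = (WW x0 a).comap (dv φ)` is closed and invariant (`dv_YW`, `WW_inv`), so an `ISub φ`,
`J`. `sepW hφ x0 ∉ W` as `dv φ (sepW hφ x0)` and `sep x0` have the same transform (`chiW_sep`,
`chi_sep`), `lapu`, `sep_notMem`. Take `ψ ∈ J.Q'` with `ψ (J.qm (sepW hφ x0)) ≠ 0` and
`k = ψ.comp J.qm`: it vanishes on `W ⊇ (annW hφ l).I`. The hull of `k` is in `{x0}`: with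
`A` from `WK7.fc2` and `G ∈ Y`, `dv φ G = dv w1 (A x0 (a/3) 1 (rw' w1))` (`WK5.exists_change`), the
transform is `mult x0 (a/3) 1 z ^ 3 / (1+iz)`, which is not zero for `z ≠ x0`, and
`dv φ G ∈ WW x0 a` (as `fact_mem`: `|mult^3| ≤ exp(-a Re ζ)`). The hull is not empty by
`WKS.ne_of_simple` (if `= ∅` then `k = 0`). So `k = c • chiW φ z'` by simplicity, `z' = x0` and
`k (sepW hφ x0) = 0`, a contradiction, as at the end of `rad`. -/
def RdwStmt : Prop :=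
  ∀ (φ : ℝ → ℝ) (hφ : IsWeight φ), QC φ → ∀ l : Y →L[ℂ] ℂ, SimW hφ l → ∀ x0 : ℝ,
    (x0 : ℂ) ∈ (annW hφ l).hull → ∀ a : ℝ, 0 < a → ∃ f ∈ (annW hφ l).I, ∃ y : ℝ, 0 < y ∧
      ‖f‖ * Real.exp (-(a / y)) < ‖chiW φ ((x0 : ℂ) - Complex.I * (y : ℂ)) f‖

/-- LCW. As LOC (`Helper78_E/Loc.lean`), weighted (uses RDW; LBW `WK5.H15.lbw`; HARN
`H51.harn`).

Proof. Word by word as `loc`, with `chiW φ u f / ‖f‖` (at most `1`, as `‖chiW φ u f‖ ≤ ‖f‖`) and LBW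
in place of LBD (a constant `C` more). -/
def LcwStmt : Prop :=
  ∀ (φ : ℝ → ℝ) (hφ : IsWeight φ), QC φ → ∀ l : Y →L[ℂ] ℂ, SimW hφ l → ∀ x0 : ℝ,
    (x0 : ℂ) ∈ (annW hφ l).hull → ∀ a : ℝ, 0 < a → (∀ z ∈ (annW hφ l).hull, z.im = 0) →
    ∃ d B : ℝ, 0 < d ∧ 0 ≤ B ∧ ∀ z : ℂ, z.im < 0 → ‖z - (x0 : ℂ)‖ < d →
      ‖((annW hφ l).S hφ).En 1 * Ring.inverse (((annW hφ l).S hφ).D z)‖ ≤
        B * Real.exp (a / |z.im|)

/-- PAW. The operators `EcW` and the vectors `XiW` (compare `Helper92_E/Pos2a.lean`, `Pos2b.lean`;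
RIEC: `H51.riec`).

Proof. `Pos2a.lean` and the first part of `Pos2b.lean` with `J.S hφ` in place of `J.S`, `H65.qW hφ J` in
place of `J.q`, `chiW`, `convW`, `rw' φ` in place of `chi`, `conv`, `rr`; the lemmas on the
semigroup are in `Helper67_WKS/{Semi,Quot,Res}.lean` (`hasDerivAt_T_En`, `resid`, `D_unit`,
`T_commute_En`, `ch_En`) and `WK5/Smw.lean` (`D_q`, `q_differentiableAt`). -/
def PawStmt : Prop :=
  ∀ (φ : ℝ → ℝ) (hφ : IsWeight φ) (J : ISub φ) (ρ1 ρ : ℝ), CircW hφ J ρ1 ρ →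
    Continuous (XiW hφ J ρ) ∧
    (∀ s v : ℝ, 0 ≤ v → (J.S hφ).T v (XiW hφ J ρ s) = XiW hφ J ρ (s + v)) ∧
    (∀ s t : ℝ, EcW hφ J ρ s * EcW hφ J ρ t = EcW hφ J ρ (s + t)) ∧
    (∀ (s v : ℝ) (x : J.Q), 0 ≤ v → (J.S hφ).T v (EcW hφ J ρ s x) = EcW hφ J ρ (s + v) x) ∧
    (∀ (s v : ℝ) (x : J.Q), 0 ≤ v → EcW hφ J ρ s ((J.S hφ).T v x) = EcW hφ J ρ (s + v) x) ∧
    (∀ (F : Y) (s : ℝ), (J.S hφ).pi ((dv φ F : X) : ℝ → ℂ) (XiW hφ J ρ s) =
      EcW hφ J ρ s (J.qm F)) ∧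
    (∀ s t : ℝ, EcW hφ J ρ s (XiW hφ J ρ t) = XiW hφ J ρ (s + t)) ∧
    (∀ (x : ℝ) (hx : (x : ℂ) ∈ J.hull) (s : ℝ), J.ch hx (XiW hφ J ρ s) =
      if |x| < ρ then Complex.exp (-(Complex.I * (s : ℂ) * (x : ℂ))) else 0) ∧
    (∀ (x : ℝ) (hx : (x : ℂ) ∈ J.hull) (s : ℝ) (y : J.Q), J.ch hx (EcW hφ J ρ s y) =
      (if |x| < ρ then Complex.exp (-(Complex.I * (s : ℂ) * (x : ℂ))) else 0) * J.ch hx y)

/-- PBW. Growth of the vectors `XiW` (uses PAW; GRO `H51.gro`).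

Proof. `Xi_neg`, `q_bound_disc` of `Pos2b.lean` and `Xi_weight` of `Pos2.lean`, weighted. For
`t ≥ 0`: `‖XiW t‖ = ‖T_t (XiW 0)‖ ≤ φ t ‖XiW 0‖` (PAW). For `t < 0`: GRO for `κ (H65.qW hφ J z)`,
`a = c^2/4`, so `exp(2 √(a|t|)) = exp(c √|t|) ≤ C φ t`. -/
def PbwStmt : Prop :=
  ∀ (φ : ℝ → ℝ) (hφ : IsWeight φ) (J : ISub φ) (ρ1 ρ c T : ℝ), CircW hφ J ρ1 ρ → 0 < c →
    (∀ t : ℝ, T ≤ t → c * Real.sqrt t ≤ Real.log (φ (-t))) → (∀ z ∈ J.hull, z.im = 0) →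
    (∀ x0 : ℝ, (x0 : ℂ) ∈ J.hull → ∃ d B : ℝ, 0 < d ∧ 0 ≤ B ∧ ∀ z : ℂ, z.im < 0 →
      ‖z - (x0 : ℂ)‖ < d → ‖(J.S hφ).En 1 * Ring.inverse ((J.S hφ).D z)‖ ≤
        B * Real.exp (c ^ 2 / 4 / |z.im|)) →
    ∃ C : ℝ, 0 ≤ C ∧ ∀ t : ℝ, ‖XiW hφ J ρ t‖ ≤ C * φ t

/-- UNQ. A function with a gap in the spectrum is determined by its values on the half-line.

Proof. `K` from LINE (`Helper15_E.line bipolar`) is analytic off `Spec φ G`, zero above the real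
line; `Spec φ G` is closed (`(spc φ ...)`, or by `mem_Spec` of `Helper78_E/SpecL.lean`), so `K` is
analytic on `{Im > 0} ∪ ball x r ∪ {Im < 0}` for some real `x`, hence zero there (identity
theorem, as in `functional_bound_far` of `Neg2b.lean`). So `∫_(t<0) G t exp(izt) dt = 0` for
`Im z < 0`; reflection `t → -t` and `H85.lapu` for `t ↦ G(-t) exp(-t)`. -/
def UnqStmt : Prop :=
  ∀ φ : ℝ → ℝ, IsWeight φ → ∀ G : ℝ → ℂ, LInf φ G → Spec φ G ≠ Set.univ →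
    (∀ᵐ t : ℝ, 0 ≤ t → G t = 0) → G =ᵐ[volume] 0

/-- UNK. Functions killing the right translates kill all translates (uses UNQ).

Proof. Let `f` be `dv φ F` (in `L1 φ`, zero for `t < 0`), `u s = ∫ f(t) G(t+s) dt`:
`|u s| ≤ C ‖f‖ φ s`, `u` is continuous (translation is continuous in `L^1_φ` of the line; or
`u s = ∫ f(t-s) G(t) dt` and approximation of `f` by continuous functions of compact support),
`u s = 0` for `s ≥ 0`. `Spec φ u ⊆ Spec φ G`: if `h ∈ L1 φ` with `∫ h(t) G(t+s) dt = 0` for all `s`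
then `∫ h(t) u(t+s) dt = 0` (Fubini), so by bipolarity (`mem_Spec` of `Helper78_E/SpecL.lean`)
`x ∈ Spec φ u` implies `FT h x = 0` for all such `h`, `x ∈ Spec φ G`. UNQ: `u = 0` a.e., so
everywhere. -/
def UnkStmt : Prop :=
  ∀ φ : ℝ → ℝ, IsWeight φ → ∀ G : ℝ → ℂ, LInf φ G → Spec φ G ≠ Set.univ → ∀ F : Y,
    (∀ s : ℝ, 0 ≤ s → ∫ t : ℝ, ((dv φ F : X) : ℝ → ℂ) t * G (t + s) = 0) →
    ∀ s : ℝ, ∫ t : ℝ, ((dv φ F : X) : ℝ → ℂ) t * G (t + s) = 0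

/-- SU7. Splitting of the spectrum (uses LCW, PAW, PBW, UNK; compare `pos2` in
`Helper92_E/Pos2.lean` and `Pos2d.lean`).

Proof. `g` simple, `SpecPos φ g = rc K`, `K ⊆ L` closed, `l` its functional (`exists_functionalW`),
`J = annW hφ l`, `J.hull = rc K` (`specPos_eqW`), `SimW hφ l` (as `hsimp` in `WKS.syn`).
(1) `exists_circle` (`Pos2.lean`): `ρ1 < ρ`, `ρ > max R 1`, no point of `K` with `ρ1 ≤ |x| ≤ ρ`; so
`CircW hφ J ρ1 ρ` (`D_unit`). Put `ξ t = XiW hφ J ρ t`, `P = EcW hφ J ρ 0` (a projection commuting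
with `T_v`), `Gb t = kqW hφ l (ξ t)`; `|Gb| ≤ C φ`, continuous (PAW, PBW, LCW with `a = c^2/4`).
(2) For `F ∈ Y`, `s ∈ ℝ`: `∫ (dv φ F)(t) Gb(t+s) dt = kqW (EcW s (J.qm F))` (PAW, as `rep_b`).
(3) `lf = l - kqW ∘ P ∘ qm`. `F ∈ (annW hφ lf).I` iff `P (qm F) = qm F` (`mem_ann_comp`), so
`J.I ≤ (annW hφ lf).I`, `lf` is simple in the same sense, and `(annW hφ lf).hull` is the set of the
`x ∈ K`, `|x| > ρ` (`x` with `|x| < ρ` is excluded by a lift `F0` of `ξ 0`, `P ξ 0 = ξ 0`,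
`ch (ξ 0) = 1`; if `|x| > ρ` and `P (qm F) = qm F` then `chiW φ x F = ch (P (qm F)) = 0`).
(4) `gf = g - Gb` on `t ≥ 0`, zero for `t < 0`, is in `LInfPos φ` and represents `lf`
(`RepW`). `SpecPos φ gf = (annW hφ lf).hull`, contained in `{x ∈ L | R ≤ |x|}`; `SimpleSpec φ gf`
(`mem_BPos_iffW`, `exists_functionW`, `J.I ≤ (annW hφ lf).I`). If the hull of `lf` is empty then
`lf = 0` (`ne_of_simple`) and `Gf = 0`; otherwise `Gf` is the extension of `gf` by the last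
hypothesis, `rc (Spec φ Gf) = SpecPos φ gf`. In both cases `Spec φ Gf ≠ univ`, so by UNK
every `F ∈ (annW hφ lf).I` has `∫ (dv φ F)(t) Gf(t+s) dt = 0` for all real `s`.
(5) `G = Gb + Gf`: in `LInf φ`, equal to `g` a.e. on `t ≥ 0`. `rc (Spec φ G) ⊆ J.hull`: every
`F ∈ J.I` kills all translates of `G` ((2) and (4)). Conversely let `x ∈ K` and `f ∈ L1 φ`
(two-sided), `∫ f(t) G(t+s) dt = 0` for all `s`, and `ζ = ∫ f(t) ξ(t) dt ∈ J.Q`. With `F0` from (3),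
`F0 ∈ (annW hφ lf).I`: `0 = ∫ (dv φ F0)(v) ∫ f(t) G(t+s+v) dt dv = ∫ f(t) kqW (EcW (t+s) (ξ 0)) dt =
∫ f(t) kqW (ξ (t+s)) dt = kqW (T_s ζ)` for `s ≥ 0` (Fubini, (2), (4)), so `ζ = 0` (`sep0`). If
`|x| < ρ`: `FT f x = ch ζ = 0`. So `f` kills `Gb` and all its translates (apply this to
`f(· - s)`), hence `Gf` and its translates, and for `|x| > ρ`, `x ∈ Spec φ Gf` gives `FT f x = 0`. So
`x ∈ Spec φ G` (`mem_Spec`). -/
def Su7Stmt : Prop :=
  ∀ φ : ℝ → ℝ, IsWeight φ → QC φ → Big φ → ∀ (L : Set ℝ) (R : ℝ),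
    (∀ K ⊆ L, (∀ x ∈ K, R ≤ |x|) → IsClosed K → K.Countable) →
    PropertyE φ {x | x ∈ L ∧ R ≤ |x|} → PropertyE φ L

end

end Pool.Agent.WK7
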