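import Pool.Agent.WK7.Fin
import Pool.Agent.WK.Fin

/-!
# MP_7d2497_an, squad WK7: the uniform criterion

The criterion of Theorem Z also holds for all weights if `L` has no infinite bounded closed
subset, and for all `L` if `φ(-t) = o(φ(t))`.
-/

set_option autoImplicit false

namespace Pool.Agent.WK7

open MeasureTheory Filter Topology Complex
open Pool.Agent.H78E Pool.Agent.WK Pool.Agent.WK2
open Pool.Agent.WK3 (QC Lin IsSpec)

noncomputable section

/-! ### Nice sets are spectra of simple functions -/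

theorem norm_ex (x s : ℝ) : ‖Complex.exp (-(Complex.I * (s : ℂ) * (x : ℂ)))‖ = 1 := by
  rw [Complex.norm_exp]
  simp

/-- Uniqueness for absolutely convergent sums of exponentials on the half-line. -/
theorem bohr {K : Set ℝ} (hK : K.Countable) (a : K → ℂ) (ha : Summable fun x => ‖a x‖)
    (h : ∀ s : ℝ, 0 ≤ s → ∑' x : K, a x * Complex.exp (-(Complex.I * (s : ℂ) * ((x : ℝ) : ℂ))) = 0)
    (y : K) : a y = 0 := by
  have : Countable K := hK.to_subtype
  -- the Laplace means
  have hL : ∀ e : ℝ, 0 < e → ∑' x : K, a x * ((e : ℂ) / ((e : ℂ) +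
      Complex.I * (((x : ℝ) : ℂ) - ((y : ℝ) : ℂ)))) = 0 := by
    intro e he
    have hint : ∀ x : K, ∫ s in Set.Ioi (0 : ℝ), (a x *
        Complex.exp (-(Complex.I * (s : ℂ) * ((x : ℝ) : ℂ)))) *
        Complex.exp (-((e : ℂ) - Complex.I * ((y : ℝ) : ℂ)) * (s : ℂ)) =
        a x * (1 / ((e : ℂ) + Complex.I * (((x : ℝ) : ℂ) - ((y : ℝ) : ℂ)))) := by
      intro x
      have h1 : ∀ s : ℝ, (a x * Complex.exp (-(Complex.I * (s : ℂ) * ((x : ℝ) : ℂ)))) *
          Complex.exp (-((e : ℂ) - Complex.I * ((y : ℝ) : ℂ)) * (s : ℂ)) =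
          a x * Complex.exp (-((e : ℂ) + Complex.I * (((x : ℝ) : ℂ) - ((y : ℝ) : ℂ))) * (s : ℂ)) := by
        intro s
        rw [mul_assoc, ← Complex.exp_add]
        congr 2
        ring
      simp_rw [h1]
      rw [integral_const_mul]
      congr 1
      have hre : 0 < ((e : ℂ) + Complex.I * (((x : ℝ) : ℂ) - ((y : ℝ) : ℂ))).re := by
        simp [he]
      have h2 := integral_exp_mul_complex_Ioi (a := -((e : ℂ) + Complex.I *
        (((x : ℝ) : ℂ) - ((y : ℝ) : ℂ)))) (by simpa using hre) 0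
      rw [h2, Complex.ofReal_zero, mul_zero, Complex.exp_zero, neg_div_neg_eq]
    have hnorm : ∀ (x : K) (s : ℝ), ‖(a x * Complex.exp (-(Complex.I * (s : ℂ) * ((x : ℝ) : ℂ)))) *
        Complex.exp (-((e : ℂ) - Complex.I * ((y : ℝ) : ℂ)) * (s : ℂ))‖ =
        ‖a x‖ * Real.exp (-e * s) := by
      intro x s
      rw [norm_mul, norm_mul, norm_ex, mul_one, Complex.norm_exp]
      congr 2
      simp
    have hei : IntegrableOn (fun s : ℝ => Real.exp (-e * s)) (Set.Ioi 0) :=
      exp_neg_integrableOn_Ioi 0 he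
    have hsum := hasSum_integral_of_summable_integral_norm
      (μ := volume.restrict (Set.Ioi (0 : ℝ)))
      (F := fun (x : K) (s : ℝ) => (a x * Complex.exp (-(Complex.I * (s : ℂ) * ((x : ℝ) : ℂ)))) *
        Complex.exp (-((e : ℂ) - Complex.I * ((y : ℝ) : ℂ)) * (s : ℂ))) ?_ ?_
    · have h3 : ∫ s in Set.Ioi (0 : ℝ), ∑' x : K,
          (a x * Complex.exp (-(Complex.I * (s : ℂ) * ((x : ℝ) : ℂ)))) *
          Complex.exp (-((e : ℂ) - Complex.I * ((y : ℝ) : ℂ)) * (s : ℂ)) = 0 := by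
        rw [setIntegral_congr_fun (g := fun _ => (0 : ℂ)) measurableSet_Ioi]
        · simp
        · intro s hs
          simp only
          rw [tsum_mul_right, h s (le_of_lt hs), zero_mul]
      have h4 := hsum.tsum_eq
      rw [h3] at h4
      simp_rw [hint] at h4
      have h5 : ∀ x : K, a x * ((e : ℂ) / ((e : ℂ) +
          Complex.I * (((x : ℝ) : ℂ) - ((y : ℝ) : ℂ)))) =
          (e : ℂ) * (a x * (1 / ((e : ℂ) + Complex.I * (((x : ℝ) : ℂ) - ((y : ℝ) : ℂ))))) := by
        intro x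
        ring
      simp_rw [h5]
      rw [tsum_mul_left, h4, mul_zero]
    · intro x
      refine (hei.const_mul ‖a x‖).mono' (by fun_prop) (ae_of_all _ fun s => ?_)
      rw [hnorm x s]
    · simp_rw [hnorm]
      simp_rw [integral_const_mul]
      exact ha.mul_right _
  have hbd : ∀ (e : ℝ), 0 < e → ∀ x : K,
      ‖a x * ((e : ℂ) / ((e : ℂ) + Complex.I * (((x : ℝ) : ℂ) - ((y : ℝ) : ℂ))))‖ ≤ ‖a x‖ := by
    intro e he x
    rw [norm_mul]
    refine mul_le_of_le_one_right (norm_nonneg _) ?_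
    rw [norm_div]
    refine div_le_one_of_le₀ ?_ (norm_nonneg _)
    calc ‖(e : ℂ)‖ = |((e : ℂ) + Complex.I * (((x : ℝ) : ℂ) - ((y : ℝ) : ℂ))).re| := by
          simp
      _ ≤ _ := Complex.abs_re_le_norm _
  have hlim : ∀ x : K, Tendsto (fun e : ℝ => a x * ((e : ℂ) / ((e : ℂ) +
      Complex.I * (((x : ℝ) : ℂ) - ((y : ℝ) : ℂ))))) (𝓝[>] 0) (𝓝 (if x = y then a x else 0)) := by
    intro x
    by_cases hxy : x = y
    · subst hxy
      rw [if_pos rfl]
      refine tendsto_const_nhds.congr' ?_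
      filter_upwards [self_mem_nhdsWithin] with e he
      have he' : (e : ℂ) ≠ 0 := by
        exact_mod_cast (ne_of_gt (Set.mem_Ioi.1 he))
      rw [sub_self, mul_zero, add_zero, div_self he', mul_one]
    · rw [if_neg hxy]
      have hne : ((x : ℝ) : ℂ) - ((y : ℝ) : ℂ) ≠ 0 := by
        rw [sub_ne_zero]
        intro h1
        exact hxy (Subtype.ext (Complex.ofReal_injective h1))
      have h1 : Tendsto (fun e : ℝ => (e : ℂ)) (𝓝[>] 0) (𝓝 0) := by
        have := (Complex.continuous_ofReal.tendsto 0).mono_left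
          (nhdsWithin_le_nhds (s := Set.Ioi (0 : ℝ)))
        simpa using this
      have h2 : Tendsto (fun e : ℝ => (e : ℂ) + Complex.I * (((x : ℝ) : ℂ) - ((y : ℝ) : ℂ)))
          (𝓝[>] 0) (𝓝 (0 + Complex.I * (((x : ℝ) : ℂ) - ((y : ℝ) : ℂ)))) :=
        h1.add tendsto_const_nhds
      have h3 := (h1.div h2 (by
        rw [zero_add]
        exact mul_ne_zero Complex.I_ne_zero hne)).const_mul (a x)
      rwa [zero_div, mul_zero] at h3
  have hT := tendsto_tsum_of_dominated_convergence ha hlim (by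
    filter_upwards [self_mem_nhdsWithin] with e he
    exact hbd e he)
  have hz : (fun e : ℝ => ∑' x : K, a x * ((e : ℂ) / ((e : ℂ) +
      Complex.I * (((x : ℝ) : ℂ) - ((y : ℝ) : ℂ))))) =ᶠ[𝓝[>] 0] fun _ => (0 : ℂ) := by
    filter_upwards [self_mem_nhdsWithin] with e he
    exact hL e he
  have h0 := tendsto_nhds_unique (hT.congr' hz) tendsto_const_nhds
  rw [tsum_eq_single y (fun x hx => if_neg hx), if_pos rfl] at h0
  exact h0

/-- A function whose transform has no zeros in the closed lower half-plane. -/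
theorem exists_lp {φ : ℝ → ℝ} (hφ : IsWeight φ) :
    ∃ f : ℝ → ℂ, LP φ f ∧ ∀ z : ℂ, z.im ≤ 0 → FT f z ≠ 0 := by
  have hL1 : L1 φ (expPos (-Complex.I)) := by
    have hm : Measurable (expPos (-Complex.I)) := by
      unfold expPos
      refine Measurable.ite measurableSet_Ici ?_ measurable_const
      exact Continuous.measurable (by fun_prop)
    refine ⟨hm.aestronglyMeasurable, ?_⟩
    refine (Pool.Agent.Helper15_E.integrable_weight hφ one_pos).mono'
      (hφ.meas.aestronglyMeasurable.mul hm.aestronglyMeasurable.norm) ?_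
    refine Eventually.of_forall fun t => ?_
    rw [norm_mul, norm_norm, Real.norm_of_nonneg (Pool.Agent.WKS.one_le_max_zero hφ t).le]
    refine mul_le_mul_of_nonneg_left ?_ (Pool.Agent.WKS.one_le_max_zero hφ t).le
    unfold expPos
    split_ifs with h
    · rw [Complex.norm_exp, one_mul, abs_of_nonneg h]
      simp
    · rw [norm_zero]
      exact (Real.exp_pos _).le
  have h0 : ∀ t : ℝ, t < 0 → expPos (-Complex.I) t = 0 := by
    intro t ht
    unfold expPos
    rw [if_neg (not_le.mpr ht)]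
  obtain ⟨F, hF⟩ := Pool.Agent.WKS.toYW hφ hL1 (Eventually.of_forall h0)
  refine ⟨expPos (-Complex.I), ⟨hL1, h0⟩, fun z hz => ?_⟩
  have e : Pool.Agent.WKS.dv φ F = rr := by
    apply Subtype.ext
    apply Lp.ext
    exact hF.trans rr_coe.symm
  rw [← Pool.Agent.WK.H18.chiW_FT hz hF h0, Pool.Agent.WKS.chiW_apply, e, chi_rr hz]
  exact one_div_ne_zero (one_add_ne hz)

/-- A nonempty nice set is the spectrum of a simple function. -/
theorem nice_isSpec {φ : ℝ → ℝ} (hφ : IsWeight φ) {K : Set ℝ} (hK : Nice φ K)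
    (hne : K.Nonempty) : IsSpec φ K := by
  have hcK : Countable K := hK.countable.to_subtype
  let _ : Encodable K := Encodable.ofCountable K
  obtain ⟨c, hc⟩ : ∃ c : K → ℂ, c = fun x => (((1 / 2 : ℝ) ^ Encodable.encode x : ℝ) : ℂ) :=
    ⟨_, rfl⟩
  have hc0 : ∀ x, c x ≠ 0 := by
    intro x
    rw [hc]
    simp
  have hcn : ∀ x, ‖c x‖ = (1 / 2 : ℝ) ^ Encodable.encode x := by
    intro x
    rw [hc]
    simp only [Complex.norm_real]
    exact Real.norm_of_nonneg (by positivity)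
  have hcs : Summable fun x => ‖c x‖ := by
    simp_rw [hcn]
    exact summable_geometric_two_encode
  obtain ⟨G, hG⟩ : ∃ G : ℝ → ℂ, G = fun t : ℝ => ∑' x : K, c x *
      Complex.exp (-(Complex.I * (t : ℂ) * ((x : ℝ) : ℂ))) := ⟨_, rfl⟩
  have hterm : ∀ (x : K) (t : ℝ), ‖c x * Complex.exp (-(Complex.I * (t : ℂ) * ((x : ℝ) : ℂ)))‖ ≤
      ‖c x‖ := by
    intro x t
    rw [norm_mul, norm_ex, mul_one]
  have hGc : Continuous G := by
    rw [hG]
    exact continuous_tsum (f := fun (x : K) (t : ℝ) => c x *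
      Complex.exp (-(Complex.I * (t : ℂ) * ((x : ℝ) : ℂ)))) (fun x => by fun_prop) hcs hterm
  have hGb : ∀ t, ‖G t‖ ≤ ∑' x : K, ‖c x‖ := by
    intro t
    rw [hG]
    exact tsum_of_norm_bounded hcs.hasSum (fun x => hterm x t)
  have hS0 : 0 ≤ ∑' x : K, ‖c x‖ := tsum_nonneg fun x => norm_nonneg _
  obtain ⟨g, hg⟩ : ∃ g : ℝ → ℂ, g = fun t : ℝ => if 0 ≤ t then G t else 0 := ⟨_, rfl⟩
  have hgm : Measurable g := by
    rw [hg]
    exact Measurable.ite measurableSet_Ici hGc.measurable measurable_const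
  have hgI : LInfPos φ g := by
    refine ⟨⟨hgm.aestronglyMeasurable, ∑' x : K, ‖c x‖, Eventually.of_forall fun t => ?_⟩,
      fun t ht => ?_⟩
    · rw [hg]
      simp only
      split_ifs
      · exact (hGb t).trans (le_mul_of_one_le_right hS0 (hφ.one_le t))
      · rw [norm_zero]
        exact mul_nonneg hS0 (zero_le_one.trans (hφ.one_le t))
    · rw [hg]
      exact if_neg (not_le.2 ht)
  -- the pairing
  have hpair : ∀ f : ℝ → ℂ, LP φ f → ∀ s : ℝ, 0 ≤ s → ∫ t : ℝ, f t * g (t + s) =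
      ∑' x : K, (c x * FT f ((x : ℝ) : ℂ)) *
        Complex.exp (-(Complex.I * (s : ℂ) * ((x : ℝ) : ℂ))) := by
    intro f hf s hs
    have hfi : Integrable f := LP.integrable hφ hf
    have hF : ∀ (x : K) (t : ℝ), f t * (c x *
        Complex.exp (-(Complex.I * ((t + s : ℝ) : ℂ) * ((x : ℝ) : ℂ)))) =
        (c x * Complex.exp (-(Complex.I * (s : ℂ) * ((x : ℝ) : ℂ)))) *
        (f t * Complex.exp (-(Complex.I * (t : ℂ) * ((x : ℝ) : ℂ)))) := by
      intro x t
      have : Complex.exp (-(Complex.I * ((t + s : ℝ) : ℂ) * ((x : ℝ) : ℂ))) =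
          Complex.exp (-(Complex.I * (s : ℂ) * ((x : ℝ) : ℂ))) *
          Complex.exp (-(Complex.I * (t : ℂ) * ((x : ℝ) : ℂ))) := by
        rw [← Complex.exp_add]
        congr 1
        push_cast
        ring
      rw [this]
      ring
    have hsum := hasSum_integral_of_summable_integral_norm (μ := volume)
      (F := fun (x : K) (t : ℝ) => f t * (c x *
        Complex.exp (-(Complex.I * ((t + s : ℝ) : ℂ) * ((x : ℝ) : ℂ))))) (fun x => by
          simp_rw [hF]
          exact (FT_integrable hφ hf (by simp)).const_mul _) (by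
          have h1 : ∀ (x : K) (t : ℝ), ‖f t * (c x *
              Complex.exp (-(Complex.I * ((t + s : ℝ) : ℂ) * ((x : ℝ) : ℂ))))‖ =
              ‖c x‖ * ‖f t‖ := by
            intro x t
            rw [norm_mul, norm_mul, norm_ex, mul_one, mul_comm]
          simp_rw [h1, integral_const_mul]
          exact hcs.mul_right _)
    have h2 : ∫ t : ℝ, f t * g (t + s) = ∫ t : ℝ, ∑' x : K, f t * (c x *
        Complex.exp (-(Complex.I * ((t + s : ℝ) : ℂ) * ((x : ℝ) : ℂ)))) := by
      congr 1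
      ext1 t
      rw [tsum_mul_left]
      by_cases ht : 0 ≤ t
      · rw [hg]
        simp only
        rw [if_pos (add_nonneg ht hs), hG]
      · rw [hf.2 t (not_le.1 ht), zero_mul, zero_mul]
    rw [h2, ← hsum.tsum_eq]
    refine tsum_congr fun x => ?_
    simp_rw [hF]
    rw [integral_const_mul]
    unfold FT
    ring
  have hkill : ∀ f : ℝ → ℂ, LP φ f → (∀ s : ℝ, 0 ≤ s → ∫ t : ℝ, f t * g (t + s) = 0) →
      ∀ x ∈ K, FT f (x : ℂ) = 0 := by
    intro f hf h x hx
    have h1 := bohr hK.countable (fun x : K => c x * FT f ((x : ℝ) : ℂ)) (by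
      have h2 : ∀ x : K, ‖c x * FT f ((x : ℝ) : ℂ)‖ ≤ ‖c x‖ * ∫ t, ‖f t‖ := by
        intro x
        rw [norm_mul]
        refine mul_le_mul_of_nonneg_left ?_ (norm_nonneg _)
        unfold FT
        refine (norm_integral_le_integral_norm _).trans_eq ?_
        congr 1
        ext1 t
        rw [norm_mul, norm_ex, mul_one]
      exact Summable.of_nonneg_of_le (fun x => norm_nonneg _) h2 (hcs.mul_right _))
      (fun s hs => by rw [← hpair f hf s hs]; exact h s hs) ⟨x, hx⟩
    exact (mul_eq_zero.1 h1).resolve_left (hc0 _)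
  have hMK : MK φ K g := by
    refine ⟨hgI, fun f hf => ?_⟩
    have h1 := hpair f hf.1 0 le_rfl
    simp only [add_zero] at h1
    rw [h1]
    have h2 : ∀ x : K, (c x * FT f ((x : ℝ) : ℂ)) *
        Complex.exp (-(Complex.I * ((0 : ℝ) : ℂ) * ((x : ℝ) : ℂ))) = 0 := by
      intro x
      rw [hf.2 x x.2, mul_zero, zero_mul]
    simp_rw [h2]
    exact tsum_zero
  have hsub : rc K ⊆ SpecPos φ g := by
    rintro z ⟨x, hx, rfl⟩
    refine ((spc φ hφ g hgI).1 _).2 ⟨by simp, fun f hf h => hkill f hf h x hx⟩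
  have hg0 : ¬ g =ᵐ[volume] 0 := by
    intro h0
    obtain ⟨f, hf, hfz⟩ := exists_lp hφ
    obtain ⟨x, hx⟩ := hne
    refine hfz (x : ℂ) (by simp) (hkill f hf (fun s _ => ?_) x hx)
    have hq := (measurePreserving_add_right volume s).quasiMeasurePreserving
    have h1 : (fun t : ℝ => f t * g (t + s)) =ᵐ[volume] fun _ => (0 : ℂ) := by
      filter_upwards [hq.ae h0] with t ht
      rw [ht]
      simp
    rw [integral_congr_ae h1]
    simp
  obtain ⟨_, h2, h3⟩ := sim φ hφ K hK g hMK hg0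
  exact ⟨hne, g, hgI, h2, Set.Subset.antisymm h3 hsub⟩

/-! ### The uniform criterion -/

/-- Sufficiency if all spectra are locally finite, every weight. -/
theorem crit_suf (φ : ℝ → ℝ) (hφ : IsWeight φ) (L : Set ℝ) (hII : CondII φ L)
    (hI : ∀ K ⊆ L, K.Countable → IsSpec φ K → ∃ C : ℝ, Ineq φ K C) : PropertyE φ L := by
  have hLew : LewStmt := lew
  have hFac : FacStmt := fac cnv hLew
  have hCon : ConStmt := con
  have hFub : FubStmt := fub
  have hNim : NimStmt := nim hFub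
  have hSpc : SpcStmt := spc
  have hSum : SumStmt := sum
  intro g hg hne hsimple hsub
  obtain ⟨K, hKdef⟩ : ∃ K : Set ℝ, K = {x : ℝ | (x : ℂ) ∈ SpecPos φ g} := ⟨_, rfl⟩
  have hmem : ∀ x : ℝ, x ∈ K ↔ (x : ℂ) ∈ SpecPos φ g := fun x => by rw [hKdef]; exact Iff.rfl
  have hspec : SpecPos φ g = rc K := by
    apply Set.Subset.antisymm
    · intro z hz
      obtain ⟨x, _, rfl⟩ := hsub hz
      exact ⟨x, (hmem x).mpr hz, rfl⟩
    · rintro z ⟨x, hx, rfl⟩
      exact (hmem x).mp hx
  have hKL : K ⊆ L := by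
    intro x hx
    obtain ⟨y, hy, hyx⟩ := hsub ((hmem x).mp hx)
    have : y = x := Complex.ofReal_injective hyx
    rwa [← this]
  have hcl : IsClosed K := by
    have h1 := (hSpc φ hφ g hg).2
    have h2 : K = (fun x : ℝ => (x : ℂ)) ⁻¹' SpecPos φ g := by
      ext x
      exact hmem x
    rw [h2]
    exact h1.preimage Complex.continuous_ofReal
  have hLF : LocFin K := by
    rcases hII with hC | hfin
    · exact disc hSpc hFac φ hφ hC g hg hsimple K hspec
    · intro R
      exact hfin _ (Set.inter_subset_left.trans hKL) (hcl.inter isClosed_Icc)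
        (Metric.isBounded_Icc _ _ |>.subset Set.inter_subset_right)
  have hne' : K.Nonempty := by
    obtain ⟨z, hz⟩ := hne
    rw [hspec] at hz
    obtain ⟨x, hx, _⟩ := hz
    exact ⟨x, hx⟩
  obtain ⟨hU, hN, hD⟩ := uxi φ hφ g K hg hsimple hspec hne' hLF
  obtain ⟨C, hC⟩ := hI K hKL (hSum.2.2.1 K hLF).2 ⟨hne', g, hg, hsimple, hspec⟩
  have hM : MK φ K g := syn φ hφ g K hg hsimple hspec hne' hLF
  obtain ⟨G, hX, hG⟩ := extg wlm hCon hFub φ hφ K hU (aik qai φ hφ K hD) C hC g hM
  have hs : Spec φ G = K := speg hNim spx van hCon hFub hSpc φ hφ K (hSum.2.2.1 K hLF).1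
    (hSum.2.2.1 K hLF).2 hU hN g G hM hspec hX hG
  refine ⟨G, hX.1, hG, ?_⟩
  rw [hs, hspec]
  rfl

/-- Sets without infinite bounded closed subsets. -/
def BddFin (L : Set ℝ) : Prop := ∀ K ⊆ L, IsClosed K → Bornology.IsBounded K → K.Finite

theorem bddFin_countable {L : Set ℝ} (h : BddFin L) : ∀ K ⊆ L, IsClosed K → K.Countable := by
  intro K hK hcl
  have hSum : SumStmt := sum
  refine (hSum.2.2.1 K fun R => ?_).2
  exact h _ (Set.inter_subset_left.trans hK) (hcl.inter isClosed_Icc)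
    (Metric.isBounded_Icc _ _ |>.subset Set.inter_subset_right)

/-- If `φ(-t) = o(φ(t))`, the inequalities exclude infinite bounded closed subsets. -/
theorem small_condII {φ : ℝ → ℝ} (hφ : IsWeight φ)
    (ho : Tendsto (fun t => φ (-t) / φ t) atTop (𝓝 0)) {L : Set ℝ}
    (hI : ∀ K ⊆ L, K.Countable → IsSpec φ K → ∃ C : ℝ, Ineq φ K C) : CondII φ L := by
  by_contra hcon
  apply hcon
  have hSum : SumStmt := sum
  have hLew : LewStmt := lew
  have hFac : FacStmt := fac cnv hLew
  have hFub : FubStmt := fub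
  have hSpc : SpcStmt := spc
  have hNim : NimStmt := nim hFub
  have hNic : NicStmt := nic (niu hFac hLew) hNim hLew hSpc
  by_cases h1 : ∃ C : ℝ, ∀ t : ℝ, 0 ≤ t → t ≤ C * φ t
  · exact Or.inl h1
  · refine Or.inr fun E hEL hEc hEb => ?_
    by_contra hEi
    obtain ⟨K, x0, hKE, hx0, hKi, hKc, hKk, hD⟩ := fast φ hφ h1 E hEc hEb hEi
    have hn : Nice φ K := hNic φ hφ K {x0} (Set.singleton_subset_iff.2 hx0)
      Set.subsingleton_singleton hKc hKk hD
    obtain ⟨C0, hC0⟩ := hI K (hKE.trans hEL) hKk (nice_isSpec hφ hn ⟨x0, hx0⟩)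
    obtain ⟨T, C, hC⟩ := refl φ hφ ho K C0 hC0
    obtain ⟨N, hN⟩ := clu φ hφ K T C hC
    obtain ⟨R, hR⟩ := (hEb.subset hKE).subset_closedBall 0
    apply hKi
    apply (hSum.2.1 K (hSum.1 K N hN) R).subset
    intro x hx
    refine ⟨hx, ?_⟩
    have hxR := hR hx
    rw [Real.closedBall_eq_Icc] at hxR
    simpa using hxR

/-- The uniform criterion. -/
theorem uni (hXfr : XfrStmt) (hSu : Su7Stmt) (φ : ℝ → ℝ) (hφ : IsWeight φ) (L : Set ℝ)
    (h : QC φ ∨ Lin φ ∨ BddFin L ∨ Tendsto (fun t => φ (-t) / φ t) atTop (𝓝 0)) :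
    PropertyE φ L ↔
      (Lin φ ∨ (∀ K ⊆ L, IsClosed K → K.Countable) ∨ (Big φ ∧ FarC L)) ∧
      ∀ K ⊆ L, K.Countable → IsSpec φ K → ∃ C : ℝ, Ineq φ K C := by
  rcases h with h | h | h | h
  · exact thz hXfr hSu φ hφ (Or.inl h) L
  · exact thz hXfr hSu φ hφ (Or.inr h) L
  · constructor
    · intro hE
      exact ⟨Or.inr (Or.inl (bddFin_countable h)), fun K hKL hc hK => nec_count hφ hE hKL hc hK⟩
    · rintro ⟨_, hI⟩
      exact crit_suf φ hφ L (Or.inr h) hI
  · constructor
    · intro hE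
      refine ⟨?_, fun K hKL hc hK => nec_count hφ hE hKL hc hK⟩
      rcases ((Pool.Agent.WK.main φ hφ h L).1 hE).2 with h1 | h1
      · exact Or.inl h1
      · exact Or.inr (Or.inl (bddFin_countable h1))
    · rintro ⟨_, hI⟩
      exact crit_suf φ hφ L (small_condII hφ h hI) hI

end

end Pool.Agent.WK7
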